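import Pool.Agent.Helper175_Enc.Examples

/-!
Abelian permutation groups are determined by the polynomials of degree at most two, over the rings
`ZMod q` with `q` at most the degree, in the entries of the permutation matrix that vanish on them.
-/

set_option autoImplicit false

namespace Pool.Agent.Helper175_Enc

open Equiv

/-- A permutation whose order is divisible by a prime power has that many points. -/
lemma primePow_le_of_dvd_orderOf {n q : ℕ} {d : Perm (Fin n)} (hq : IsPrimePow q)
    (h : q ∣ orderOf d) : q ≤ n := by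
  obtain ⟨p, a, hp, ha, rfl⟩ := (isPrimePow_nat_iff q).mp hq
  have hd : orderOf d ≠ 0 := (orderOf_pos d).ne'
  obtain ⟨m, hm⟩ := h
  have hm0 : m ≠ 0 := fun h => hd (by rw [hm, h, mul_zero])
  set e := d ^ m with he
  have hord : orderOf e = p ^ a := by
    rw [he, orderOf_pow, hm, Nat.gcd_mul_left_left, Nat.mul_div_cancel _ (Nat.pos_of_ne_zero hm0)]
  have hne : e ^ (p ^ (a - 1)) ≠ 1 := by
    intro h1
    have h2 := orderOf_dvd_of_pow_eq_one h1
    rw [hord] at h2
    have h3 := (Nat.pow_dvd_pow_iff_le_right hp.one_lt).mp h2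
    omega
  have hex : ∃ x, (e ^ (p ^ (a - 1))) x ≠ x := by
    by_contra hcon
    push Not at hcon
    exact hne (Equiv.ext hcon)
  obtain ⟨x, hx⟩ := hex
  have hper : Function.minimalPeriod e x = p ^ a := by
    have h1 : Function.minimalPeriod e x ∣ p ^ a := by
      apply Function.IsPeriodicPt.minimalPeriod_dvd
      rw [Function.IsPeriodicPt, Function.IsFixedPt, ← Perm.coe_pow, ← hord, pow_orderOf_eq_one]
      rfl
    obtain ⟨i, hi, hi'⟩ := (Nat.dvd_prime_pow hp).mp h1
    rcases Nat.lt_or_ge i a with h2 | h2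
    · exfalso
      apply hx
      have h3 : Function.IsPeriodicPt e (p ^ (a - 1)) x := by
        apply (Function.isPeriodicPt_minimalPeriod e x).trans_dvd
        rw [hi']
        exact pow_dvd_pow p (by omega)
      rw [Function.IsPeriodicPt, Function.IsFixedPt, ← Perm.coe_pow] at h3
      exact h3
    · rw [hi']
      congr 1
      omega
  have hinj : Function.Injective (fun i : Fin (p ^ a) => (e : Perm (Fin n))^[i.val] x) := by
    intro i j hij
    have h1 := (Function.iterate_injOn_Iio_minimalPeriod (f := e) (x := x))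
      (by rw [hper]; exact i.isLt) (by rw [hper]; exact j.isLt) hij
    exact Fin.ext h1
  have := Fintype.card_le_of_injective _ hinj
  rwa [Fintype.card_fin, Fintype.card_fin] at this

section Abel

variable {n : ℕ} (G : Subgroup (Perm (Fin n)))

/-- Permutations that agree with an element of `G` on each orbit of `G`. -/
def LocP : Set (Perm (Fin n)) :=
  {d | ∀ x, ∃ g ∈ G, ∀ y, (∃ h ∈ G, y = h x) → d y = g y}

variable {G}

lemma locP_symm {x y : Fin n} (h : ∃ g ∈ G, y = g x) : ∃ g ∈ G, x = g y := by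
  obtain ⟨g, hg, rfl⟩ := h
  exact ⟨g⁻¹, G.inv_mem hg, (g.symm_apply_apply x).symm⟩

/-- The group of these permutations. -/
def LocG (G : Subgroup (Perm (Fin n))) : Subgroup (Perm (Fin n)) where
  carrier := LocP G
  one_mem' := fun x => ⟨1, G.one_mem, fun y _ => rfl⟩
  mul_mem' := by
    intro a b ha hb x
    obtain ⟨g, hg, hg'⟩ := hb x
    obtain ⟨h, hh, hh'⟩ := ha x
    refine ⟨h * g, G.mul_mem hh hg, ?_⟩
    rintro y ⟨u, hu, rfl⟩
    have h1 := hh' _ ⟨g * u, G.mul_mem hg hu, rfl⟩
    rw [Perm.mul_apply] at h1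
    rw [Perm.mul_apply, hg' _ ⟨u, hu, rfl⟩, h1]
    rfl
  inv_mem' := by
    intro a ha x
    obtain ⟨g, hg, hg'⟩ := ha x
    refine ⟨g⁻¹, G.inv_mem hg, ?_⟩
    rintro y ⟨u, hu, rfl⟩
    have h1 := hg' (g⁻¹ (u x)) ⟨g⁻¹ * u, G.mul_mem (G.inv_mem hg) hu, rfl⟩
    rw [app_inv] at h1
    apply a.injective
    rw [app_inv, h1]

lemma locG_comm (hG : ∀ g ∈ G, ∀ h ∈ G, g * h = h * g) (a b : LocG G) : a * b = b * a := by
  apply Subtype.ext
  ext x : 1
  obtain ⟨g, hg, hg'⟩ := a.2 x
  obtain ⟨h, hh, hh'⟩ := b.2 x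
  change (a : Perm (Fin n)) ((b : Perm (Fin n)) x) = (b : Perm (Fin n)) ((a : Perm (Fin n)) x)
  have h1 := congrArg (fun f : Perm (Fin n) => f x) (hG g hg h hh)
  simp only [Perm.mul_apply] at h1
  rw [hg' x ⟨1, G.one_mem, rfl⟩, hh' x ⟨1, G.one_mem, rfl⟩, hg' _ ⟨h, hh, rfl⟩,
    hh' _ ⟨g, hg, rfl⟩, h1]

lemma le_locG : G ≤ LocG G := fun g hg _ => ⟨g, hg, fun _ _ => rfl⟩

/-- The orbit relation. -/
def orel (G : Subgroup (Perm (Fin n))) : Setoid (Fin n) where
  r x y := ∃ g ∈ G, y = g x
  iseqv :=
    { refl := fun x => ⟨1, G.one_mem, rfl⟩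
      symm := fun h => locP_symm h
      trans := by
        rintro x y z ⟨g, hg, rfl⟩ ⟨h, hh, rfl⟩
        exact ⟨h * g, G.mul_mem hh hg, rfl⟩ }

open Classical in
/-- Restriction to one orbit. -/
noncomputable def resO (x : Fin n) (d : LocG G) : Perm (Fin n) where
  toFun y := if (orel G).r x y then (d : Perm (Fin n)) y else y
  invFun y := if (orel G).r x y then (d : Perm (Fin n))⁻¹ y else y
  left_inv := by
    intro y
    by_cases h : (orel G).r x y
    · obtain ⟨g, hg, hg'⟩ := d.2 x
      have h1 : (orel G).r x ((d : Perm (Fin n)) y) := by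
        rw [hg' y h]
        exact (orel G).iseqv.trans h ⟨g, hg, rfl⟩
      simp only [if_pos h, if_pos h1, inv_app]
    · simp only [if_neg h]
  right_inv := by
    intro y
    by_cases h : (orel G).r x y
    · obtain ⟨g, hg, hg'⟩ := (d⁻¹).2 x
      have h1 : (orel G).r x ((d : Perm (Fin n))⁻¹ y) := by
        have h2 := hg' y h
        change (d : Perm (Fin n))⁻¹ y = g y at h2
        rw [h2]
        exact (orel G).iseqv.trans h ⟨g, hg, rfl⟩
      simp only [if_pos h, if_pos h1, app_inv]
    · simp only [if_neg h]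

open Classical in
lemma resO_apply (x : Fin n) (d : LocG G) (y : Fin n) :
    resO x d y = if (orel G).r x y then (d : Perm (Fin n)) y else y := rfl

lemma locG_rel (d : LocG G) {x y : Fin n} (h : (orel G).r x y) :
    (orel G).r x ((d : Perm (Fin n)) y) := by
  obtain ⟨g, hg, hg'⟩ := d.2 x
  rw [hg' y h]
  exact (orel G).iseqv.trans h ⟨g, hg, rfl⟩

lemma resO_mem (x : Fin n) (d : LocG G) : resO x d ∈ LocG G := by
  intro z
  by_cases h : (orel G).r x z
  · obtain ⟨g, hg, hg'⟩ := d.2 z
    refine ⟨g, hg, fun y hy => ?_⟩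
    rw [resO_apply, if_pos ((orel G).iseqv.trans h hy), hg' y hy]
  · refine ⟨1, G.one_mem, fun y hy => ?_⟩
    rw [resO_apply, if_neg]
    · rfl
    · intro h'
      exact h ((orel G).iseqv.trans h' ((orel G).iseqv.symm hy))

/-- Restriction as a homomorphism. -/
noncomputable def resH (x : Fin n) : LocG G →* LocG G where
  toFun d := ⟨resO x d, resO_mem x d⟩
  map_one' := by
    apply Subtype.ext
    ext y : 1
    change resO x 1 y = y
    rw [resO_apply]
    split_ifs <;> rfl
  map_mul' a b := by
    apply Subtype.ext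
    ext y : 1
    change resO x (a * b) y = resO x a (resO x b y)
    rw [resO_apply, resO_apply, resO_apply]
    by_cases h : (orel G).r x y
    · rw [if_pos h, if_pos h, if_pos (locG_rel b h)]
      rfl
    · rw [if_neg h, if_neg h, if_neg h]

/-- Two elements that agree at a point agree on its orbit. -/
lemma resH_eq (hG : ∀ g ∈ G, ∀ h ∈ G, g * h = h * g) {x : Fin n} {a b : LocG G}
    (h : (a : Perm (Fin n)) x = (b : Perm (Fin n)) x) : resH x a = resH x b := by
  apply Subtype.ext
  ext y : 1
  change resO x a y = resO x b y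
  rw [resO_apply, resO_apply]
  by_cases hy : (orel G).r x y
  · rw [if_pos hy, if_pos hy]
    obtain ⟨u, hu, rfl⟩ := hy
    obtain ⟨g, hg, hg'⟩ := a.2 x
    obtain ⟨g₂, hg₂, hg₂'⟩ := b.2 x
    have h0 : (∃ h ∈ G, x = h x) := ⟨1, G.one_mem, rfl⟩
    rw [hg' _ ⟨u, hu, rfl⟩, hg₂' _ ⟨u, hu, rfl⟩]
    rw [hg' x h0, hg₂' x h0] at h
    have h1 := congrArg (fun f : Perm (Fin n) => f x) (hG g hg u hu)
    have h2 := congrArg (fun f : Perm (Fin n) => f x) (hG g₂ hg₂ u hu)
    simp only [Perm.mul_apply] at h1 h2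
    rw [h1, h2, h]
  · rw [if_neg hy, if_neg hy]

/-- Abelian groups are determined by the polynomials of degree at most two over the rings `ZMod q`
with `q ≤ n` that vanish on them. -/
theorem ccN_abelian (N : ℕ) (hN : n ≤ N) (hG : ∀ g ∈ G, ∀ h ∈ G, g * h = h * g) :
    ccN N 2 G = G := by
  classical
  rcases Nat.lt_or_ge n 2 with hn | hn
  · apply le_antisymm _ (le_ccN N 2 G)
    intro b _
    have : Subsingleton (Fin n) := by
      rcases n with - | n
      · infer_instance
      · have : n = 0 := by omega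
        subst this
        exact inferInstanceAs (Subsingleton (Fin 1))
    have hb : b = 1 := Equiv.ext (fun x => Subsingleton.elim _ _)
    rw [hb]
    exact G.one_mem
  apply le_antisymm _ (le_ccN N 2 G)
  intro b hb
  -- `b` agrees with an element of `G` on each orbit
  have hbL : b ∈ LocG G := by
    intro x
    obtain ⟨g, hg, hgx⟩ := local_of_mem (by omega) hb ![x, x]
    have hx : b x = g x := congrFun hgx 0
    refine ⟨g, hg, ?_⟩
    rintro y ⟨u, hu, rfl⟩
    obtain ⟨g', hg', hgx'⟩ := local_of_mem (by omega) hb ![x, u x]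
    have h1 : b x = g' x := congrFun hgx' 0
    have h2 : b (u x) = g' (u x) := congrFun hgx' 1
    have h3 := congrArg (fun f : Perm (Fin n) => f x) (hG g' hg' u hu)
    have h4 := congrArg (fun f : Perm (Fin n) => f x) (hG g hg u hu)
    simp only [Perm.mul_apply] at h3 h4
    rw [h2, h3, ← h1, hx, h4]
  by_contra hbG
  let cg : CommGroup (LocG G) :=
    { (inferInstance : Group (LocG G)) with mul_comm := locG_comm hG }
  let G' : Subgroup (LocG G) := G.subgroupOf (LocG G)
  have h1 : (QuotientGroup.mk (⟨b, hbL⟩ : LocG G) : LocG G ⧸ G') ≠ 1 := by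
    rw [Ne, QuotientGroup.eq_one_iff]
    intro h
    exact hbG (Subgroup.mem_subgroupOf.mp h)
  have hfin : Finite (Additive (LocG G ⧸ G')) := inferInstanceAs (Finite (LocG G ⧸ G'))
  obtain ⟨q, hq, ⟨w, hw⟩, φ, hφ⟩ := exists_pp_hom (B := Additive (LocG G ⧸ G'))
    (b := Additive.ofMul (QuotientGroup.mk (⟨b, hbL⟩ : LocG G))) h1
  -- the modulus is small
  have hqn : q ≤ n := by
    obtain ⟨d, hd⟩ := QuotientGroup.mk_surjective (s := G') (Additive.toMul w)
    apply primePow_le_of_dvd_orderOf (d := (d : Perm (Fin n))) hq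
    rw [← hw, addOrderOf_dvd_iff_nsmul_eq_zero]
    have h2 : orderOf (d : Perm (Fin n)) • w =
        Additive.ofMul ((QuotientGroup.mk d : LocG G ⧸ G') ^ orderOf (d : Perm (Fin n))) := by
      rw [hd]
      rfl
    rw [h2, ← QuotientGroup.mk_pow]
    have h3 : d ^ orderOf (d : Perm (Fin n)) = 1 := by
      apply Subtype.ext
      rw [Subgroup.coe_pow, pow_orderOf_eq_one]
      rfl
    rw [h3]
    rfl
  have hq1 : 1 ≤ q := hq.one_lt.le
  have hqne : NeZero q := ⟨by omega⟩
  -- the additive function on the local group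
  let lam : LocG G →* Multiplicative (ZMod q) :=
    { toFun := fun d => Multiplicative.ofAdd (φ (Additive.ofMul (QuotientGroup.mk d)))
      map_one' := by
        rw [QuotientGroup.mk_one, ofMul_one, map_zero]
        rfl
      map_mul' := fun a b => by
        rw [QuotientGroup.mk_mul, ofMul_mul, map_add]
        rfl }
  have hlam0 : ∀ d : LocG G, (d : Perm (Fin n)) ∈ G → lam d = 1 := by
    intro d hd
    change Multiplicative.ofAdd (φ (Additive.ofMul (QuotientGroup.mk d))) = 1
    rw [(QuotientGroup.eq_one_iff d).mpr (Subgroup.mem_subgroupOf.mpr hd), ofMul_one, map_zero]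
    rfl
  -- representatives of the orbits
  let rep : Fin n → Fin n := fun x => Quotient.out (Quotient.mk (orel G) x)
  have hrep : ∀ x, (orel G).r (rep x) x := fun x => Quotient.exact (Quotient.out_eq _)
  have hrep' : ∀ x y, (orel G).r x y → rep x = rep y := by
    intro x y h
    change Quotient.out _ = Quotient.out _
    rw [Quotient.sound h]
  have hprod : ∀ (d : LocG G) (S : Finset (Fin n)), (∀ x ∈ S, rep x = x) → ∀ y,
      ((∏ x ∈ S, resH x d : LocG G) : Perm (Fin n)) y =
        if rep y ∈ S then (d : Perm (Fin n)) y else y := by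
    intro d S
    induction S using Finset.induction_on with
    | empty =>
      intro _ y
      rw [Finset.prod_empty, if_neg (Finset.notMem_empty _)]
      rfl
    | insert a S ha ih =>
      intro hS y
      have ih' := ih (fun x hx => hS x (Finset.mem_insert_of_mem hx)) y
      rw [Finset.prod_insert ha]
      change resO a d (((∏ x ∈ S, resH x d : LocG G) : Perm (Fin n)) y) = _
      rw [ih']
      have hra : rep a = a := hS a (Finset.mem_insert_self a S)
      by_cases hy : rep y ∈ S
      · rw [if_pos hy, if_pos (Finset.mem_insert_of_mem hy), resO_apply, if_neg]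
        intro h2
        have h3 := hrep' _ _ h2
        have h4 := hrep' y _ (locG_rel d ((orel G).iseqv.refl y))
        rw [← h4, hra] at h3
        rw [← h3] at hy
        exact ha hy
      · rw [if_neg hy, resO_apply]
        by_cases h2 : (orel G).r a y
        · have h3 := hrep' _ _ h2
          rw [hra] at h3
          rw [if_pos h2, if_pos]
          rw [← h3]
          exact Finset.mem_insert_self a S
        · rw [if_neg h2, if_neg]
          rw [Finset.mem_insert]
          rintro (h3 | h3)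
          · apply h2
            rw [← h3]
            exact hrep y
          · exact hy h3
  let R : Finset (Fin n) := Finset.univ.filter (fun x => rep x = x)
  have hR : ∀ x, x ∈ R ↔ rep x = x := fun x => by simp [R]
  have hdec : ∀ d : LocG G, d = ∏ x ∈ R, resH x d := by
    intro d
    apply Subtype.ext
    ext y : 1
    rw [hprod d R (fun x hx => (hR x).mp hx), if_pos]
    rw [hR]
    exact hrep' _ _ (hrep y)
  let ψ : Fin n → Fin n → ZMod q := fun x y =>
    if h : ∃ d : LocG G, (d : Perm (Fin n)) x = y then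
      Multiplicative.toAdd (lam (resH x h.choose)) else 0
  have hψ : ∀ (x : Fin n) (d : LocG G), ψ x ((d : Perm (Fin n)) x) =
      Multiplicative.toAdd (lam (resH x d)) := by
    intro x d
    have h2 : ∃ d' : LocG G, (d' : Perm (Fin n)) x = (d : Perm (Fin n)) x := ⟨d, rfl⟩
    simp only [ψ, dif_pos h2]
    rw [resH_eq hG h2.choose_spec]
  let c : (Fin 2 → Fin n) → (Fin 2 → Fin n) → ZMod q := fun γ δ =>
    if γ 0 = γ 1 ∧ rep (γ 0) = γ 0 then ψ (γ 0) (δ 0) else 0
  have key : ∀ d : LocG G, ∑ γ : Fin 2 → Fin n, c γ (⇑(d : Perm (Fin n)) ∘ γ) =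
      Multiplicative.toAdd (lam d) := by
    intro d
    have h2 : ∑ γ : Fin 2 → Fin n, c γ (⇑(d : Perm (Fin n)) ∘ γ) =
        ∑ x : Fin n × Fin n, (if x.1 = x.2 ∧ rep x.1 = x.1 then
          ψ x.1 ((d : Perm (Fin n)) x.1) else 0) :=
      Fintype.sum_equiv (finTwoArrowEquiv (Fin n)) _ _ (fun γ => rfl)
    rw [h2, Fintype.sum_prod_type]
    conv_rhs => rw [hdec d]
    rw [map_prod, toAdd_prod, Finset.sum_filter]
    refine Finset.sum_congr rfl (fun x _ => ?_)
    rw [Finset.sum_eq_single x]
    · by_cases h3 : rep x = x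
      · rw [if_pos ⟨rfl, h3⟩, if_pos h3, hψ]
      · rw [if_neg (fun h => h3 h.2), if_neg h3]
    · intro y _ hy
      rw [if_neg (fun h => hy h.1.symm)]
    · intro h
      exact absurd (Finset.mem_univ x) h
  rw [← mem_ccN_iff] at hb
  have h2 := hb q hq1 (hqn.trans hN) c (by
    intro g hg
    have h3 := key ⟨g, le_locG hg⟩
    rw [hlam0 _ hg] at h3
    exact h3)
  have h3 := key ⟨b, hbL⟩
  rw [h2] at h3
  exact hφ h3.symm

end Abel

end Pool.Agent.Helper175_Enc
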