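import Pool.Agent.Helper175_Enc.Gen

/-!
The closure of a permutation group with respect to invariant codes over `ZMod N`.
-/

set_option autoImplicit false

namespace Pool.Agent.Helper175_Enc

open Equiv

section Mat

variable {Ω J₀ : Type} (N : ℕ)

open Classical in
/-- The matrix of `b` in its action on tuples, as a function of labelled tuples. -/
noncomputable def tm (b : Perm Ω) : IS Ω (J₀ → Ω) J₀ → ZMod N :=
  fun i => if ⇑b ∘ i.1 = i.2 then 1 else 0

/-- The additive group spanned by the matrices of the elements of `G`. -/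
noncomputable def span (J₀ : Type) (G : Subgroup (Perm Ω)) :
    AddSubgroup (IS Ω (J₀ → Ω) J₀ → ZMod N) :=
  AddSubgroup.closure (tm N '' (G : Set (Perm Ω)))

lemma pull_tm (b g : Perm Ω) : pull b (tm (J₀ := J₀) N g) = tm N (g * b) := by
  funext i
  simp only [pull, tm]
  rfl

/-- Action on the labels. -/
def lab {Λ A : Type} (f : Λ → Λ) (r : IS Ω Λ J₀ → A) : IS Ω Λ J₀ → A := fun i => r (i.1, f i.2)

lemma lab_tm (b g : Perm Ω) :
    lab (fun δ => ⇑(g⁻¹) ∘ δ) (tm (J₀ := J₀) N b) = tm N (g * b) := by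
  funext i
  simp only [lab, tm]
  congr 1
  apply propext
  constructor
  · intro h
    have := congrArg (fun x => ⇑g ∘ x) h
    simp only [comp_inv] at this
    exact this
  · intro h
    rw [← h]
    exact (inv_comp g (⇑b ∘ i.1)).symm

lemma lab_span {G : Subgroup (Perm Ω)} {g : Perm Ω} (hg : g ∈ G)
    {r : IS Ω (J₀ → Ω) J₀ → ZMod N} (hr : r ∈ span N J₀ G) :
    lab (fun δ => ⇑(g⁻¹) ∘ δ) r ∈ span N J₀ G := by
  induction hr using AddSubgroup.closure_induction with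
  | mem x hx =>
    obtain ⟨h, hh, rfl⟩ := hx
    rw [lab_tm]
    exact AddSubgroup.subset_closure ⟨g * h, G.mul_mem hg hh, rfl⟩
  | zero => exact AddSubgroup.zero_mem _
  | add x y _ _ hx hy => exact AddSubgroup.add_mem _ hx hy
  | neg x _ hx => exact AddSubgroup.neg_mem _ hx

lemma pull_span {G : Subgroup (Perm Ω)} {b : Perm Ω} (hb : tm N b ∈ span N J₀ G)
    {r : IS Ω (J₀ → Ω) J₀ → ZMod N} (hr : r ∈ span N J₀ G) :
    pull b r ∈ span N J₀ G := by
  induction hr using AddSubgroup.closure_induction with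
  | mem x hx =>
    obtain ⟨h, hh, rfl⟩ := hx
    rw [pull_tm, ← lab_tm]
    exact lab_span N hh hb
  | zero => exact AddSubgroup.zero_mem _
  | add x y _ _ hx hy => exact AddSubgroup.add_mem _ hx hy
  | neg x _ hx => exact AddSubgroup.neg_mem _ hx

lemma stab_of_pull {Λ A : Type} [Finite Ω] [Finite Λ] [Finite J₀] [Finite A]
    {R : Set (IS Ω Λ J₀ → A)} {b : Perm Ω} (h : ∀ r ∈ R, pull b r ∈ R) : b ∈ StabOf R := by
  intro r
  refine ⟨h r, fun hr => ?_⟩
  have hinj : Function.Injective (fun r : R => (⟨pull b r, h r r.2⟩ : R)) := by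
    intro r r' hrr
    have := congrArg Subtype.val hrr
    exact Subtype.ext (pull_inj b this)
  obtain ⟨r', hr'⟩ := (Finite.injective_iff_surjective.mp hinj) ⟨pull b r, hr⟩
  have h1 := pull_inj b (congrArg Subtype.val hr')
  rw [← h1]
  exact r'.2

theorem stab_span [Finite Ω] [Finite J₀] [NeZero N] (G : Subgroup (Perm Ω)) (b : Perm Ω) :
    b ∈ StabOf (span N J₀ G : Set (IS Ω (J₀ → Ω) J₀ → ZMod N)) ↔ tm N b ∈ span N J₀ G := by
  constructor
  · intro h
    have h1 : tm N (1 : Perm Ω) ∈ span N J₀ G := AddSubgroup.subset_closure ⟨1, G.one_mem, rfl⟩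
    have h2 := (h _).mp h1
    rw [pull_tm, one_mul] at h2
    exact h2
  · intro h
    exact stab_of_pull (fun r hr => pull_span N h hr)

/-- A permutation in the span preserves every invariant code. -/
theorem pres_of_span [Fintype Ω] [Fintype J₀] {Λ : Type} {G : Subgroup (Perm Ω)} {b : Perm Ω}
    (hb : tm N b ∈ span N J₀ G) {R : AddSubgroup (IS Ω Λ J₀ → ZMod N)}
    (hR : ∀ g ∈ G, ∀ r ∈ R, pull g r ∈ R) : ∀ r ∈ R, pull b r ∈ R := by
  classical
  intro r hr
  have key : ∀ c : Perm Ω, (fun i : IS Ω Λ J₀ => ∑ δ : J₀ → Ω, tm N c (i.1, δ) * r (δ, i.2)) =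
      pull c r := by
    intro c
    funext i
    simp only [tm, pull]
    simp
  have h1 : ∀ F ∈ span N J₀ G,
      (fun i : IS Ω Λ J₀ => ∑ δ : J₀ → Ω, F (i.1, δ) * r (δ, i.2)) ∈ R := by
    intro F hF
    induction hF using AddSubgroup.closure_induction with
    | mem x hx =>
      obtain ⟨g, hg, rfl⟩ := hx
      rw [key]
      exact hR g hg r hr
    | zero =>
      simp only [Pi.zero_apply, zero_mul, Finset.sum_const_zero]
      exact R.zero_mem
    | add x y _ _ hx hy =>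
      simp only [Pi.add_apply, add_mul, Finset.sum_add_distrib]
      exact R.add_mem hx hy
    | neg x _ hx =>
      simp only [Pi.neg_apply, neg_mul, Finset.sum_neg_distrib]
      exact R.neg_mem hx
  rw [← key]
  exact h1 _ hb

end Mat

section Sum

variable {Ω Λ₁ Λ₂ J₀ A : Type}

/-- Extension by a trivial value to further labels. -/
def inL [Zero A] (r : IS Ω Λ₁ J₀ → A) : IS Ω (Λ₁ ⊕ Λ₂) J₀ → A := fun i => match i with
  | (γ, Sum.inl l) => r (γ, l)
  | (_, Sum.inr _) => 0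

/-- Extension by a trivial value to further labels. -/
def inR [Zero A] (r : IS Ω Λ₂ J₀ → A) : IS Ω (Λ₁ ⊕ Λ₂) J₀ → A := fun i => match i with
  | (_, Sum.inl _) => 0
  | (γ, Sum.inr l) => r (γ, l)

/-- Sum of two codes on disjoint sets of labels. -/
def sumCode [AddGroup A] (R₁ : AddSubgroup (IS Ω Λ₁ J₀ → A)) (R₂ : AddSubgroup (IS Ω Λ₂ J₀ → A)) :
    AddSubgroup (IS Ω (Λ₁ ⊕ Λ₂) J₀ → A) where
  carrier := {r | (fun i : IS Ω Λ₁ J₀ => r (i.1, Sum.inl i.2)) ∈ R₁ ∧
    (fun i : IS Ω Λ₂ J₀ => r (i.1, Sum.inr i.2)) ∈ R₂}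
  zero_mem' := ⟨R₁.zero_mem, R₂.zero_mem⟩
  add_mem' := fun h h' => ⟨R₁.add_mem h.1 h'.1, R₂.add_mem h.2 h'.2⟩
  neg_mem' := fun h => ⟨R₁.neg_mem h.1, R₂.neg_mem h.2⟩

lemma stab_sumCode [AddGroup A] (R₁ : AddSubgroup (IS Ω Λ₁ J₀ → A))
    (R₂ : AddSubgroup (IS Ω Λ₂ J₀ → A)) (b : Perm Ω) :
    b ∈ StabOf (sumCode R₁ R₂ : Set (IS Ω (Λ₁ ⊕ Λ₂) J₀ → A)) ↔
      b ∈ StabOf (R₁ : Set (IS Ω Λ₁ J₀ → A)) ∧ b ∈ StabOf (R₂ : Set (IS Ω Λ₂ J₀ → A)) := by
  have hL : ∀ r : IS Ω Λ₁ J₀ → A, inL r ∈ sumCode R₁ R₂ ↔ r ∈ R₁ := by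
    intro r
    exact ⟨fun h => h.1, fun h => ⟨h, R₂.zero_mem⟩⟩
  have hR : ∀ r : IS Ω Λ₂ J₀ → A, inR r ∈ sumCode R₁ R₂ ↔ r ∈ R₂ := by
    intro r
    exact ⟨fun h => h.2, fun h => ⟨R₁.zero_mem, h⟩⟩
  have hpL : ∀ r : IS Ω Λ₁ J₀ → A, pull b (inL (Λ₂ := Λ₂) r) = inL (pull b r) := by
    intro r
    funext i
    rcases i with ⟨γ, l | l⟩ <;> rfl
  have hpR : ∀ r : IS Ω Λ₂ J₀ → A, pull b (inR (Λ₁ := Λ₁) r) = inR (pull b r) := by
    intro r
    funext i
    rcases i with ⟨γ, l | l⟩ <;> rfl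
  constructor
  · intro h
    refine ⟨fun r => ?_, fun r => ?_⟩
    · have := h (inL r)
      rw [hpL, SetLike.mem_coe, SetLike.mem_coe, hL, hL] at this
      exact this
    · have := h (inR r)
      rw [hpR, SetLike.mem_coe, SetLike.mem_coe, hR, hR] at this
      exact this
  · rintro ⟨h1, h2⟩ r
    exact and_congr (h1 _) (h2 _)

lemma sumCode_closure [AddGroup A] (A₁ : Set (IS Ω Λ₁ J₀ → A)) (A₂ : Set (IS Ω Λ₂ J₀ → A)) :
    sumCode (AddSubgroup.closure A₁) (AddSubgroup.closure A₂) =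
      AddSubgroup.closure (inL '' A₁ ∪ inR '' A₂) := by
  apply le_antisymm
  · rintro r ⟨h1, h2⟩
    set C := AddSubgroup.closure (inL (Λ₂ := Λ₂) '' A₁ ∪ inR (Λ₁ := Λ₁) '' A₂) with hC
    have h3 : ∀ s ∈ AddSubgroup.closure A₁, inL s ∈ C := by
      intro s hs
      induction hs using AddSubgroup.closure_induction with
      | mem x hx => exact AddSubgroup.subset_closure (Or.inl ⟨x, hx, rfl⟩)
      | zero =>
        have : inL (Λ₂ := Λ₂) (0 : IS Ω Λ₁ J₀ → A) = 0 := by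
          funext i; rcases i with ⟨γ, l | l⟩ <;> rfl
        rw [this]; exact C.zero_mem
      | add x y _ _ hx hy =>
        have : inL (Λ₂ := Λ₂) (x + y) = inL x + inL y := by
          funext i; rcases i with ⟨γ, l | l⟩ <;> simp [inL]
        rw [this]; exact C.add_mem hx hy
      | neg x _ hx =>
        have : inL (Λ₂ := Λ₂) (-x) = -inL x := by
          funext i; rcases i with ⟨γ, l | l⟩ <;> simp [inL]
        rw [this]; exact C.neg_mem hx
    have h4 : ∀ s ∈ AddSubgroup.closure A₂, inR s ∈ C := by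
      intro s hs
      induction hs using AddSubgroup.closure_induction with
      | mem x hx => exact AddSubgroup.subset_closure (Or.inr ⟨x, hx, rfl⟩)
      | zero =>
        have : inR (Λ₁ := Λ₁) (0 : IS Ω Λ₂ J₀ → A) = 0 := by
          funext i; rcases i with ⟨γ, l | l⟩ <;> rfl
        rw [this]; exact C.zero_mem
      | add x y _ _ hx hy =>
        have : inR (Λ₁ := Λ₁) (x + y) = inR x + inR y := by
          funext i; rcases i with ⟨γ, l | l⟩ <;> simp [inR]
        rw [this]; exact C.add_mem hx hy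
      | neg x _ hx =>
        have : inR (Λ₁ := Λ₁) (-x) = -inR x := by
          funext i; rcases i with ⟨γ, l | l⟩ <;> simp [inR]
        rw [this]; exact C.neg_mem hx
    have h5 : r = inL (fun i : IS Ω Λ₁ J₀ => r (i.1, Sum.inl i.2)) +
        inR (fun i : IS Ω Λ₂ J₀ => r (i.1, Sum.inr i.2)) := by
      funext i; rcases i with ⟨γ, l | l⟩ <;> simp [inL, inR]
    rw [h5]
    exact C.add_mem (h3 _ h1) (h4 _ h2)
  · rw [AddSubgroup.closure_le]
    rintro _ (⟨s, hs, rfl⟩ | ⟨s, hs, rfl⟩)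
    · exact ⟨AddSubgroup.subset_closure hs, AddSubgroup.zero_mem _⟩
    · exact ⟨AddSubgroup.zero_mem _, AddSubgroup.subset_closure hs⟩

end Sum

end Pool.Agent.Helper175_Enc
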