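import Pool.Agent.Helper175_Enc.Poly

/-!
The closure by invariant codes equals membership in the span of the group.
-/

set_option autoImplicit false

namespace Pool.Agent.Helper175_Enc

open Equiv

/-- Translations of `ZMod N` as permutations. -/
def tauZ (N : ℕ) : Multiplicative (ZMod N) →* Perm (ZMod N) where
  toFun a := Equiv.addLeft (Multiplicative.toAdd a)
  map_one' := by ext x; simp
  map_mul' a b := by ext x; simp

lemma tauZ_inj (N : ℕ) : Function.Injective (tauZ N) := by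
  intro a b h
  have := congrArg (fun f : Perm (ZMod N) => f 0) h
  simpa [tauZ] using this

/-- Invariance of every code (general form of the closure used in the results). -/
def cc (N k : ℕ) {n : ℕ} (G : Subgroup (Perm (Fin n))) : Set (Perm (Fin n)) :=
  {b | ∀ (m : ℕ) (R : AddSubgroup ((Fin k → Fin n) × Fin m → ZMod N)),
    (∀ g ∈ G, ∀ r ∈ R, (fun i : (Fin k → Fin n) × Fin m => r (⇑g ∘ i.1, i.2)) ∈ R) →
      ∀ r ∈ R, (fun i : (Fin k → Fin n) × Fin m => r (⇑b ∘ i.1, i.2)) ∈ R}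

theorem mem_cc_iff (N k : ℕ) {n : ℕ} (G : Subgroup (Perm (Fin n))) (b : Perm (Fin n)) :
    b ∈ cc N k G ↔ tm N b ∈ span N (Fin k) G := by
  constructor
  · intro h
    let e : (Fin k → Fin n) ≃ Fin (Fintype.card (Fin k → Fin n)) := Fintype.equivFin _
    let φ : ((Fin k → Fin n) × Fin (Fintype.card (Fin k → Fin n)) → ZMod N) →+
        (IS (Fin n) (Fin k → Fin n) (Fin k) → ZMod N) :=
      { toFun := fun r i => r (i.1, e i.2)
        map_zero' := rfl
        map_add' := fun _ _ => rfl }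
    have h1 := h _ ((span N (Fin k) G).comap φ) (by
      intro g hg r hr
      have h2 : tm N g ∈ span N (Fin k) G := AddSubgroup.subset_closure ⟨g, hg, rfl⟩
      exact pull_span N h2 hr) (fun i => tm N (1 : Perm (Fin n)) (i.1, e.symm i.2)) (by
        rw [AddSubgroup.mem_comap]
        have h3 : φ (fun i => tm N (1 : Perm (Fin n)) (i.1, e.symm i.2)) = tm N 1 := by
          funext i
          change tm N (1 : Perm (Fin n)) (i.1, e.symm (e i.2)) = _
          rw [Equiv.symm_apply_apply]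
        rw [h3]
        exact AddSubgroup.subset_closure ⟨1, G.one_mem, rfl⟩)
    rw [AddSubgroup.mem_comap] at h1
    have h3 : φ (fun i : (Fin k → Fin n) × Fin (Fintype.card (Fin k → Fin n)) =>
        tm N (1 : Perm (Fin n)) (⇑b ∘ i.1, e.symm i.2)) = tm N b := by
      funext i
      change tm N (1 : Perm (Fin n)) (⇑b ∘ i.1, e.symm (e i.2)) = _
      rw [Equiv.symm_apply_apply]
      rfl
    rw [← h3]
    exact h1
  · intro h m R hR
    exact pres_of_span N h hR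

theorem cc_stab (N k : ℕ) [NeZero N] {n : ℕ} (G : Subgroup (Perm (Fin n))) (b : Perm (Fin n)) :
    b ∈ StabOf (span N (Fin k) G : Set (IS (Fin n) (Fin k → Fin n) (Fin k) → ZMod N)) ↔
      b ∈ cc N k G := by
  rw [stab_span, mem_cc_iff]

/-- The closure is a subgroup. -/
def ccSub (N k : ℕ) {n : ℕ} (G : Subgroup (Perm (Fin n))) : Subgroup (Perm (Fin n)) where
  carrier := {b | ∀ (m : ℕ) (R : AddSubgroup ((Fin k → Fin n) × Fin m → ZMod N)),
    (∀ g ∈ G, ∀ r ∈ R, (fun i : (Fin k → Fin n) × Fin m => r (⇑g ∘ i.1, i.2)) ∈ R) →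
      ∀ r, r ∈ R ↔ (fun i : (Fin k → Fin n) × Fin m => r (⇑b ∘ i.1, i.2)) ∈ R}
  one_mem' := fun m R _ r => Iff.rfl
  mul_mem' := by
    intro a b ha hb m R hR r
    rw [ha m R hR r, hb m R hR]
    exact Iff.rfl
  inv_mem' := by
    intro a ha m R hR r
    have h1 := ha m R hR (fun i : (Fin k → Fin n) × Fin m => r (⇑(a⁻¹) ∘ i.1, i.2))
    rw [h1]
    have h2 : (fun i : (Fin k → Fin n) × Fin m => r (⇑(a⁻¹) ∘ (⇑a ∘ i.1), i.2)) = r := by
      funext i
      rw [inv_comp]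
    change r ∈ R ↔ (fun i : (Fin k → Fin n) × Fin m => r (⇑(a⁻¹) ∘ (⇑a ∘ i.1), i.2)) ∈ R
    rw [h2]

theorem ccSub_coe (N k : ℕ) [NeZero N] {n : ℕ} (G : Subgroup (Perm (Fin n))) :
    (ccSub N k G : Set (Perm (Fin n))) = cc N k G := by
  ext b
  constructor
  · intro h m R hR r hr
    exact (h m R hR r).mp hr
  · intro h m R hR
    exact stab_of_pull (R := (R : Set (IS (Fin n) (Fin m) (Fin k) → ZMod N))) (h m R hR)

lemma pull_inL {Ω Λ₁ Λ₂ J₀ A : Type} [Zero A] (b : Perm Ω) (r : IS Ω Λ₁ J₀ → A) :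
    pull b (inL (Λ₂ := Λ₂) r) = inL (pull b r) := by
  funext i
  rcases i with ⟨γ, l | l⟩ <;> rfl

lemma pull_inR {Ω Λ₁ Λ₂ J₀ A : Type} [Zero A] (b : Perm Ω) (r : IS Ω Λ₂ J₀ → A) :
    pull b (inR (Λ₁ := Λ₁) r) = inR (pull b r) := by
  funext i
  rcases i with ⟨γ, l | l⟩ <;> rfl

/-- Conjugates of an encoded element under a group of permutations. -/
lemma conj_set {Ω Λ J₀ A X : Type} (α : Perm Ω →* Perm X) (iR : (IS Ω Λ J₀ → A) → Perm X)
    (hα : ∀ b r, α b * iR r * (α b)⁻¹ = iR (pull b⁻¹ r)) (G : Subgroup (Perm Ω))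
    (r₀ : IS Ω Λ J₀ → A) :
    {x | ∃ g ∈ G, x = α g * iR r₀ * (α g)⁻¹} = iR '' ((fun g => pull g r₀) '' (G : Set (Perm Ω))) := by
  ext x
  constructor
  · rintro ⟨g, hg, rfl⟩
    exact ⟨_, ⟨g⁻¹, G.inv_mem hg, rfl⟩, (hα g r₀).symm⟩
  · rintro ⟨_, ⟨g, hg, rfl⟩, rfl⟩
    refine ⟨g⁻¹, G.inv_mem hg, ?_⟩
    rw [hα, inv_inv]

end Pool.Agent.Helper175_Enc
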