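import Pool.Agent.Helper175_Enc.NormCode

/-!
Membership in the span of the permutation matrices is detected by polynomials of small degree.
-/

set_option autoImplicit false

namespace Pool.Agent.Helper175_Enc

open Equiv

section Dual

/-- Elements of finite abelian groups are detected by homomorphisms to cyclic groups of prime
power order. -/
lemma exists_pp_hom {B : Type} [AddCommGroup B] [Finite B] {b : B} (hb : b ≠ 0) :
    ∃ q : ℕ, IsPrimePow q ∧ (∃ x : B, addOrderOf x = q) ∧ ∃ φ : B →+ ZMod q, φ b ≠ 0 := by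
  classical
  obtain ⟨ι, hι, p, hp, e, ⟨f⟩⟩ := AddCommGroup.equiv_directSum_zmod_of_finite B
  let g : B ≃+ (∀ i, ZMod (p i ^ e i)) := f.trans (DirectSum.addEquivProd _)
  have h1 : ∃ i, g b i ≠ 0 := by
    by_contra hcon
    push Not at hcon
    apply hb
    apply g.injective
    rw [map_zero]
    exact funext hcon
  obtain ⟨i, hi⟩ := h1
  refine ⟨p i ^ e i, ?_, ⟨g.symm (Pi.single i 1), ?_⟩,
    (Pi.evalAddMonoidHom (fun i => ZMod (p i ^ e i)) i).comp g.toAddMonoidHom, hi⟩
  · rw [isPrimePow_nat_iff]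
    refine ⟨p i, e i, hp i, ?_, rfl⟩
    rcases Nat.eq_zero_or_pos (e i) with h | h
    · exfalso
      apply hi
      have h2 : Subsingleton (ZMod (p i ^ e i)) := by
        rw [h, pow_zero]
        exact inferInstanceAs (Subsingleton (Fin 1))
      exact Subsingleton.elim _ _
    · exact h
  · rw [AddEquiv.addOrderOf_eq]
    exact (addOrderOf_injective (AddMonoidHom.single (fun i => ZMod (p i ^ e i)) i)
      (fun a b h => Pi.single_injective (M := fun i => ZMod (p i ^ e i)) i h) 1).trans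
        (ZMod.addOrderOf_one _)

/-- Cyclic groups embed. -/
lemma zmod_emb {d q : ℕ} [NeZero q] (h : d ∣ q) :
    ∃ f : ZMod d →+ ZMod q, Function.Injective f := by
  obtain ⟨c, rfl⟩ := h
  have hdc : d * c ≠ 0 := NeZero.ne _
  have hd : d ≠ 0 := left_ne_zero_of_mul hdc
  have hc : c ≠ 0 := right_ne_zero_of_mul hdc
  refine ⟨ZMod.lift d ⟨zmultiplesHom (ZMod (d * c)) (c : ZMod (d * c)), ?_⟩, ?_⟩
  · rw [zmultiplesHom_apply, natCast_zsmul, nsmul_eq_mul, ← Nat.cast_mul, ZMod.natCast_self]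
  · rw [ZMod.lift_injective]
    intro m hm
    simp only [zmultiplesHom_apply] at hm
    rw [zsmul_eq_mul, ← Int.cast_natCast, ← Int.cast_mul, ZMod.intCast_zmod_eq_zero_iff_dvd] at hm
    rw [ZMod.intCast_zmod_eq_zero_iff_dvd]
    push_cast at hm
    exact (mul_dvd_mul_iff_right (by exact_mod_cast hc)).mp hm

/-- Additive groups of functions with values in `ZMod q` are cut out by linear equations. -/
lemma zmod_sep {ι : Type} [Fintype ι] (q : ℕ) [NeZero q] (R : AddSubgroup (ι → ZMod q))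
    {y : ι → ZMod q} (hy : y ∉ R) :
    ∃ w : ι → ZMod q, (∀ r ∈ R, ∑ i, w i * r i = 0) ∧ ∑ i, w i * y i ≠ 0 := by
  classical
  have hfin : Finite ((ι → ZMod q) ⧸ R) := inferInstance
  have h1 : (QuotientAddGroup.mk y : (ι → ZMod q) ⧸ R) ≠ 0 := by
    rw [Ne, QuotientAddGroup.eq_zero_iff]
    exact hy
  obtain ⟨d, -, ⟨x, hx⟩, φ, hφ⟩ := exists_pp_hom h1
  have hdq : d ∣ q := by
    rw [← hx, addOrderOf_dvd_iff_nsmul_eq_zero]
    obtain ⟨z, rfl⟩ := QuotientAddGroup.mk_surjective x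
    rw [← QuotientAddGroup.mk_nsmul]
    have h2 : q • z = 0 := by
      funext i
      rw [Pi.smul_apply, nsmul_eq_mul, ZMod.natCast_self, zero_mul, Pi.zero_apply]
    rw [h2, QuotientAddGroup.mk_zero]
  obtain ⟨f, hf⟩ := zmod_emb hdq
  let Λ : (ι → ZMod q) →+ ZMod q := f.comp (φ.comp (QuotientAddGroup.mk' R))
  have hΛ : ∀ r, Λ r = ∑ i, Λ (Pi.single i 1) * r i := by
    intro r
    have h2 : r = ∑ i, (r i).val • (Pi.single i 1 : ι → ZMod q) := by
      funext j
      rw [Finset.sum_apply, Finset.sum_eq_single j]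
      · rw [Pi.smul_apply, Pi.single_eq_same, nsmul_eq_mul, mul_one, ZMod.natCast_val,
          ZMod.cast_id]
      · intro i _ hij
        rw [Pi.smul_apply, Pi.single_eq_of_ne (Ne.symm hij), smul_zero]
      · intro h
        exact absurd (Finset.mem_univ j) h
    conv_lhs => rw [h2]
    rw [map_sum]
    refine Finset.sum_congr rfl (fun i _ => ?_)
    rw [map_nsmul, nsmul_eq_mul, ZMod.natCast_val, ZMod.cast_id, mul_comm]
  refine ⟨fun i => Λ (Pi.single i 1), fun r hr => ?_, ?_⟩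
  · rw [← hΛ]
    change f (φ (QuotientAddGroup.mk r)) = 0
    rw [(QuotientAddGroup.eq_zero_iff r).mpr hr, map_zero, map_zero]
  · rw [← hΛ]
    change f (φ (QuotientAddGroup.mk y)) ≠ 0
    rw [← map_zero f]
    exact fun h => hφ (hf h)

end Dual

section PolyCl

variable {Ω : Type} [Fintype Ω]

/-- Values of a polynomial of degree at most `k` in the entries of the permutation matrix. -/
lemma sum_tm (q k : ℕ) (c : (Fin k → Ω) → (Fin k → Ω) → ZMod q) (b : Perm Ω) [DecidableEq Ω] :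
    ∑ i : (Fin k → Ω) × (Fin k → Ω), c i.1 i.2 * tm q b i =
      ∑ γ : Fin k → Ω, c γ (⇑b ∘ γ) := by
  rw [Fintype.sum_prod_type]
  refine Finset.sum_congr rfl (fun γ _ => ?_)
  simp [tm]

theorem mem_poly_iff [DecidableEq Ω] (q k : ℕ) [NeZero q] (G : Subgroup (Perm Ω)) (b : Perm Ω) :
    (∀ c : (Fin k → Ω) → (Fin k → Ω) → ZMod q,
      (∀ g ∈ G, ∑ γ : Fin k → Ω, c γ (⇑g ∘ γ) = 0) → ∑ γ : Fin k → Ω, c γ (⇑b ∘ γ) = 0) ↔
    tm q b ∈ span q (Fin k) G := by
  constructor
  · intro h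
    by_contra hcon
    obtain ⟨w, hw, hwb⟩ := zmod_sep q (span q (Fin k) G) hcon
    apply hwb
    have h1 := h (fun γ δ => w (γ, δ)) (fun g hg => by
      exact (sum_tm q k (fun γ δ => w (γ, δ)) g).symm.trans
        (hw _ (AddSubgroup.subset_closure ⟨g, hg, rfl⟩)))
    exact (sum_tm q k (fun γ δ => w (γ, δ)) b).trans h1
  · intro h c hc
    rw [← sum_tm]
    have h1 : ∀ F ∈ span q (Fin k) G,
        ∑ i : (Fin k → Ω) × (Fin k → Ω), c i.1 i.2 * F i = 0 := by
      intro F hF
      induction hF using AddSubgroup.closure_induction with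
      | mem x hx =>
        obtain ⟨g, hg, rfl⟩ := hx
        rw [sum_tm]
        exact hc g hg
      | zero => simp
      | add x y _ _ hx hy =>
        simp only [Pi.add_apply, mul_add, Finset.sum_add_distrib, hx, hy, add_zero]
      | neg x _ hx =>
        simp only [Pi.neg_apply, mul_neg, Finset.sum_neg_distrib, hx, neg_zero]
    exact h1 _ h

theorem mem_ccN_iff [DecidableEq Ω] (N k : ℕ) (G : Subgroup (Perm Ω)) (b : Perm Ω) :
    (∀ q, 1 ≤ q → q ≤ N → ∀ c : (Fin k → Ω) → (Fin k → Ω) → ZMod q,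
      (∀ g ∈ G, ∑ γ : Fin k → Ω, c γ (⇑g ∘ γ) = 0) → ∑ γ : Fin k → Ω, c γ (⇑b ∘ γ) = 0) ↔
    b ∈ ccN N k G := by
  constructor
  · intro h q hq1 hq2
    have : NeZero q := ⟨by omega⟩
    have h1 := (mem_poly_iff q k G b).mp (h q hq1 hq2)
    rw [← mem_ccq_iff] at h1
    exact h1
  · intro h q hq1 hq2
    have : NeZero q := ⟨by omega⟩
    rw [mem_poly_iff, ← mem_ccq_iff]
    exact h q hq1 hq2

end PolyCl

end Pool.Agent.Helper175_Enc
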