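import Pool.Agent.Helper175_Enc.Spec

/-!
Choice of the primes and size of the set on which the group acts.
-/

set_option autoImplicit false

namespace Pool.Agent.Helper175_Enc

open Equiv

lemma exists_primes_fin (M r : ℕ) (hM : 1 ≤ M) : ∃ p : Fin r → ℕ, (∀ i, (p i).Prime) ∧
    Function.Injective p ∧ ∀ i, M < p i ∧ p i ≤ 2 ^ r * M := by
  have h : ∀ i : Fin r, ∃ p, Nat.Prime p ∧ 2 ^ i.val * M < p ∧ p ≤ 2 * (2 ^ i.val * M) := fun i =>
    Nat.exists_prime_lt_and_le_two_mul _ (by positivity)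
  choose p hp1 hp2 hp3 using h
  have hlt : ∀ i j : Fin r, i < j → p i < p j := by
    intro i j hij
    have h1 : 2 * 2 ^ i.val ≤ 2 ^ j.val := by
      rw [← pow_succ']
      exact Nat.pow_le_pow_right (by norm_num) hij
    calc p i ≤ 2 * (2 ^ i.val * M) := hp3 i
      _ = (2 * 2 ^ i.val) * M := by ring
      _ ≤ 2 ^ j.val * M := Nat.mul_le_mul_right _ h1
      _ < p j := hp2 j
  refine ⟨p, hp1, ?_, fun i => ⟨?_, ?_⟩⟩
  · intro i j hij
    rcases lt_trichotomy i j with h | h | h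
    · exact absurd hij (hlt i j h).ne
    · exact h
    · exact absurd hij (hlt j i h).ne'
  · calc M = 1 * M := (one_mul M).symm
      _ ≤ 2 ^ i.val * M := Nat.mul_le_mul_right _ Nat.one_le_two_pow
      _ < p i := hp2 i
  · have h1 : 2 * 2 ^ i.val ≤ 2 ^ r := by
      rw [← pow_succ']
      exact Nat.pow_le_pow_right (by norm_num) i.isLt
    calc p i ≤ 2 * (2 ^ i.val * M) := hp3 i
      _ = (2 * 2 ^ i.val) * M := by ring
      _ ≤ 2 ^ r * M := Nat.mul_le_mul_right _ h1

lemma exists_primes (ι : Type) [Fintype ι] (M : ℕ) (hM : 1 ≤ M) : ∃ p : ι → ℕ,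
    (∀ i, (p i).Prime) ∧ Function.Injective p ∧
      ∀ i, M < p i ∧ p i ≤ 2 ^ (Fintype.card ι) * M := by
  obtain ⟨p, h1, h2, h3⟩ := exists_primes_fin M (Fintype.card ι) hM
  exact ⟨fun i => p (Fintype.equivFin ι i), fun i => h1 _,
    h2.comp (Fintype.equivFin ι).injective, fun i => h3 _⟩

lemma finite_X {Ω Λ J₀ Z : Type} [Fintype Ω] [Fintype Λ] [Fintype J₀] [Fintype Z]
    (p : Option (Option J₀) → ℕ) (hp : ∀ o, (p o).Prime) :
    Finite (X (IS Ω Λ J₀) (Option J₀) (WS Ω Λ) Z p) := by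
  classical
  have hne : ∀ o, NeZero (p o) := fun o => ⟨(hp o).ne_zero⟩
  have : ∀ o, Fintype (ZMod (p o)) := fun o => ZMod.fintype (p o)
  infer_instance

lemma card_U_le {J₀ : Type} [Fintype J₀] (p : Option (Option J₀) → ℕ)
    {B : ℕ} (hB : ∀ o, p o ≤ B) :
    Nat.card (U (Option J₀) p) ≤ B ^ (Fintype.card J₀ + 1) := by
  rw [Nat.card_pi]
  calc ∏ j : Option J₀, Nat.card (ZMod (p (some j))) ≤ ∏ _j : Option J₀, B := by
        apply Finset.prod_le_prod'
        intro j _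
        rw [Nat.card_zmod]
        exact hB _
    _ = B ^ (Fintype.card J₀ + 1) := by
        rw [Finset.prod_const, Finset.card_univ, Fintype.card_option]

lemma card_WS_le (Ω Λ : Type) [Fintype Ω] [Fintype Λ] :
    Nat.card (WS Ω Λ) ≤ Fintype.card Ω + Fintype.card Λ * (Fintype.card Λ + 1) := by
  rw [Nat.card_sum, Nat.card_sigma, Nat.card_eq_fintype_card]
  refine Nat.add_le_add_left ?_ _
  calc ∑ l : Λ, Nat.card (Fin (idx Λ l + 2)) ≤ ∑ _l : Λ, (Fintype.card Λ + 1) := by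
        apply Finset.sum_le_sum
        intro l _
        rw [Nat.card_fin]
        have : idx Λ l < Fintype.card Λ := (Fintype.equivFin Λ l).isLt
        omega
    _ = Fintype.card Λ * (Fintype.card Λ + 1) := by
        rw [Finset.sum_const, Finset.card_univ, smul_eq_mul]

lemma card_X_le {Ω Λ J₀ Z : Type} [Fintype Ω] [Fintype Λ] [Fintype J₀] [Fintype Z]
    (p : Option (Option J₀) → ℕ) (hp : ∀ o, (p o).Prime) {B : ℕ} (hB : ∀ o, p o ≤ B) :
    Nat.card (X (IS Ω Λ J₀) (Option J₀) (WS Ω Λ) Z p) ≤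
      (Fintype.card Ω ^ Fintype.card J₀ * Fintype.card Λ) *
        (Fintype.card Z * (B ^ (Fintype.card J₀ + 1) * B)) +
      (Fintype.card Ω + Fintype.card Λ * (Fintype.card Λ + 1)) * B ^ (Fintype.card J₀ + 1) := by
  classical
  have hne : ∀ o, NeZero (p o) := fun o => ⟨(hp o).ne_zero⟩
  have : ∀ o, Fintype (ZMod (p o)) := fun o => ZMod.fintype (p o)
  have hU := card_U_le p hB
  have hW := card_WS_le Ω Λ
  have h1 : Nat.card (J₀ → Ω) = Fintype.card Ω ^ Fintype.card J₀ := by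
    rw [Nat.card_eq_fintype_card, Fintype.card_fun]
  rw [Nat.card_sum, Nat.card_prod, Nat.card_prod, Nat.card_prod, Nat.card_prod, Nat.card_prod, h1,
    Nat.card_eq_fintype_card (α := Z), Nat.card_eq_fintype_card (α := Λ), Nat.card_zmod]
  gcongr
  exact hB none

end Pool.Agent.Helper175_Enc
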