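import Pool.Agent.Helper175_Enc.Clos
import Pool.Agent.Helper175_Enc.Size

/-!
The encoding theorem with all data packed together.
-/

set_option autoImplicit false

namespace Pool.Agent.Helper175_Enc

open Equiv

/-- Respecting a group of functions up to an injective endomorphism. -/
def Resp {Ω Λ J₀ Z : Type} (S : Subgroup (IS Ω Λ J₀ → Perm Z)) (b : Perm Ω) : Prop :=
  ∃ θ : S →* S, Function.Injective θ ∧ ∀ (s : S) (γ : J₀ → Ω) (l : Λ),
    ((s : IS Ω Λ J₀ → Perm Z) (γ, l) = 1 ↔ (θ s : IS Ω Λ J₀ → Perm Z) (b ∘ γ, l) = 1)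

/-- Size bound of the encoding. -/
def bound (n l r z : ℕ) : ℕ :=
  (n ^ r * l) * (z * ((2 ^ (r + 2) * z) ^ (r + 1) * (2 ^ (r + 2) * z))) +
    (n + l * (l + 1)) * (2 ^ (r + 2) * z) ^ (r + 1)

theorem engine (Ω Λ₀ Λ₁ J₀ Z : Type) [Fintype Ω] [Fintype Λ₀] [Fintype Λ₁] [Fintype J₀]
    [Fintype Z] [Nonempty Ω] [Nonempty Z] (N : ℕ) [NeZero N]
    (τ : Multiplicative (ZMod N) →* Perm Z) (hτ : Function.Injective τ) :
    ∃ (X : Type) (_ : Fintype X),
      Fintype.card X ≤ bound (Fintype.card Ω) (2 * Fintype.card Λ₀ + 1 + Fintype.card Λ₁)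
        (Fintype.card J₀) (Fintype.card Z) ∧
      ∃ (O : Ω → Set X) (α : Perm Ω →* Perm X) (E : Finset (Perm X))
        (iR : (IS Ω Λ₀ J₀ → ZMod N) → Perm X) (iS : (IS Ω Λ₁ J₀ → Perm Z) → Perm X),
        E.card ≤ (Fintype.card J₀ + 1) *
          (Fintype.card Ω + (2 * Fintype.card Λ₀ + 1 + Fintype.card Λ₁)) + 2 ∧
        (∀ x, (O x).Nonempty) ∧ (∀ x y, x ≠ y → Disjoint (O x) (O y)) ∧
        (∀ b x, α b '' O x = O (b x)) ∧
        (∀ b r, α b * iR r * (α b)⁻¹ = iR (pull b⁻¹ r)) ∧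
        (∀ b s, α b * iS s * (α b)⁻¹ = iS (pull b⁻¹ s)) ∧
        ∀ (R₀ : Set (IS Ω Λ₀ J₀ → ZMod N)) (S₀ : Set (IS Ω Λ₁ J₀ → Perm Z))
          (K : Subgroup (Perm X)),
          K = Subgroup.closure (↑E ∪ iR '' R₀ ∪ iS '' S₀) →
          (∀ π ∈ Subgroup.normalizer (K : Set (Perm X)), ∃ b : Perm Ω,
            b ∈ StabOf (AddSubgroup.closure R₀ : Set (IS Ω Λ₀ J₀ → ZMod N)) ∧
            Resp (Subgroup.closure S₀) b ∧ ∀ x, π '' O x = O (b x)) ∧
          (∀ b : Perm Ω, b ∈ StabOf (AddSubgroup.closure R₀ : Set (IS Ω Λ₀ J₀ → ZMod N)) →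
            b ∈ StabOf (Subgroup.closure S₀ : Set (IS Ω Λ₁ J₀ → Perm Z)) →
            α b ∈ Subgroup.normalizer (K : Set (Perm X))) ∧
          ((∀ s ∈ S₀, ∀ s' ∈ S₀, s * s' = s' * s) → ∀ x ∈ K, ∀ y ∈ K, x * y = y * x) := by
  classical
  obtain ⟨p, hp, hinj, hlt⟩ := exists_primes (Option (Option J₀)) (Fintype.card Z)
    Fintype.card_pos
  have hbig : ∀ o, Fintype.card Z < p o := fun o => (hlt o).1
  have hcardO : Fintype.card (Option (Option J₀)) = Fintype.card J₀ + 2 := by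
    rw [Fintype.card_option, Fintype.card_option]
  have hB : ∀ o, p o ≤ 2 ^ (Fintype.card J₀ + 2) * Fintype.card Z := by
    intro o; rw [← hcardO]; exact (hlt o).2
  have hfin : Finite (X (IS Ω (LL Λ₀ Λ₁) J₀) (Option J₀) (WS Ω (LL Λ₀ Λ₁)) Z p) :=
    finite_X p hp
  have hΛ : Fintype.card (LL Λ₀ Λ₁) = 2 * Fintype.card Λ₀ + 1 + Fintype.card Λ₁ := by
    rw [Fintype.card_sum, Fintype.card_sum, Fintype.card_sum, Fintype.card_unit]; ring
  let om : Perm (X (IS Ω (LL Λ₀ Λ₁) J₀) (Option J₀) (WS Ω (LL Λ₀ Λ₁)) Z p) :=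
    act p posS rhoS (comb τ 0 1 1) 0 0
  let E : Finset (Perm (X (IS Ω (LL Λ₀ Λ₁) J₀) (Option J₀) (WS Ω (LL Λ₀ Λ₁)) Z p)) :=
    insert om (Finset.univ.image (gen (Z := Z) p posS rhoS))
  have hKeq : ∀ (R₀ : Set (IS Ω Λ₀ J₀ → ZMod N)) (S₀ : Set (IS Ω Λ₁ J₀ → Perm Z)),
      Subgroup.closure (↑E ∪ (fun r => act p posS rhoS (comb τ r 0 1) 0 0) '' R₀ ∪
        (fun s => act p posS rhoS (comb τ 0 0 s) 0 0) '' S₀) =
      K p posS rhoS (CT τ (AddSubgroup.closure R₀) (Subgroup.closure S₀)) := by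
    intro R₀ S₀
    rw [CT_closure, K_closure p posS rhoS hp]
    congr 1
    rw [Set.image_union, Set.image_union, Set.image_singleton, Set.image_image, Set.image_image]
    simp only [E, Finset.coe_insert, Finset.coe_image, Finset.coe_univ, Set.image_univ]
    rw [← Set.union_assoc, ← Set.union_assoc]
    congr 2
    rw [Set.union_singleton]
  refine ⟨X (IS Ω (LL Λ₀ Λ₁) J₀) (Option J₀) (WS Ω (LL Λ₀ Λ₁)) Z p, Fintype.ofFinite _, ?_,
    OS p, alpha p, E, fun r => act p posS rhoS (comb τ r 0 1) 0 0,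
    fun s => act p posS rhoS (comb τ 0 0 s) 0 0, ?_, ?_, ?_, alpha_OS p, ?_, ?_, ?_⟩
  · rw [← @Nat.card_eq_fintype_card _ (Fintype.ofFinite _)]
    have h1 := card_X_le (Ω := Ω) (Λ := LL Λ₀ Λ₁) (J₀ := J₀) (Z := Z) p hp hB
    rw [hΛ] at h1
    exact h1
  · refine (Finset.card_insert_le _ _).trans ?_
    refine (Nat.add_le_add_right Finset.card_image_le _).trans ?_
    rw [Finset.card_univ, Fintype.card_option, Fintype.card_prod, Fintype.card_option,
      Fintype.card_sum, hΛ]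
  · intro x
    exact ⟨Sum.inr (Sum.inl x, 0), ⟨0, rfl⟩⟩
  · intro x y hxy
    rw [Set.disjoint_left]
    rintro _ ⟨u, rfl⟩ ⟨u', h⟩
    have h1 := Sum.inr_injective h
    exact hxy (Sum.inl_injective (congrArg Prod.fst h1))
  · intro b r
    rw [alpha_act, pull_comb]
    rfl
  · intro b s
    rw [alpha_act, pull_comb]
    rfl
  · intro R₀ S₀ K' hK'
    have hK : K' = K p posS rhoS (CT τ (AddSubgroup.closure R₀) (Subgroup.closure S₀)) := by
      rw [hK', ← hKeq]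
    subst hK
    refine ⟨?_, ?_, ?_⟩
    · intro π hπ
      obtain ⟨b, hb, θ, hθ, hθ'⟩ := spec_nec p hp hinj hbig hπ
      obtain ⟨h1, θ', h2, h3⟩ := theta_lin τ hτ _ _ hθ hθ'
      exact ⟨b, h1, ⟨θ', h2, h3⟩, hb⟩
    · intro b hb1 hb2
      exact alpha_mem p (CT_pull τ _ _ hb1 hb2)
    · intro hcomm
      have hS : ∀ s ∈ Subgroup.closure S₀, ∀ s' ∈ Subgroup.closure S₀, s * s' = s' * s := by
        intro s hs s' hs'
        exact Subgroup.closure_induction₂ (p := fun x y _ _ => Commute x y)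
          (fun x y hx hy => hcomm x hx y hy)
          (fun x _ => Commute.one_left x)
          (fun x _ => Commute.one_right x)
          (fun x y z _ _ _ h1 h2 => Commute.mul_left h1 h2)
          (fun x y z _ _ _ h1 h2 => Commute.mul_right h1 h2)
          (fun x y _ _ h => Commute.inv_left h)
          (fun x y _ _ h => Commute.inv_right h)
          hs hs'
      rintro _ ⟨t, ⟨r, hr, m, s, hs, rfl⟩, e, a, rfl⟩ _ ⟨t', ⟨r', hr', m', s', hs', rfl⟩, e', a', rfl⟩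
      rw [act_mul, act_mul, comb_mul, comb_mul, add_comm r r', add_comm m m', add_comm e e',
        add_comm a a', hS s hs s' hs']

end Pool.Agent.Helper175_Enc
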