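import Pool.Agent.Helper175_Enc.Engine

/-!
Polynomial bounds.
-/

set_option autoImplicit false

namespace Pool.Agent.Helper175_Enc

lemma poly_mono {a b s : ℕ} (hs : 1 ≤ s) (h : a ≤ b) : a * s ^ a ≤ b * s ^ b :=
  Nat.mul_le_mul h (Nat.pow_le_pow_right hs h)

lemma poly_le {x c e b s : ℕ} (hs : 1 ≤ s) (hx : x ≤ c * s ^ e) (hc : c ≤ b) (he : e ≤ b) :
    x ≤ b * s ^ b :=
  hx.trans (Nat.mul_le_mul hc (Nat.pow_le_pow_right hs he))

theorem bound_poly (r c d : ℕ) : ∃ C : ℕ, ∀ n l z s : ℕ, 1 ≤ s → n ≤ s → l ≤ c * s ^ d →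
    z ≤ c * s ^ d → bound n l r z ≤ C * s ^ C ∧ (r + 1) * (n + l) + 2 ≤ C * s ^ C := by
  set A : ℕ := 2 ^ (r + 2) with hA
  set c1 : ℕ := c * c * (A * c) ^ (r + 2) with hc1
  set c2 : ℕ := (1 + c * (c + 1)) * (A * c) ^ (r + 1) with hc2
  set c3 : ℕ := (r + 1) * (1 + c) + 2 with hc3
  set e1 : ℕ := r + 2 * d + d * (r + 2) with he1
  set e2 : ℕ := 1 + 2 * d + d * (r + 1) with he2
  refine ⟨c1 + c2 + c3 + e1 + e2 + (1 + d), fun n l z s hs hn hl hz => ⟨?_, ?_⟩⟩
  · have h1 : (n ^ r * l) * (z * ((A * z) ^ (r + 1) * (A * z))) ≤ c1 * s ^ e1 := by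
      calc (n ^ r * l) * (z * ((A * z) ^ (r + 1) * (A * z)))
          ≤ (s ^ r * (c * s ^ d)) * ((c * s ^ d) *
              ((A * (c * s ^ d)) ^ (r + 1) * (A * (c * s ^ d)))) := by gcongr
        _ = c1 * s ^ e1 := by
            rw [hc1, he1]
            ring
    have h2 : (n + l * (l + 1)) * (A * z) ^ (r + 1) ≤ c2 * s ^ e2 := by
      have h3 : n + l * (l + 1) ≤ (1 + c * (c + 1)) * s ^ (1 + 2 * d) := by
        have h4 : n ≤ s ^ (1 + 2 * d) := hn.trans (Nat.le_self_pow (by omega) s)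
        have h5 : l * (l + 1) ≤ (c * (c + 1)) * s ^ (1 + 2 * d) := by
          calc l * (l + 1) ≤ (c * s ^ d) * (c * s ^ d + 1) := by gcongr
            _ ≤ (c * s ^ d) * (c * s ^ d + s ^ d) := by
                gcongr
                exact Nat.one_le_pow _ _ hs
            _ = (c * (c + 1)) * s ^ (2 * d) := by ring
            _ ≤ (c * (c + 1)) * s ^ (1 + 2 * d) := by
                gcongr
                omega
        calc n + l * (l + 1) ≤ s ^ (1 + 2 * d) + (c * (c + 1)) * s ^ (1 + 2 * d) :=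
              Nat.add_le_add h4 h5
          _ = (1 + c * (c + 1)) * s ^ (1 + 2 * d) := by ring
      calc (n + l * (l + 1)) * (A * z) ^ (r + 1)
          ≤ ((1 + c * (c + 1)) * s ^ (1 + 2 * d)) * (A * (c * s ^ d)) ^ (r + 1) := by gcongr
        _ = c2 * s ^ e2 := by
            rw [hc2, he2]
            ring
    have h6 : bound n l r z ≤ (c1 + c2) * s ^ (e1 + e2) := by
      have h7 : s ^ e1 ≤ s ^ (e1 + e2) := Nat.pow_le_pow_right hs (by omega)
      have h8 : s ^ e2 ≤ s ^ (e1 + e2) := Nat.pow_le_pow_right hs (by omega)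
      calc bound n l r z ≤ c1 * s ^ e1 + c2 * s ^ e2 := Nat.add_le_add h1 h2
        _ ≤ c1 * s ^ (e1 + e2) + c2 * s ^ (e1 + e2) := by gcongr
        _ = (c1 + c2) * s ^ (e1 + e2) := by ring
    exact poly_le hs h6 (by omega) (by omega)
  · have h1 : (r + 1) * (n + l) + 2 ≤ c3 * s ^ (1 + d) := by
      have h2 : n ≤ s ^ (1 + d) := hn.trans (Nat.le_self_pow (by omega) s)
      have h3 : l ≤ c * s ^ (1 + d) := hl.trans (by
        gcongr
        omega)
      have h4 : 1 ≤ s ^ (1 + d) := Nat.one_le_pow _ _ hs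
      calc (r + 1) * (n + l) + 2 ≤ (r + 1) * (s ^ (1 + d) + c * s ^ (1 + d)) + 2 * s ^ (1 + d) := by
            gcongr
            omega
        _ = c3 * s ^ (1 + d) := by rw [hc3]; ring
    exact poly_le hs h1 (by omega) (by omega)

end Pool.Agent.Helper175_Enc
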