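import Pool.Agent.Helper175_Enc.Engine2

/-!
The encoding theorem for groups of functions with values in a permutation group, with the
statement that the group fixes the blocks.
-/

set_option autoImplicit false

namespace Pool.Agent.Helper175_Enc

open Equiv

theorem engine3 (Ω Λ J₀ Z Sg : Type) [Fintype Ω] [Fintype Λ] [Fintype J₀]
    [Fintype Z] [Fintype Sg] [Nonempty Ω] [Nonempty Λ] [Nonempty Z] [Nonempty Sg]
    (ς : Sg → Perm Z) :
    ∃ (X : Type) (_ : Fintype X),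
      Fintype.card X ≤ bound (Fintype.card Ω) (Fintype.card Λ * Fintype.card Sg)
        (Fintype.card J₀) (Fintype.card Z) ∧
      ∃ (O : Ω → Set X) (α : Perm Ω →* Perm X) (E : Finset (Perm X))
        (iS : (IS Ω Λ J₀ → Perm Z) →* Perm X) (ξ : Perm (IS Ω Λ J₀) →* Perm X),
        E.card ≤ (Fintype.card J₀ + 1) *
          (Fintype.card Ω + Fintype.card Λ * Fintype.card Sg) + 2 ∧
        (∀ x, (O x).Nonempty) ∧ (∀ x y, x ≠ y → Disjoint (O x) (O y)) ∧
        (∀ b x, α b '' O x = O (b x)) ∧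
        (∀ b s, α b * iS s * (α b)⁻¹ = iS (pull b⁻¹ s)) ∧
        (∀ c s, ξ c * iS s * (ξ c)⁻¹ = iS (fun i => s (c⁻¹ i))) ∧
        ∀ (S₀ : Set (IS Ω Λ J₀ → Perm Z)) (K : Subgroup (Perm X)),
          (∀ s ∈ S₀, ∀ i, ∃ q, s i = ς q) →
          K = Subgroup.closure (↑E ∪ iS '' S₀) →
          (∀ π ∈ Subgroup.normalizer (K : Set (Perm X)), ∃ b : Perm Ω,
            b ∈ StabOf (Subgroup.closure S₀ : Set (IS Ω Λ J₀ → Perm Z)) ∧
              ∀ x, π '' O x = O (b x)) ∧
          (∀ b : Perm Ω, b ∈ StabOf (Subgroup.closure S₀ : Set (IS Ω Λ J₀ → Perm Z)) →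
            α b ∈ Subgroup.normalizer (K : Set (Perm X))) ∧
          ((∀ q q', ς q * ς q' = ς q' * ς q) → ∀ x ∈ K, ∀ y ∈ K, x * y = y * x) ∧
          (∀ κ ∈ K, ∀ x, κ '' O x = O x) := by
  classical
  obtain ⟨p, hp, hinj, hlt⟩ := exists_primes (Option (Option J₀)) (Fintype.card Z)
    Fintype.card_pos
  have hbig : ∀ o, Fintype.card Z < p o := fun o => (hlt o).1
  have hcardO : Fintype.card (Option (Option J₀)) = Fintype.card J₀ + 2 := by
    rw [Fintype.card_option, Fintype.card_option]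
  have hB : ∀ o, p o ≤ 2 ^ (Fintype.card J₀ + 2) * Fintype.card Z := by
    intro o; rw [← hcardO]; exact (hlt o).2
  have hfin : Finite (X (IS Ω (Λ × Sg) J₀) (Option J₀) (WS Ω (Λ × Sg)) Z p) :=
    finite_X p hp
  have hΛ : Fintype.card (Λ × Sg) = Fintype.card Λ * Fintype.card Sg := Fintype.card_prod _ _
  let om : Perm (X (IS Ω (Λ × Sg) J₀) (Option J₀) (WS Ω (Λ × Sg)) Z p) :=
    act p posS rhoS (Tf ς) 0 0
  let E : Finset (Perm (X (IS Ω (Λ × Sg) J₀) (Option J₀) (WS Ω (Λ × Sg)) Z p)) :=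
    insert om (Finset.univ.image (gen (Z := Z) p posS rhoS))
  have hKeq : ∀ (S₀ : Set (IS Ω Λ J₀ → Perm Z)),
      Subgroup.closure (↑E ∪ (fun s => act p posS rhoS (Df s) 0 0) '' S₀) =
      K p posS rhoS (Subgroup.closure (T0 ς S₀)) := by
    intro S₀
    rw [K_closure p posS rhoS hp, T0]
    congr 1
    rw [Set.image_union, Set.image_singleton, Set.image_image]
    simp only [E, Finset.coe_insert, Finset.coe_image, Finset.coe_univ, Set.image_univ]
    rw [← Set.union_assoc]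
    congr 1
    rw [Set.union_singleton]
  refine ⟨X (IS Ω (Λ × Sg) J₀) (Option J₀) (WS Ω (Λ × Sg)) Z p, Fintype.ofFinite _, ?_,
    OS p, alpha p, E, enc p, xi p, ?_, ?_, ?_, alpha_OS p, ?_,
    xi_act p, ?_⟩
  · rw [← @Nat.card_eq_fintype_card _ (Fintype.ofFinite _)]
    have h1 := card_X_le (Ω := Ω) (Λ := Λ × Sg) (J₀ := J₀) (Z := Z) p hp hB
    rw [hΛ] at h1
    exact h1
  · refine (Finset.card_insert_le _ _).trans ?_
    refine (Nat.add_le_add_right Finset.card_image_le _).trans ?_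
    rw [Finset.card_univ, Fintype.card_option, Fintype.card_prod, Fintype.card_option,
      Fintype.card_sum, hΛ]
  · intro x
    exact ⟨Sum.inr (Sum.inl x, 0), ⟨0, rfl⟩⟩
  · intro x y hxy
    rw [Set.disjoint_left]
    rintro _ ⟨u, rfl⟩ ⟨u', h⟩
    have h1 := Sum.inr_injective h
    exact hxy (Sum.inl_injective (congrArg Prod.fst h1))
  · intro b s
    exact alpha_act p b (Df s)
  · intro S₀ K' hval hK'
    have hK : K' = K p posS rhoS (Subgroup.closure (T0 ς S₀)) := by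
      rw [hK', ← hKeq]
      rfl
    subst hK
    refine ⟨?_, ?_, ?_, ?_⟩
    · intro π hπ
      obtain ⟨b, hb, θ, hθ, hθ'⟩ := spec_nec p hp hinj hbig hπ
      exact ⟨b, resp_T0 ς hval ⟨θ, hθ, hθ'⟩, hb⟩
    · intro b hb
      exact alpha_mem p (stab_T0 ς hb)
    · intro hcomm
      have hval2 : ∀ t ∈ T0 ς S₀, ∀ i, ∃ q, t i = ς q := by
        rintro t (h | ⟨s, hs, rfl⟩) i
        · rw [Set.mem_singleton_iff] at h
          subst h
          exact ⟨_, rfl⟩
        · exact hval s hs _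
      have hS := closure_comm (S := T0 ς S₀) (by
        intro t ht t' ht'
        funext i
        obtain ⟨q, hq⟩ := hval2 t ht i
        obtain ⟨q', hq'⟩ := hval2 t' ht' i
        rw [Pi.mul_apply, Pi.mul_apply, hq, hq', hcomm])
      rintro _ ⟨t, ht, e, a, rfl⟩ _ ⟨t', ht', e', a', rfl⟩
      rw [act_mul, act_mul, add_comm e e', add_comm a a', hS t ht t' ht']
    · have hsub : ∀ κ ∈ K p posS rhoS (Subgroup.closure (T0 ς S₀)), ∀ x,
          κ '' OS p x ⊆ OS p x := by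
        rintro _ ⟨t, ht, e, a, rfl⟩ x _ ⟨_, ⟨u, rfl⟩, rfl⟩
        exact ⟨_, rfl⟩
      intro κ hκ x
      apply Set.Subset.antisymm (hsub κ hκ x)
      intro y hy
      refine ⟨κ⁻¹ y, hsub κ⁻¹ (Subgroup.inv_mem _ hκ) x ⟨y, hy, rfl⟩, app_inv κ y⟩

end Pool.Agent.Helper175_Enc
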