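import Pool.Agent.Helper175_Enc.Dual

/-!
Examples of permutation groups that are determined by the polynomials of small degree, in the
entries of the permutation matrix, that vanish on them: groups determined by their orbits on
tuples, and the alternating group.
-/

set_option autoImplicit false

namespace Pool.Agent.Helper175_Enc

open Equiv

lemma le_ccN {n : ℕ} (N k : ℕ) (G : Subgroup (Perm (Fin n))) : G ≤ ccN N k G := by
  intro g hg
  rw [← mem_ccN_iff]
  exact fun q _ _ c hc => hc g hg

lemma local_of_mem {n : ℕ} {N k : ℕ} (hN : 2 ≤ N) {G : Subgroup (Perm (Fin n))}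
    {b : Perm (Fin n)} (hb : b ∈ ccN N k G) (γ : Fin k → Fin n) : ∃ g ∈ G, ⇑b ∘ γ = ⇑g ∘ γ := by
  classical
  by_contra hcon
  push Not at hcon
  rw [← mem_ccN_iff] at hb
  have h1 := hb 2 (by norm_num) hN
    (fun γ' δ => if γ' = γ ∧ δ = ⇑b ∘ γ then 1 else 0) (by
      intro g hg
      refine Finset.sum_eq_zero (fun γ' _ => ?_)
      rw [if_neg]
      rintro ⟨rfl, h⟩
      exact hcon g hg h.symm)
  rw [Finset.sum_eq_single γ] at h1
  · simp at h1
  · intro γ' _ h
    rw [if_neg]
    exact fun h' => h h'.1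
  · intro h
    exact absurd (Finset.mem_univ γ) h

/-- Groups that are determined by their orbits on `k`-tuples. -/
theorem ccN_of_orbits {n : ℕ} {N k : ℕ} (hN : 2 ≤ N) {G : Subgroup (Perm (Fin n))}
    (hG : ∀ b : Perm (Fin n), (∀ γ : Fin k → Fin n, ∃ g ∈ G, ⇑b ∘ γ = ⇑g ∘ γ) → b ∈ G) :
    ccN N k G = G :=
  le_antisymm (fun _ hb => hG _ (local_of_mem hN hb)) (le_ccN N k G)

/-- The parity as an element of `ZMod 2`. -/
def par : ℤˣ →* Multiplicative (ZMod 2) where
  toFun u := Multiplicative.ofAdd (if u = 1 then 0 else 1)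
  map_one' := rfl
  map_mul' := by decide

lemma par_eq_one (u : ℤˣ) : par u = 1 ↔ u = 1 := by
  revert u; decide

/-- The alternating group is cut out by one quadratic polynomial over `ZMod 2`. -/
theorem ccN_alternating (n N : ℕ) (hN : 2 ≤ N) :
    ccN N 2 (alternatingGroup (Fin n)) = alternatingGroup (Fin n) := by
  classical
  apply le_antisymm _ (le_ccN N 2 _)
  intro b hb
  rw [← mem_ccN_iff] at hb
  let c : (Fin 2 → Fin n) → (Fin 2 → Fin n) → ZMod 2 := fun γ δ =>
    if γ 0 < γ 1 ∧ ¬ δ 0 < δ 1 then 1 else 0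
  have key : ∀ σ : Perm (Fin n), ∑ γ : Fin 2 → Fin n, c γ (⇑σ ∘ γ) =
      Multiplicative.toAdd (par (Perm.sign σ)) := by
    intro σ
    rw [Perm.sign_eq_prod_prod_Iio, map_prod, toAdd_prod]
    have h1 : ∑ γ : Fin 2 → Fin n, c γ (⇑σ ∘ γ) =
        ∑ x : Fin n × Fin n, (if x.1 < x.2 ∧ ¬ σ x.1 < σ x.2 then (1 : ZMod 2) else 0) :=
      Fintype.sum_equiv (finTwoArrowEquiv (Fin n)) _ _ (fun γ => rfl)
    rw [h1, Fintype.sum_prod_type_right]
    refine Finset.sum_congr rfl (fun j _ => ?_)
    rw [map_prod, toAdd_prod, ← Finset.sum_subset (Finset.subset_univ (Finset.Iio j))]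
    · refine Finset.sum_congr rfl (fun i hi => ?_)
      rw [Finset.mem_Iio] at hi
      by_cases h : σ i < σ j
      · simp [h, hi]
      · simp only [h, hi, not_false_eq_true, and_self, if_true, if_false]
        rfl
    · intro i _ hi
      rw [Finset.mem_Iio] at hi
      simp [hi]
  have h2 := hb 2 (by norm_num) hN c (by
    intro g hg
    rw [key, Perm.mem_alternatingGroup.mp hg]
    rfl)
  rw [key] at h2
  rw [Perm.mem_alternatingGroup, ← par_eq_one]
  exact h2

end Pool.Agent.Helper175_Enc
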