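import Mathlib

/-!
Gauge encoding: a group of functions `I → Perm Z` on an index set `I` whose elements carry
positions in a point set `P` is turned into a permutation group `K` of a finite set such that
every element of the normaliser of `K` acts on `P` and respects the code up to an automorphism.
-/

set_option autoImplicit false

namespace Pool.Agent.Helper175_Enc

open Equiv

section Defs

variable {P I J W Z : Type}

/-- One residue for each coordinate. -/
abbrev U (J : Type) (p : Option J → ℕ) : Type := ∀ j : J, ZMod (p (some j))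

/-- The set on which the group acts. -/
abbrev X (I J W Z : Type) (p : Option J → ℕ) : Type :=
  (I × Z × U J p × ZMod (p none)) ⊕ (W × U J p)

variable (p : Option J → ℕ) (pos : I → J → P) (rho : W → P)

/-- The permutation with code part `t`, gauge part `e` and separating part `a`. -/
def act (t : I → Perm Z) (e : ∀ j : J, P → ZMod (p (some j))) (a : ZMod (p none)) :
    Perm (X I J W Z p) where
  toFun y := match y with
    | Sum.inl (i, z, u, v) => Sum.inl (i, t i z, (fun j => u j + e j (pos i j)), v + a)
    | Sum.inr (w, u) => Sum.inr (w, fun j => u j + e j (rho w))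
  invFun y := match y with
    | Sum.inl (i, z, u, v) => Sum.inl (i, (t i).symm z, (fun j => u j - e j (pos i j)), v - a)
    | Sum.inr (w, u) => Sum.inr (w, fun j => u j - e j (rho w))
  left_inv := by rintro (⟨i, z, u, v⟩ | ⟨w, u⟩) <;> simp
  right_inv := by rintro (⟨i, z, u, v⟩ | ⟨w, u⟩) <;> simp

@[simp] lemma act_inl (t : I → Perm Z) (e : ∀ j : J, P → ZMod (p (some j))) (a : ZMod (p none))
    (i : I) (z : Z) (u : U J p) (v : ZMod (p none)) :
    act p pos rho t e a (Sum.inl (i, z, u, v)) =
      Sum.inl (i, t i z, (fun j => u j + e j (pos i j)), v + a) := rfl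

@[simp] lemma act_inr (t : I → Perm Z) (e : ∀ j : J, P → ZMod (p (some j))) (a : ZMod (p none))
    (w : W) (u : U J p) :
    act p pos rho t e a (Sum.inr (w, u)) = Sum.inr (w, fun j => u j + e j (rho w)) := rfl

lemma act_mul (t t' : I → Perm Z) (e e' : ∀ j : J, P → ZMod (p (some j)))
    (a a' : ZMod (p none)) :
    act p pos rho t e a * act p pos rho t' e' a' = act p pos rho (t * t') (e + e') (a + a') := by
  ext y
  rcases y with ⟨i, z, u, v⟩ | ⟨w, u⟩
  · simp only [Perm.mul_apply, act_inl, Pi.mul_apply, Pi.add_apply]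
    congr 4
    · funext j; ring
    · ring
  · simp only [Perm.mul_apply, act_inr, Pi.add_apply]
    congr 2
    funext j; ring

lemma act_one : act p pos rho (1 : I → Perm Z) 0 0 = 1 := by
  ext y
  rcases y with ⟨i, z, u, v⟩ | ⟨w, u⟩ <;> simp

lemma act_inv (t : I → Perm Z) (e : ∀ j : J, P → ZMod (p (some j))) (a : ZMod (p none)) :
    (act p pos rho t e a)⁻¹ = act p pos rho t⁻¹ (-e) (-a) := by
  rw [inv_eq_iff_mul_eq_one, act_mul]
  simpa using act_one p pos rho

lemma act_pow (t : I → Perm Z) (e : ∀ j : J, P → ZMod (p (some j))) (a : ZMod (p none))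
    (m : ℕ) :
    (act p pos rho t e a) ^ m = act p pos rho (t ^ m) (m • e) (m • a) := by
  induction m with
  | zero => simpa using (act_one p pos rho).symm
  | succ m ih => rw [pow_succ, ih, act_mul, pow_succ, add_smul, add_smul, one_smul, one_smul]

/-- The permutation group attached to the code `T`. -/
def K (T : Subgroup (I → Perm Z)) : Subgroup (Perm (X I J W Z p)) where
  carrier := {x | ∃ t ∈ T, ∃ e a, x = act p pos rho t e a}
  one_mem' := ⟨1, T.one_mem, 0, 0, (act_one p pos rho).symm⟩
  mul_mem' := by
    rintro _ _ ⟨t, ht, e, a, rfl⟩ ⟨t', ht', e', a', rfl⟩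
    exact ⟨t * t', T.mul_mem ht ht', e + e', a + a', act_mul p pos rho t t' e e' a a'⟩
  inv_mem' := by
    rintro _ ⟨t, ht, e, a, rfl⟩
    exact ⟨t⁻¹, T.inv_mem ht, -e, -a, act_inv p pos rho t e a⟩

lemma mem_K {T : Subgroup (I → Perm Z)} {x : Perm (X I J W Z p)} :
    x ∈ K p pos rho T ↔ ∃ t ∈ T, ∃ e a, x = act p pos rho t e a := Iff.rfl

/-- The positions of a point. -/
def posX : X I J W Z p → J → P
  | Sum.inl (i, _, _, _) => pos i
  | Sum.inr (w, _) => fun _ => rho w

@[simp] lemma posX_inl (i : I) (z : Z) (u : U J p) (v : ZMod (p none)) :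
    posX (W := W) p pos rho (Sum.inl (i, z, u, v)) = pos i := rfl

@[simp] lemma posX_inr (w : W) (u : U J p) :
    posX (I := I) (Z := Z) p pos rho (Sum.inr (w, u)) = fun _ => rho w := rfl

/-- The gauge permutation of coordinate `j`. -/
noncomputable def gg [DecidableEq J] (j : J) (e : P → ZMod (p (some j))) : Perm (X I J W Z p) :=
  act p pos rho 1 (Pi.single j e) 0

lemma gg_fix [DecidableEq J] (j : J) (e : P → ZMod (p (some j))) (y : X I J W Z p) :
    gg p pos rho j e y = y ↔ e (posX p pos rho y j) = 0 := by
  rcases y with ⟨i, z, u, v⟩ | ⟨w, u⟩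
  · simp only [gg, act_inl, posX_inl, Sum.inl.injEq, Prod.mk.injEq, true_and, Pi.one_apply,
      Perm.one_apply, add_zero, and_true]
    constructor
    · intro h
      have := congrFun h j
      simpa using this
    · intro h
      funext j'
      by_cases hj : j' = j
      · subst hj; simpa using h
      · simp [Pi.single_eq_of_ne hj]
  · simp only [gg, act_inr, posX_inr, Sum.inr.injEq, Prod.mk.injEq, true_and]
    constructor
    · intro h
      have := congrFun h j
      simpa using this
    · intro h
      funext j'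
      by_cases hj : j' = j
      · subst hj; simpa using h
      · simp [Pi.single_eq_of_ne hj]

lemma act_eq_one [Nonempty I] [Nonempty Z] (hrho : Function.Surjective rho)
    {t : I → Perm Z} {e : ∀ j : J, P → ZMod (p (some j))} {a : ZMod (p none)}
    (h : act p pos rho t e a = 1) : t = 1 ∧ e = 0 ∧ a = 0 := by
  refine ⟨?_, ?_, ?_⟩
  · funext i
    ext z
    have := congrArg (fun f : Perm (X I J W Z p) => f (Sum.inl (i, z, 0, 0))) h
    simp only [act_inl, Perm.one_apply, Sum.inl.injEq, Prod.mk.injEq] at this
    simpa using this.2.1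
  · funext j x
    obtain ⟨w, rfl⟩ := hrho x
    have := congrArg (fun f : Perm (X I J W Z p) => f (Sum.inr (w, 0))) h
    simp only [act_inr, Perm.one_apply, Sum.inr.injEq, Prod.mk.injEq] at this
    simpa using congrFun this.2 j
  · obtain ⟨i⟩ := ‹Nonempty I›
    obtain ⟨z⟩ := ‹Nonempty Z›
    have := congrArg (fun f : Perm (X I J W Z p) => f (Sum.inl (i, z, 0, 0))) h
    simp only [act_inl, Perm.one_apply, Sum.inl.injEq, Prod.mk.injEq] at this
    simpa using this.2.2.2

lemma act_inj [Nonempty I] [Nonempty Z] (hrho : Function.Surjective rho)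
    {t t' : I → Perm Z} {e e' : ∀ j : J, P → ZMod (p (some j))} {a a' : ZMod (p none)}
    (h : act p pos rho t e a = act p pos rho t' e' a') : t = t' ∧ e = e' ∧ a = a' := by
  have h1 : act p pos rho (t * t'⁻¹) (e - e') (a - a') = 1 := by
    have := act_mul p pos rho t t'⁻¹ e (-e') a (-a')
    rw [← act_inv, h, mul_inv_cancel] at this
    rw [sub_eq_add_neg, sub_eq_add_neg]
    exact this.symm
  obtain ⟨h2, h3, h4⟩ := act_eq_one p pos rho hrho h1
  exact ⟨mul_inv_eq_one.mp h2, sub_eq_zero.mp h3, sub_eq_zero.mp h4⟩

end Defs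

end Pool.Agent.Helper175_Enc
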