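import Pool.Agent.Helper175_Enc.Lin

/-!
Generating sets of the groups `K`, and the natural action of the permutations of the points.
-/

set_option autoImplicit false

namespace Pool.Agent.Helper175_Enc

open Equiv

section Gauge

variable {P I J W Z : Type}
variable (p : Option J → ℕ) (pos : I → J → P) (rho : W → P)

open Classical in
/-- Generators of the gauge part. -/
noncomputable def gen (o : Option (J × P)) : Perm (X I J W Z p) := match o with
  | none => act p pos rho 1 0 1
  | some (j, y) => gg p pos rho j (Pi.single y 1)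

lemma gen_mem_K (T : Subgroup (I → Perm Z)) (o : Option (J × P)) :
    gen (Z := Z) p pos rho o ∈ K p pos rho T := by
  classical
  rcases o with - | ⟨j, y⟩
  · exact ⟨1, T.one_mem, _, _, rfl⟩
  · exact ⟨1, T.one_mem, _, _, rfl⟩

lemma gauge_mem [Fintype J] [Fintype P] (hp : ∀ o, (p o).Prime)
    (H : Subgroup (Perm (X I J W Z p)))
    (hH : ∀ o, gen (Z := Z) p pos rho o ∈ H)
    (e : ∀ j : J, P → ZMod (p (some j))) (a : ZMod (p none)) :
    act p pos rho 1 e a ∈ H := by
  classical
  have hne : ∀ o, NeZero (p o) := fun o => ⟨(hp o).ne_zero⟩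
  let A : AddSubgroup (∀ j : J, P → ZMod (p (some j))) :=
    { carrier := {e | act p pos rho (1 : I → Perm Z) e 0 ∈ H}
      zero_mem' := by
        change act p pos rho (1 : I → Perm Z) 0 0 ∈ H
        rw [act_one]; exact H.one_mem
      add_mem' := by
        intro e e' he he'
        have := H.mul_mem he he'
        rw [act_mul, one_mul, add_zero] at this
        exact this
      neg_mem' := by
        intro e he
        have := H.inv_mem he
        rw [act_inv, inv_one, neg_zero] at this
        exact this }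
  have hA1 : ∀ j y, (Pi.single j (Pi.single y 1) : ∀ j : J, P → ZMod (p (some j))) ∈ A := by
    intro j y
    have h1 := hH (some (j, y))
    change act p pos rho (1 : I → Perm Z) (Pi.single j (Pi.single y 1)) 0 ∈ H
    have h2 : gen (Z := Z) (W := W) p pos rho (some (j, y)) =
        act p pos rho (1 : I → Perm Z) (Pi.single j (Pi.single y 1)) 0 := by
      simp only [gen, gg]
    rw [← h2]
    exact h1
  have hA2 : ∀ j y c, (Pi.single j (Pi.single y c) : ∀ j : J, P → ZMod (p (some j))) ∈ A := by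
    intro j y c
    have h1 := A.nsmul_mem (hA1 j y) c.val
    rw [← Pi.single_smul, ← Pi.single_smul, nsmul_one, ZMod.natCast_zmod_val] at h1
    exact h1
  have hA3 : ∀ e, e ∈ A := by
    intro e
    rw [← Finset.univ_sum_single e]
    refine A.sum_mem (fun j _ => ?_)
    have h1 : (Pi.single j (e j) : ∀ j : J, P → ZMod (p (some j))) =
        ∑ y, Pi.single j (Pi.single y (e j y)) := by
      conv_lhs => rw [← Finset.univ_sum_single (e j)]
      exact map_sum (AddMonoidHom.single (fun j : J => P → ZMod (p (some j))) j) _ _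
    rw [h1]
    exact A.sum_mem (fun y _ => hA2 j y _)
  have h2 : act p pos rho (1 : I → Perm Z) 0 a ∈ H := by
    have h3 := H.pow_mem (hH none) a.val
    simp only [gen] at h3
    rw [act_pow, one_pow, smul_zero, nsmul_one, ZMod.natCast_zmod_val] at h3
    exact h3
  have h4 := H.mul_mem (hA3 e) h2
  rw [act_mul, one_mul, add_zero, zero_add] at h4
  exact h4

/-- The code part as a homomorphism. -/
def iota : (I → Perm Z) →* Perm (X I J W Z p) where
  toFun t := act p pos rho t 0 0
  map_one' := act_one p pos rho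
  map_mul' t t' := by rw [act_mul, add_zero, add_zero]

lemma K_closure [Fintype J] [Fintype P] (hp : ∀ o, (p o).Prime) (T₀ : Set (I → Perm Z)) :
    K p pos rho (Subgroup.closure T₀) =
      Subgroup.closure (Set.range (gen (Z := Z) (W := W) p pos rho) ∪
        (fun t => act p pos rho t 0 0) '' T₀) := by
  apply le_antisymm
  · rintro _ ⟨t, ht, e, a, rfl⟩
    set H := Subgroup.closure (Set.range (gen (Z := Z) (W := W) p pos rho) ∪
        (fun t => act p pos rho t 0 0) '' T₀) with hHdef
    have h1 : act p pos rho (1 : I → Perm Z) e a ∈ H := by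
      apply gauge_mem p pos rho hp
      intro o
      exact Subgroup.subset_closure (Or.inl ⟨o, rfl⟩)
    have h2 : Subgroup.closure T₀ ≤ H.comap (iota p pos rho) := by
      rw [Subgroup.closure_le]
      intro t ht
      exact Subgroup.subset_closure (Or.inr ⟨t, ht, rfl⟩)
    have h3 : act p pos rho t 0 0 ∈ H := h2 ht
    have h4 := H.mul_mem h3 h1
    rw [act_mul, mul_one, zero_add, zero_add] at h4
    exact h4
  · rw [Subgroup.closure_le]
    rintro _ (⟨o, rfl⟩ | ⟨t, ht, rfl⟩)
    · exact gen_mem_K p pos rho _ o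
    · exact ⟨t, Subgroup.subset_closure ht, 0, 0, rfl⟩

end Gauge

section CTgen

variable {Ω Λ₀ Λ₁ J₀ Z : Type} {N : ℕ}
variable (τ : Multiplicative (ZMod N) →* Perm Z)

lemma CT_closure [NeZero N] (R₀ : Set (IS Ω Λ₀ J₀ → ZMod N)) (S₀ : Set (IS Ω Λ₁ J₀ → Perm Z)) :
    CT τ (AddSubgroup.closure R₀) (Subgroup.closure S₀) =
      Subgroup.closure ({comb τ 0 1 1} ∪ (fun r => comb τ r 0 1) '' R₀ ∪
        (fun s => comb τ 0 0 s) '' S₀) := by
  apply le_antisymm
  · rintro _ ⟨r, hr, m, s, hs, rfl⟩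
    set H := Subgroup.closure (({comb τ (0 : IS Ω Λ₀ J₀ → ZMod N) 1 (1 : IS Ω Λ₁ J₀ → Perm Z)} :
      Set _) ∪ (fun r => comb τ r 0 1) '' R₀ ∪ (fun s => comb τ 0 0 s) '' S₀) with hH
    have h1 : comb τ (0 : IS Ω Λ₀ J₀ → ZMod N) m (1 : IS Ω Λ₁ J₀ → Perm Z) ∈ H := by
      have h2 : comb τ (0 : IS Ω Λ₀ J₀ → ZMod N) 1 (1 : IS Ω Λ₁ J₀ → Perm Z) ∈ H :=
        Subgroup.subset_closure (Or.inl (Or.inl rfl))
      have h3 := H.pow_mem h2 m.val
      rw [comb_pow, smul_zero, one_pow, nsmul_one, ZMod.natCast_zmod_val] at h3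
      exact h3
    let A : AddSubgroup (IS Ω Λ₀ J₀ → ZMod N) :=
      { carrier := {r | comb τ r 0 (1 : IS Ω Λ₁ J₀ → Perm Z) ∈ H}
        zero_mem' := by
          change comb τ 0 0 1 ∈ H
          rw [comb_one]; exact H.one_mem
        add_mem' := by
          intro e e' he he'
          have := H.mul_mem he he'
          rw [comb_mul, one_mul, add_zero] at this
          exact this
        neg_mem' := by
          intro e he
          have := H.inv_mem he
          rw [comb_inv, inv_one, neg_zero] at this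
          exact this }
    have h4 : AddSubgroup.closure R₀ ≤ A := by
      rw [AddSubgroup.closure_le]
      intro r hr
      exact Subgroup.subset_closure (Or.inl (Or.inr ⟨r, hr, rfl⟩))
    let B : Subgroup (IS Ω Λ₁ J₀ → Perm Z) :=
      { carrier := {s | comb τ (0 : IS Ω Λ₀ J₀ → ZMod N) 0 s ∈ H}
        one_mem' := by
          change comb τ 0 0 1 ∈ H
          rw [comb_one]; exact H.one_mem
        mul_mem' := by
          intro e e' he he'
          have := H.mul_mem he he'
          rw [comb_mul, add_zero, add_zero] at this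
          exact this
        inv_mem' := by
          intro e he
          have := H.inv_mem he
          rw [comb_inv, neg_zero, neg_zero] at this
          exact this }
    have h5 : Subgroup.closure S₀ ≤ B := by
      rw [Subgroup.closure_le]
      intro s hs
      exact Subgroup.subset_closure (Or.inr ⟨s, hs, rfl⟩)
    have h6 : comb τ r 0 (1 : IS Ω Λ₁ J₀ → Perm Z) ∈ H := h4 hr
    have h7 : comb τ (0 : IS Ω Λ₀ J₀ → ZMod N) 0 s ∈ H := h5 hs
    have h8 := H.mul_mem (H.mul_mem h6 h1) h7
    rw [comb_mul, comb_mul, add_zero, add_zero, zero_add, one_mul, add_zero, one_mul] at h8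
    exact h8
  · rw [Subgroup.closure_le]
    rintro _ ((h | ⟨r, hr, rfl⟩) | ⟨s, hs, rfl⟩)
    · rw [Set.mem_singleton_iff] at h
      subst h
      exact ⟨0, AddSubgroup.zero_mem _, 1, 1, Subgroup.one_mem _, rfl⟩
    · exact ⟨r, AddSubgroup.subset_closure hr, 0, 1, Subgroup.one_mem _, rfl⟩
    · exact ⟨0, AddSubgroup.zero_mem _, 0, s, Subgroup.subset_closure hs, rfl⟩

end CTgen

section Alpha

variable {Ω Λ J₀ Z : Type} [Fintype Λ]
variable (p : Option (Option J₀) → ℕ)

/-- The natural action of the permutations of the points. -/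
def alpha : Perm Ω →* Perm (X (IS Ω Λ J₀) (Option J₀) (WS Ω Λ) Z p) where
  toFun b := lift p (Equiv.prodCongr (Equiv.arrowCongr (Equiv.refl J₀) b) (Equiv.refl Λ))
    (Equiv.sumCongr b (Equiv.refl _))
  map_one' := by
    ext y
    rcases y with ⟨⟨γ, l⟩, q⟩ | ⟨x | w, u⟩
    · rfl
    · rfl
    · rfl
  map_mul' b c := by
    ext y
    rcases y with ⟨⟨γ, l⟩, q⟩ | ⟨x | w, u⟩
    · rfl
    · rfl
    · rfl

lemma alpha_OS (b : Perm Ω) (x : Ω) :
    alpha (Λ := Λ) (Z := Z) p b '' (OS p x) = OS p (b x) := by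
  ext y
  constructor
  · rintro ⟨_, ⟨u, rfl⟩, rfl⟩
    exact ⟨u, rfl⟩
  · rintro ⟨u, rfl⟩
    exact ⟨Sum.inr (Sum.inl x, u), ⟨u, rfl⟩, rfl⟩

lemma alpha_act (b : Perm Ω) (t : IS Ω Λ J₀ → Perm Z) :
    alpha p b * act p posS rhoS t 0 0 * (alpha p b)⁻¹ =
      act p posS rhoS (pull b⁻¹ t) 0 0 := by
  have h1 := lift_act (Z := Z) (pos := (posS : IS Ω Λ J₀ → Option J₀ → Ω ⊕ Λ)) (rho := rhoS) p
    (β := Equiv.sumCongr b (Equiv.refl Λ))
    (bI := Equiv.prodCongr (Equiv.arrowCongr (Equiv.refl J₀) b) (Equiv.refl Λ))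
    (bW := Equiv.sumCongr b (Equiv.refl _)) (by
      rintro ⟨γ, l⟩
      funext j
      rcases j with - | j <;> rfl) (by
      rintro (x | l) <;> rfl) (pull b⁻¹ t) 0 0
  have h2 : (fun i : IS Ω Λ J₀ => pull b⁻¹ t
      ((Equiv.prodCongr (Equiv.arrowCongr (Equiv.refl J₀) b) (Equiv.refl Λ)) i)) = t := by
    funext i
    change t (⇑(b⁻¹) ∘ (⇑b ∘ i.1), i.2) = t i
    rw [inv_comp]
  rw [h2] at h1
  exact h1

lemma alpha_mem {T : Subgroup (IS Ω Λ J₀ → Perm Z)} {b : Perm Ω}
    (hT : ∀ t : IS Ω Λ J₀ → Perm Z, t ∈ T ↔ pull b t ∈ T) :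
    alpha p b ∈ Subgroup.normalizer
      (K p posS rhoS T : Set (Perm (X (IS Ω Λ J₀) (Option J₀) (WS Ω Λ) Z p))) := by
  refine lift_mem (β := Equiv.sumCongr b (Equiv.refl Λ)) p ?_ ?_ ?_
  · rintro ⟨γ, l⟩
    funext j
    rcases j with - | j
    · rfl
    · rfl
  · rintro (x | l)
    · rfl
    · rfl
  · intro t
    exact hT t

end Alpha

end Pool.Agent.Helper175_Enc
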