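import Pool.Agent.Helper175_Enc.Engine

/-!
Groups of functions with values in a permutation group are recovered exactly, once every value
is recorded in the labels.
-/

set_option autoImplicit false

namespace Pool.Agent.Helper175_Enc

open Equiv

section GraphArg

variable {Ω Λ J₀ Z Sg : Type} (ς : Sg → Perm Z)

/-- The function whose value is recorded in the label. -/
def Tf : IS Ω (Λ × Sg) J₀ → Perm Z := fun i => ς i.2.2

/-- A function that ignores the recorded value. -/
def Df (s : IS Ω Λ J₀ → Perm Z) : IS Ω (Λ × Sg) J₀ → Perm Z := fun i => s (i.1, i.2.1)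

/-- Generators of the extended group. -/
def T0 (S₀ : Set (IS Ω Λ J₀ → Perm Z)) : Set (IS Ω (Λ × Sg) J₀ → Perm Z) :=
  {Tf ς} ∪ Df '' S₀

lemma stab_inv {Λ A : Type} {R : Set (IS Ω Λ J₀ → A)} {b : Perm Ω} (h : b⁻¹ ∈ StabOf R) :
    b ∈ StabOf R := by
  intro r
  rw [h (pull b r)]
  have h1 : pull b⁻¹ (pull b r) = r := by
    funext i
    simp only [pull, comp_inv]
  rw [h1]

lemma pull_mul_fun {Λ : Type} (b : Perm Ω) (x y : IS Ω Λ J₀ → Perm Z) :
    pull b (x * y) = pull b x * pull b y := rfl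

lemma pull_closure {Λ : Type} {S₀ : Set (IS Ω Λ J₀ → Perm Z)} {b : Perm Ω}
    (h : ∀ s ∈ S₀, pull b s ∈ Subgroup.closure S₀) :
    ∀ s ∈ Subgroup.closure S₀, pull b s ∈ Subgroup.closure S₀ := by
  intro s hs
  induction hs using Subgroup.closure_induction with
  | mem x hx => exact h x hx
  | one => exact Subgroup.one_mem _
  | mul x y _ _ hx hy => exact Subgroup.mul_mem _ hx hy
  | inv x _ hx => exact Subgroup.inv_mem _ hx

theorem stab_T0 [Finite Ω] [Finite Λ] [Finite J₀] [Finite Z] [Finite Sg]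
    {S₀ : Set (IS Ω Λ J₀ → Perm Z)} {b : Perm Ω}
    (hb : b ∈ StabOf (Subgroup.closure S₀ : Set (IS Ω Λ J₀ → Perm Z))) :
    b ∈ StabOf (Subgroup.closure (T0 ς S₀) : Set (IS Ω (Λ × Sg) J₀ → Perm Z)) := by
  apply stab_of_pull
  apply pull_closure
  have hD : ∀ s ∈ Subgroup.closure S₀, Df s ∈ Subgroup.closure (T0 ς S₀) := by
    intro s hs
    induction hs using Subgroup.closure_induction with
    | mem x hx => exact Subgroup.subset_closure (Or.inr ⟨x, hx, rfl⟩)
    | one => exact Subgroup.one_mem _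
    | mul x y _ _ hx hy => exact Subgroup.mul_mem _ hx hy
    | inv x _ hx => exact Subgroup.inv_mem _ hx
  rintro t (h | ⟨s, hs, rfl⟩)
  · rw [Set.mem_singleton_iff] at h
    subst h
    exact Subgroup.subset_closure (Or.inl rfl)
  · exact hD _ ((hb s).mp (Subgroup.subset_closure hs))

theorem resp_T0 [Finite Ω] [Finite Λ] [Finite J₀] [Finite Z] [Finite Sg]
    {S₀ : Set (IS Ω Λ J₀ → Perm Z)} (hval : ∀ s ∈ S₀, ∀ i, ∃ q, s i = ς q) {b : Perm Ω}
    (hb : Resp (Subgroup.closure (T0 ς S₀)) b) :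
    b ∈ StabOf (Subgroup.closure S₀ : Set (IS Ω Λ J₀ → Perm Z)) := by
  classical
  obtain ⟨θ, hθ, hθ'⟩ := hb
  have hsurj : Function.Surjective θ := Finite.injective_iff_surjective.mp hθ
  let res : (IS Ω Λ J₀ → Sg) → (IS Ω (Λ × Sg) J₀ → Perm Z) →* (IS Ω Λ J₀ → Perm Z) := fun w =>
    { toFun := fun t i => t (i.1, (i.2, w i))
      map_one' := rfl
      map_mul' := fun _ _ => rfl }
  let f : (IS Ω Λ J₀ → Sg) → Subgroup.closure (T0 (Λ := Λ) (J₀ := J₀) ς S₀) →*
      (IS Ω Λ J₀ → Perm Z) := fun w => (res w).comp (Subgroup.subtype _)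
  have hrange : ∀ w, (f w).range = Subgroup.closure ({fun i => ς (w i)} ∪ S₀) := by
    intro w
    have h1 : (f w).range = (Subgroup.closure (T0 ς S₀)).map (res w) := by
      rw [MonoidHom.range_comp, Subgroup.range_subtype]
    rw [h1, MonoidHom.map_closure, T0, Set.image_union, Set.image_singleton, Set.image_image]
    congr 2
    exact Set.image_id' S₀
  have hker : ∀ w, ((f (pull b⁻¹ w)).comp θ).ker = (f w).ker := by
    intro w
    ext t
    rw [MonoidHom.mem_ker, MonoidHom.mem_ker]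
    constructor
    · intro h
      funext i
      have h1 := congrFun h (⇑b ∘ i.1, i.2)
      change (θ t : IS Ω (Λ × Sg) J₀ → Perm Z)
        (⇑b ∘ i.1, (i.2, w (⇑(b⁻¹) ∘ (⇑b ∘ i.1), i.2))) = 1 at h1
      rw [inv_comp] at h1
      exact (hθ' t i.1 (i.2, w i)).mpr h1
    · intro h
      funext i
      have h1 := congrFun h (⇑(b⁻¹) ∘ i.1, i.2)
      have h2 := (hθ' t (⇑(b⁻¹) ∘ i.1) (i.2, w (⇑(b⁻¹) ∘ i.1, i.2))).mp h1
      rw [comp_inv] at h2
      exact h2
  have hcard : ∀ w, Nat.card (f (pull b⁻¹ w)).range = Nat.card (f w).range := by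
    intro w
    have h1 : Nat.card ((f (pull b⁻¹ w)).comp θ).range = Nat.card (f w).range := by
      rw [← Nat.card_congr (QuotientGroup.quotientKerEquivRange _).toEquiv,
        ← Nat.card_congr (QuotientGroup.quotientKerEquivRange (f w)).toEquiv, hker w]
    have h2 : ((f (pull b⁻¹ w)).comp θ).range = (f (pull b⁻¹ w)).range := by
      rw [MonoidHom.range_comp (f (pull b⁻¹ w)) θ, MonoidHom.range_eq_top.mpr hsurj,
        ← MonoidHom.range_eq_map]
    rw [← h1, h2]
  apply stab_inv
  apply stab_of_pull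
  apply pull_closure
  intro s hs
  choose w hw using hval s hs
  have hws : (fun i => ς (w i)) = s := by
    funext i
    exact (hw i).symm
  have h1 := hcard w
  rw [hrange, hrange, hws] at h1
  have h2 : ({s} ∪ S₀ : Set (IS Ω Λ J₀ → Perm Z)) = S₀ := by
    rw [Set.singleton_union, Set.insert_eq_of_mem hs]
  rw [h2] at h1
  have h3 : Subgroup.closure S₀ ≤
      Subgroup.closure ({fun i => ς (pull b⁻¹ w i)} ∪ S₀) :=
    Subgroup.closure_mono Set.subset_union_right
  have h4 := Subgroup.eq_of_le_of_card_ge h3 h1.le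
  rw [h4]
  apply Subgroup.subset_closure
  left
  rw [Set.mem_singleton_iff]
  funext i
  exact hw _

end GraphArg

end Pool.Agent.Helper175_Enc
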