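import Pool.Agent.Helper175_Enc.Spec

/-!
Codes over `ZMod N` on labelled tuples are recovered exactly from the normaliser.
-/

set_option autoImplicit false

namespace Pool.Agent.Helper175_Enc

open Equiv

section Lin

variable {Ω Λ₀ Λ₁ J₀ Z : Type} {N : ℕ}

/-- Labels: a plain copy, an anchored copy, the anchor, and further labels. -/
abbrev LL (Λ₀ Λ₁ : Type) : Type := ((Λ₀ ⊕ Λ₀) ⊕ Unit) ⊕ Λ₁

variable (τ : Multiplicative (ZMod N) →* Perm Z)

/-- The function with linear part `r`, anchor value `m` and further part `s`. -/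
def comb (r : IS Ω Λ₀ J₀ → ZMod N) (m : ZMod N) (s : IS Ω Λ₁ J₀ → Perm Z) :
    IS Ω (LL Λ₀ Λ₁) J₀ → Perm Z := fun i => match i with
  | (γ, Sum.inl (Sum.inl (Sum.inl l))) => τ (Multiplicative.ofAdd (r (γ, l)))
  | (γ, Sum.inl (Sum.inl (Sum.inr l))) => τ (Multiplicative.ofAdd (r (γ, l) + m))
  | (_, Sum.inl (Sum.inr _)) => τ (Multiplicative.ofAdd m)
  | (γ, Sum.inr l) => s (γ, l)

lemma comb_mul (r r' : IS Ω Λ₀ J₀ → ZMod N) (m m' : ZMod N) (s s' : IS Ω Λ₁ J₀ → Perm Z) :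
    comb τ r m s * comb τ r' m' s' = comb τ (r + r') (m + m') (s * s') := by
  funext i
  rcases i with ⟨γ, ((l | l) | l) | l⟩
  · simp only [Pi.mul_apply, comb, ← map_mul, ← ofAdd_add, Pi.add_apply]
  · simp only [Pi.mul_apply, comb, ← map_mul, ← ofAdd_add, Pi.add_apply]
    congr 2
    ring
  · simp only [Pi.mul_apply, comb, ← map_mul, ← ofAdd_add]
  · simp only [Pi.mul_apply, comb]

lemma comb_one : comb τ (0 : IS Ω Λ₀ J₀ → ZMod N) 0 (1 : IS Ω Λ₁ J₀ → Perm Z) = 1 := by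
  funext i
  rcases i with ⟨γ, ((l | l) | l) | l⟩ <;> simp [comb]

lemma comb_inv (r : IS Ω Λ₀ J₀ → ZMod N) (m : ZMod N) (s : IS Ω Λ₁ J₀ → Perm Z) :
    (comb τ r m s)⁻¹ = comb τ (-r) (-m) s⁻¹ := by
  rw [inv_eq_iff_mul_eq_one, comb_mul]
  simpa using comb_one τ

lemma comb_pow (r : IS Ω Λ₀ J₀ → ZMod N) (m : ZMod N) (s : IS Ω Λ₁ J₀ → Perm Z) (k : ℕ) :
    (comb τ r m s) ^ k = comb τ (k • r) (k • m) (s ^ k) := by
  induction k with
  | zero => simpa using (comb_one τ).symm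
  | succ k ih => rw [pow_succ, ih, comb_mul, pow_succ, add_smul, add_smul, one_smul, one_smul]

/-- The code group made of a linear code `R` and a further code `S`. -/
def CT (R : AddSubgroup (IS Ω Λ₀ J₀ → ZMod N)) (S : Subgroup (IS Ω Λ₁ J₀ → Perm Z)) :
    Subgroup (IS Ω (LL Λ₀ Λ₁) J₀ → Perm Z) where
  carrier := {t | ∃ r ∈ R, ∃ m, ∃ s ∈ S, t = comb τ r m s}
  one_mem' := ⟨0, R.zero_mem, 0, 1, S.one_mem, (comb_one τ).symm⟩
  mul_mem' := by
    rintro _ _ ⟨r, hr, m, s, hs, rfl⟩ ⟨r', hr', m', s', hs', rfl⟩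
    exact ⟨r + r', R.add_mem hr hr', m + m', s * s', S.mul_mem hs hs', comb_mul ..⟩
  inv_mem' := by
    rintro _ ⟨r, hr, m, s, hs, rfl⟩
    exact ⟨-r, R.neg_mem hr, -m, s⁻¹, S.inv_mem hs, comb_inv ..⟩

lemma comb_inj [Nonempty Ω] (hτ : Function.Injective τ)
    {r r' : IS Ω Λ₀ J₀ → ZMod N} {m m' : ZMod N} {s s' : IS Ω Λ₁ J₀ → Perm Z}
    (h : comb τ r m s = comb τ r' m' s') : r = r' ∧ m = m' ∧ s = s' := by
  refine ⟨?_, ?_, ?_⟩
  · funext i
    have := congrFun h (i.1, Sum.inl (Sum.inl (Sum.inl i.2)))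
    exact Multiplicative.ofAdd.injective (hτ this)
  · have := congrFun h (fun _ => Classical.arbitrary Ω, Sum.inl (Sum.inr ()))
    exact Multiplicative.ofAdd.injective (hτ this)
  · funext i
    exact congrFun h (i.1, Sum.inr i.2)

lemma comp_inv (b : Perm Ω) (γ : J₀ → Ω) : ⇑b ∘ (⇑(b⁻¹) ∘ γ) = γ :=
  funext (fun j => app_inv b (γ j))

lemma inv_comp (b : Perm Ω) (γ : J₀ → Ω) : ⇑(b⁻¹) ∘ (⇑b ∘ γ) = γ :=
  funext (fun j => inv_app b (γ j))

/-- Action of a permutation of the points on functions of labelled tuples. -/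
def pull {Λ A : Type} (b : Perm Ω) (r : IS Ω Λ J₀ → A) : IS Ω Λ J₀ → A :=
  fun i => r (b ∘ i.1, i.2)

lemma pull_inj {Λ A : Type} (b : Perm Ω) {r r' : IS Ω Λ J₀ → A}
    (h : pull b r = pull b r') : r = r' := by
  funext i
  have := congrFun h (⇑(b⁻¹) ∘ i.1, i.2)
  simpa only [pull, comp_inv] using this

lemma pull_pull_inv {Λ A : Type} (b : Perm Ω) (r : IS Ω Λ J₀ → A) : pull b (pull b⁻¹ r) = r := by
  funext i
  simp only [pull, inv_comp]

lemma pull_comb (b : Perm Ω) (r : IS Ω Λ₀ J₀ → ZMod N) (m : ZMod N)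
    (s : IS Ω Λ₁ J₀ → Perm Z) :
    pull b (comb τ r m s) = comb τ (pull b r) m (pull b s) := by
  funext i
  rcases i with ⟨γ, ((l | l) | l) | l⟩ <;> rfl

/-- The permutations of the points that stabilise a set of functions. -/
def StabOf {Λ A : Type} (R : Set (IS Ω Λ J₀ → A)) : Set (Perm Ω) :=
  {b | ∀ r, r ∈ R ↔ pull b r ∈ R}

variable [Fintype Ω] [Fintype J₀] [Fintype Z] [Nonempty Ω] [Nonempty Z] [Fintype Λ₀] [Fintype Λ₁]

omit [Fintype Z] [Nonempty Z] [Fintype Λ₁] in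
theorem theta_lin [NeZero N] (hτ : Function.Injective τ)
    (R : AddSubgroup (IS Ω Λ₀ J₀ → ZMod N)) (S : Subgroup (IS Ω Λ₁ J₀ → Perm Z))
    {b : Perm Ω} {θ : CT τ R S →* CT τ R S} (hθ : Function.Injective θ)
    (hb : ∀ (t : CT τ R S) (γ : J₀ → Ω) (l : LL Λ₀ Λ₁),
        ((t : IS Ω (LL Λ₀ Λ₁) J₀ → Perm Z) (γ, l) = 1 ↔
          (θ t : IS Ω (LL Λ₀ Λ₁) J₀ → Perm Z) (b ∘ γ, l) = 1)) :
    b ∈ StabOf (R : Set (IS Ω Λ₀ J₀ → ZMod N)) ∧
      ∃ θ' : S →* S, Function.Injective θ' ∧ ∀ (s : S) (γ : J₀ → Ω) (l : Λ₁),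
        ((s : IS Ω Λ₁ J₀ → Perm Z) (γ, l) = 1 ↔
          (θ' s : IS Ω Λ₁ J₀ → Perm Z) (b ∘ γ, l) = 1) := by
  classical
  have hsurj : ∀ δ : J₀ → Ω, ∃ γ : J₀ → Ω, b ∘ γ = δ := fun δ =>
    ⟨⇑(b⁻¹) ∘ δ, comp_inv b δ⟩
  have hτ1 : ∀ a : ZMod N, τ (Multiplicative.ofAdd a) = 1 ↔ a = 0 := by
    intro a
    rw [← map_one τ, hτ.eq_iff]
    exact Iff.rfl
  -- elements of the code group
  let el : ∀ (r : R) (m : ZMod N) (s : S), CT τ R S := fun r m s =>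
    ⟨comb τ (r : IS Ω Λ₀ J₀ → ZMod N) m (s : IS Ω Λ₁ J₀ → Perm Z), ⟨r, r.2, m, s, s.2, rfl⟩⟩
  have hel : ∀ t : CT τ R S, ∃ r m s, t = el r m s := by
    rintro ⟨_, r, hr, m, s, hs, rfl⟩
    exact ⟨⟨r, hr⟩, m, ⟨s, hs⟩, rfl⟩
  have helmul : ∀ r m s r' m' s', el r m s * el r' m' s' = el (r + r') (m + m') (s * s') := by
    intro r m s r' m' s'
    exact Subtype.ext (comb_mul ..)
  have helpow : ∀ r m s (k : ℕ), (el r m s) ^ k = el (k • r) (k • m) (s ^ k) := by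
    intro r m s k
    exact Subtype.ext (comb_pow ..)
  have helone : el 0 0 1 = 1 := Subtype.ext (comb_one τ)
  -- vanishing criteria
  have vplain : ∀ r m s γ l, (el r m s : IS Ω (LL Λ₀ Λ₁) J₀ → Perm Z)
      (γ, Sum.inl (Sum.inl (Sum.inl l))) = 1 ↔ (r : IS Ω Λ₀ J₀ → ZMod N) (γ, l) = 0 :=
    fun r m s γ l => hτ1 _
  have vanch : ∀ r m s γ l, (el r m s : IS Ω (LL Λ₀ Λ₁) J₀ → Perm Z)
      (γ, Sum.inl (Sum.inl (Sum.inr l))) = 1 ↔ (r : IS Ω Λ₀ J₀ → ZMod N) (γ, l) + m = 0 :=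
    fun r m s γ l => hτ1 _
  have vom : ∀ r m s (γ : J₀ → Ω), (el r m s : IS Ω (LL Λ₀ Λ₁) J₀ → Perm Z)
      (γ, Sum.inl (Sum.inr ())) = 1 ↔ m = 0 :=
    fun r m s γ => hτ1 _
  have vrest : ∀ r m s γ l, (el r m s : IS Ω (LL Λ₀ Λ₁) J₀ → Perm Z)
      (γ, Sum.inr l) = 1 ↔ (s : IS Ω Λ₁ J₀ → Perm Z) (γ, l) = 1 :=
    fun r m s γ l => Iff.rfl
  -- the image of an element without linear part
  have him : ∀ s : S, ∃ s' : S, θ (el 0 0 s) = el 0 0 s' := by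
    intro s
    obtain ⟨r', m', s', h⟩ := hel (θ (el 0 0 s))
    refine ⟨s', ?_⟩
    have hr : r' = 0 := by
      apply Subtype.ext
      funext i
      obtain ⟨γ, hγ⟩ := hsurj i.1
      have h1 := (hb (el 0 0 s) γ (Sum.inl (Sum.inl (Sum.inl i.2)))).mp
        ((vplain ..).mpr rfl)
      rw [h, vplain, hγ] at h1
      exact h1
    have hm : m' = 0 := by
      have h1 := (hb (el 0 0 s) (fun _ => Classical.arbitrary Ω) (Sum.inl (Sum.inr ()))).mp
        ((vom ..).mpr rfl)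
      rw [h, vom] at h1
      exact h1
    rw [h, hr, hm]
  -- the image of an element without further part
  have hs1 : ∀ (r : R) (m : ZMod N), ∃ (r' : R) (m' : ZMod N), θ (el r m 1) = el r' m' 1 := by
    intro r m
    obtain ⟨r', m', s', h⟩ := hel (θ (el r m 1))
    refine ⟨r', m', ?_⟩
    have hs : s' = 1 := by
      apply Subtype.ext
      funext i
      obtain ⟨γ, hγ⟩ := hsurj i.1
      have h1 := (hb (el r m 1) γ (Sum.inr i.2)).mp ((vrest ..).mpr rfl)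
      rw [h, vrest, hγ] at h1
      exact h1
    rw [h, hs]
  obtain ⟨rω, σ, hω⟩ := hs1 0 1
  have hrω : rω = 0 := by
    apply Subtype.ext
    funext i
    obtain ⟨γ, hγ⟩ := hsurj i.1
    have h1 := (hb (el 0 1 1) γ (Sum.inl (Sum.inl (Sum.inl i.2)))).mp
      ((vplain ..).mpr rfl)
    rw [hω, vplain, hγ] at h1
    exact h1
  subst hrω
  have hωpow : ∀ k : ℕ, θ (el 0 (k : ZMod N) 1) = el 0 ((k : ZMod N) * σ) 1 := by
    intro k
    have h1 : el 0 (k : ZMod N) 1 = (el 0 1 1) ^ k := by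
      rw [helpow, smul_zero, one_pow, nsmul_eq_mul, mul_one]
    rw [h1, map_pow, hω, helpow, smul_zero, one_pow, nsmul_eq_mul]
  have hcast : ∀ a : ZMod N, ∃ k : ℕ, (k : ZMod N) = a := fun a => ⟨a.val, ZMod.natCast_zmod_val a⟩
  have hσ : ∃ σ' : ZMod N, σ' * σ = 1 := by
    have hinj : Function.Injective (fun x : ZMod N => x * σ) := by
      intro x y hxy
      have hxy' : x * σ = y * σ := hxy
      obtain ⟨k, hk⟩ := hcast x
      obtain ⟨k', hk'⟩ := hcast y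
      have h1 : θ (el 0 x 1) = θ (el 0 y 1) := by
        rw [← hk, ← hk', hωpow, hωpow, hk, hk', hxy']
      have h2 := congrArg Subtype.val (hθ h1)
      exact (comb_inj τ hτ h2).2.1
    obtain ⟨σ', h⟩ := (Finite.injective_iff_surjective.mp hinj) 1
    exact ⟨σ', h⟩
  obtain ⟨σ', hσ'⟩ := hσ
  have hR : ∀ r : R, ∃ r₁ : R, ∀ δ l, (r₁ : IS Ω Λ₀ J₀ → ZMod N) (b ∘ δ, l) =
      (r : IS Ω Λ₀ J₀ → ZMod N) (δ, l) * σ := by
    intro r
    obtain ⟨r₁, m₁, h⟩ := hs1 r 0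
    have hm : m₁ = 0 := by
      have h1 := (hb (el r 0 1) (fun _ => Classical.arbitrary Ω) (Sum.inl (Sum.inr ()))).mp
        ((vom ..).mpr rfl)
      rw [h, vom] at h1
      exact h1
    subst hm
    refine ⟨r₁, fun δ l => ?_⟩
    obtain ⟨k, hk⟩ := hcast (-(r : IS Ω Λ₀ J₀ → ZMod N) (δ, l))
    have h1 : θ (el r (k : ZMod N) 1) = el r₁ ((k : ZMod N) * σ) 1 := by
      have h2 : el r (k : ZMod N) 1 = el r 0 1 * el 0 (k : ZMod N) 1 := by
        rw [helmul, add_zero, zero_add, one_mul]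
      rw [h2, map_mul, h, hωpow, helmul, add_zero, zero_add, one_mul]
    have h3 := (hb (el r (k : ZMod N) 1) δ (Sum.inl (Sum.inl (Sum.inr l)))).mp
      ((vanch ..).mpr (by rw [hk]; ring))
    rw [h1, vanch, hk] at h3
    linear_combination h3
  have hR2 : ∀ r : R, ∃ r₂ : R, pull b (r₂ : IS Ω Λ₀ J₀ → ZMod N) = r := by
    intro r
    obtain ⟨r₁, h⟩ := hR r
    obtain ⟨k, hk⟩ := hcast σ'
    refine ⟨k • r₁, ?_⟩
    funext i
    have h1 := h i.1 i.2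
    change (k • (r₁ : IS Ω Λ₀ J₀ → ZMod N)) (b ∘ i.1, i.2) = _
    rw [Pi.smul_apply, h1, nsmul_eq_mul, hk]
    calc σ' * ((r : IS Ω Λ₀ J₀ → ZMod N) (i.1, i.2) * σ)
        = (σ' * σ) * (r : IS Ω Λ₀ J₀ → ZMod N) (i.1, i.2) := by ring
      _ = (r : IS Ω Λ₀ J₀ → ZMod N) i := by rw [hσ', one_mul]
  choose φ hφ using hR2
  have hφinj : Function.Injective φ := by
    intro r r' h
    apply Subtype.ext
    rw [← hφ r, ← hφ r', h]
  have hφsurj : Function.Surjective φ := Finite.injective_iff_surjective.mp hφinj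
  refine ⟨?_, ?_⟩
  · intro r
    constructor
    · intro hr
      obtain ⟨r', hr'⟩ := hφsurj ⟨r, hr⟩
      have h1 := hφ r'
      rw [hr'] at h1
      change pull b r ∈ R
      rw [show pull b r = (r' : IS Ω Λ₀ J₀ → ZMod N) from h1]
      exact r'.2
    · intro hr
      have h1 := hφ ⟨pull b r, hr⟩
      have h2 := pull_inj b h1
      change r ∈ R
      rw [← h2]
      exact (φ _).2
  · choose f hf using him
    refine ⟨MonoidHom.mk' f ?_, ?_, ?_⟩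
    · intro s s'
      have h1 : θ (el 0 0 (s * s')) = θ (el 0 0 s) * θ (el 0 0 s') := by
        rw [← map_mul, helmul, add_zero, add_zero]
      rw [hf, hf, hf, helmul, add_zero, add_zero] at h1
      have h2 := congrArg Subtype.val h1
      exact Subtype.ext (comb_inj τ hτ h2).2.2
    · intro s s' h
      have h0 : f s = f s' := h
      have h1 : θ (el 0 0 s) = θ (el 0 0 s') := by rw [hf, hf, h0]
      have h2 := congrArg Subtype.val (hθ h1)
      exact Subtype.ext (comb_inj τ hτ h2).2.2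
    · intro s γ l
      have h1 := hb (el 0 0 s) γ (Sum.inr l)
      rw [hf, vrest, vrest] at h1
      exact h1

omit [Fintype Ω] [Nonempty Ω] [Fintype J₀] [Fintype Z] [Nonempty Z] [Fintype Λ₀] [Fintype Λ₁] in
theorem CT_pull
    (R : AddSubgroup (IS Ω Λ₀ J₀ → ZMod N)) (S : Subgroup (IS Ω Λ₁ J₀ → Perm Z))
    {b : Perm Ω} (hR : b ∈ StabOf (R : Set (IS Ω Λ₀ J₀ → ZMod N)))
    (hS : b ∈ StabOf (S : Set (IS Ω Λ₁ J₀ → Perm Z)))
    (t : IS Ω (LL Λ₀ Λ₁) J₀ → Perm Z) : t ∈ CT τ R S ↔ pull b t ∈ CT τ R S := by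
  constructor
  · rintro ⟨r, hr, m, s, hs, rfl⟩
    rw [pull_comb]
    exact ⟨_, (hR r).mp hr, m, _, (hS s).mp hs, rfl⟩
  · rintro ⟨r, hr, m, s, hs, h⟩
    have h1 : t = comb τ (pull b⁻¹ r) m (pull b⁻¹ s) := by
      apply pull_inj b
      rw [h, pull_comb, pull_pull_inv, pull_pull_inv]
    rw [h1]
    refine ⟨_, ?_, m, _, ?_, rfl⟩
    · rw [← SetLike.mem_coe, hR, pull_pull_inv]; exact hr
    · rw [← SetLike.mem_coe, hS, pull_pull_inv]; exact hs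

end Lin

end Pool.Agent.Helper175_Enc
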