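import Pool.Agent.Helper175_Enc.Tools

/-!
Codes over all residue rings of bounded size.
-/

set_option autoImplicit false

namespace Pool.Agent.Helper175_Enc

open Equiv

section Family

variable {Ω Λ J A Q : Type}

open Classical in
/-- Placement of a function at one index. -/
noncomputable def place [One A] (q : Q) (s : IS Ω Λ J → A) : IS Ω (Q × Λ) J → A :=
  fun i => if i.2.1 = q then s (i.1, i.2.2) else 1

lemma pull_place [One A] (b : Perm Ω) (q : Q) (s : IS Ω Λ J → A) :
    pull b (place q s) = place q (pull b s) := rfl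

/-- The product of a family of groups of functions. -/
def prodP [Group A] (R : Q → Subgroup (IS Ω Λ J → A)) : Subgroup (IS Ω (Q × Λ) J → A) where
  carrier := {r | ∀ q, (fun i : IS Ω Λ J => r (i.1, (q, i.2))) ∈ R q}
  one_mem' := fun q => (R q).one_mem
  mul_mem' := fun h h' q => (R q).mul_mem (h q) (h' q)
  inv_mem' := fun h q => (R q).inv_mem (h q)

lemma stab_prodP [Group A] (R : Q → Subgroup (IS Ω Λ J → A)) (b : Perm Ω) :
    b ∈ StabOf (prodP R : Set (IS Ω (Q × Λ) J → A)) ↔
      ∀ q, b ∈ StabOf (R q : Set (IS Ω Λ J → A)) := by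
  classical
  constructor
  · intro h q r
    have hp : ∀ s : IS Ω Λ J → A, place q s ∈ prodP R ↔ s ∈ R q := by
      intro s
      constructor
      · intro h1
        have := h1 q
        simpa [place] using this
      · intro h1 q'
        by_cases hq : q' = q
        · subst hq
          simpa [place] using h1
        · simp only [place, hq, if_false]
          exact (R q').one_mem
    have h1 := h (place q r)
    rw [pull_place, SetLike.mem_coe, SetLike.mem_coe, hp, hp] at h1
    exact h1
  · intro h r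
    exact forall_congr' (fun q => h q _)

lemma prodP_closure [Group A] [Finite Q] (S₀ : Q → Set (IS Ω Λ J → A)) :
    prodP (fun q => Subgroup.closure (S₀ q)) =
      Subgroup.closure {t | ∃ q, ∃ s ∈ S₀ q, t = place q s} := by
  classical
  apply le_antisymm
  · intro r hr
    set C := Subgroup.closure {t : IS Ω (Q × Λ) J → A | ∃ q, ∃ s ∈ S₀ q, t = place q s} with hC
    let cur : (Q → (IS Ω Λ J → A)) →* (IS Ω (Q × Λ) J → A) :=
      { toFun := fun F i => F i.2.1 (i.1, i.2.2)
        map_one' := rfl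
        map_mul' := fun _ _ => rfl }
    have h1 : (fun q (i : IS Ω Λ J) => r (i.1, (q, i.2))) ∈ C.comap cur := by
      apply Submonoid.pi_mem_of_mulSingle_mem
      intro q
      have h2 : ∀ s ∈ Subgroup.closure (S₀ q), Pi.mulSingle q s ∈ C.comap cur := by
        intro s hs
        induction hs using Subgroup.closure_induction with
        | mem x hx =>
          rw [Subgroup.mem_comap]
          apply Subgroup.subset_closure
          refine ⟨q, x, hx, ?_⟩
          funext i
          simp only [cur, MonoidHom.coe_mk, OneHom.coe_mk, place]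
          by_cases hq : i.2.1 = q
          · rw [if_pos hq, hq, Pi.mulSingle_eq_same]
          · rw [if_neg hq, Pi.mulSingle_eq_of_ne hq]
            rfl
        | one => rw [Pi.mulSingle_one]; exact Subgroup.one_mem _
        | mul x y _ _ hx hy => rw [Pi.mulSingle_mul]; exact Subgroup.mul_mem _ hx hy
        | inv x _ hx => rw [Pi.mulSingle_inv]; exact Subgroup.inv_mem _ hx
      exact h2 _ (hr q)
    exact h1
  · rw [Subgroup.closure_le]
    rintro _ ⟨q, s, hs, rfl⟩ q'
    by_cases hq : q' = q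
    · subst hq
      have : (fun i : IS Ω Λ J => place q' s (i.1, (q', i.2))) = s := by
        funext i
        simp [place]
      rw [this]
      exact Subgroup.subset_closure hs
    · have : (fun i : IS Ω Λ J => place q s (i.1, (q', i.2))) = 1 := by
        funext i
        simp [place, hq]
      rw [this]
      exact Subgroup.one_mem _

theorem stab_family [Group A] [Finite Q] (S₀ : Q → Set (IS Ω Λ J → A)) (b : Perm Ω) :
    b ∈ StabOf ((Subgroup.closure {t | ∃ q, ∃ s ∈ S₀ q, t = place q s} : Subgroup _) :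
      Set (IS Ω (Q × Λ) J → A)) ↔
      ∀ q, b ∈ StabOf (Subgroup.closure (S₀ q) : Set (IS Ω Λ J → A)) := by
  rw [← prodP_closure, stab_prodP]

end Family

section ZN

/-- Disjoint union of the residue rings of size at most `N`. -/
abbrev ZN (N : ℕ) : Type := Σ q : Fin N, ZMod (q.val + 1)

/-- Translations of `ZMod q` as permutations. -/
def tauM (q : ℕ) : Multiplicative (ZMod q) →* Perm (ZMod q) where
  toFun a := Equiv.addLeft (Multiplicative.toAdd a)
  map_one' := by ext x; simp
  map_mul' a b := by ext x; simp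

lemma tauM_inj (q : ℕ) : Function.Injective (tauM q) := by
  intro a b h
  have := congrArg (fun f : Perm (ZMod q) => f 0) h
  simpa [tauM] using this

/-- Translations of one of the residue rings. -/
def eN (N : ℕ) (q : Fin N) : Multiplicative (ZMod (q.val + 1)) →* Perm (ZN N) :=
  (Perm.sigmaCongrRightHom (fun q : Fin N => ZMod (q.val + 1))).comp
    ((MonoidHom.mulSingle (fun q : Fin N => Perm (ZMod (q.val + 1))) q).comp (tauM (q.val + 1)))

lemma eN_inj (N : ℕ) (q : Fin N) : Function.Injective (eN N q) := by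
  intro a b h
  have h1 := Perm.sigmaCongrRightHom_injective h
  have h2 := Pi.mulSingle_injective (M := fun q : Fin N => Perm (ZMod (q.val + 1))) q h1
  exact tauM_inj _ h2

lemma eN_comm (N : ℕ) (q q' : Fin N) (a : Multiplicative (ZMod (q.val + 1)))
    (a' : Multiplicative (ZMod (q'.val + 1))) : eN N q a * eN N q' a' = eN N q' a' * eN N q a := by
  have h : (MonoidHom.mulSingle (fun q : Fin N => Perm (ZMod (q.val + 1))) q) (tauM (q.val + 1) a) *
      (MonoidHom.mulSingle (fun q : Fin N => Perm (ZMod (q.val + 1))) q') (tauM (q'.val + 1) a') =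
      (MonoidHom.mulSingle (fun q : Fin N => Perm (ZMod (q.val + 1))) q') (tauM (q'.val + 1) a') *
      (MonoidHom.mulSingle (fun q : Fin N => Perm (ZMod (q.val + 1))) q)
        (tauM (q.val + 1) a) := by
    by_cases hq : q = q'
    · subst hq
      rw [← map_mul, ← map_mul, ← map_mul, ← map_mul, mul_comm]
    · exact Pi.mulSingle_commute hq _ _
  simp only [eN, MonoidHom.comp_apply]
  rw [← map_mul, ← map_mul, h]

lemma card_ZN (N : ℕ) : Nat.card (ZN N) ≤ N * N := by
  rw [Nat.card_sigma]
  calc ∑ q : Fin N, Nat.card (ZMod (q.val + 1)) ≤ ∑ _q : Fin N, N := by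
        apply Finset.sum_le_sum
        intro q _
        rw [Nat.card_zmod]
        omega
    _ = N * N := by rw [Finset.sum_const, Finset.card_univ, Fintype.card_fin, smul_eq_mul]

end ZN

section Closure

variable {Ω : Type}

/-- All permutations preserving every `G`-invariant code over `ZMod q` on labelled tuples. -/
def ccq (q k : ℕ) (G : Subgroup (Perm Ω)) : Set (Perm Ω) :=
  {b | ∀ (m : ℕ) (R : AddSubgroup ((Fin k → Ω) × Fin m → ZMod q)),
    (∀ g ∈ G, ∀ r ∈ R, (fun i : (Fin k → Ω) × Fin m => r (⇑g ∘ i.1, i.2)) ∈ R) →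
      ∀ r, r ∈ R ↔ (fun i : (Fin k → Ω) × Fin m => r (⇑b ∘ i.1, i.2)) ∈ R}

theorem mem_ccq_iff [Fintype Ω] (q k : ℕ) [NeZero q] (G : Subgroup (Perm Ω)) (b : Perm Ω) :
    b ∈ ccq q k G ↔ tm q b ∈ span q (Fin k) G := by
  classical
  constructor
  · intro h
    let e : (Fin k → Ω) ≃ Fin (Fintype.card (Fin k → Ω)) := Fintype.equivFin _
    let φ : ((Fin k → Ω) × Fin (Fintype.card (Fin k → Ω)) → ZMod q) →+
        (IS Ω (Fin k → Ω) (Fin k) → ZMod q) :=
      { toFun := fun r i => r (i.1, e i.2)
        map_zero' := rfl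
        map_add' := fun _ _ => rfl }
    have h1 := (h _ ((span q (Fin k) G).comap φ) (by
      intro g hg r hr
      have h2 : tm q g ∈ span q (Fin k) G := AddSubgroup.subset_closure ⟨g, hg, rfl⟩
      exact pull_span q h2 hr) (fun i => tm q (1 : Perm Ω) (i.1, e.symm i.2))).mp (by
        rw [AddSubgroup.mem_comap]
        have h3 : φ (fun i => tm q (1 : Perm Ω) (i.1, e.symm i.2)) = tm q 1 := by
          funext i
          change tm q (1 : Perm Ω) (i.1, e.symm (e i.2)) = _
          rw [Equiv.symm_apply_apply]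
        rw [h3]
        exact AddSubgroup.subset_closure ⟨1, G.one_mem, rfl⟩)
    rw [AddSubgroup.mem_comap] at h1
    have h3 : φ (fun i : (Fin k → Ω) × Fin (Fintype.card (Fin k → Ω)) =>
        tm q (1 : Perm Ω) (⇑b ∘ i.1, e.symm i.2)) = tm q b := by
      funext i
      change tm q (1 : Perm Ω) (⇑b ∘ i.1, e.symm (e i.2)) = _
      rw [Equiv.symm_apply_apply]
      rfl
    rw [← h3]
    exact h1
  · intro h m R hR
    exact stab_of_pull (R := (R : Set (IS Ω (Fin m) (Fin k) → ZMod q)))
      (pres_of_span q h (R := R) hR)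

/-- The group of all permutations preserving every `G`-invariant code over `ZMod q`, for all
`q` between `1` and `N`, on labelled `k`-tuples. -/
def ccN (N k : ℕ) (G : Subgroup (Perm Ω)) : Subgroup (Perm Ω) where
  carrier := {b | ∀ q, 1 ≤ q → q ≤ N → ∀ (m : ℕ) (R : AddSubgroup ((Fin k → Ω) × Fin m → ZMod q)),
    (∀ g ∈ G, ∀ r ∈ R, (fun i : (Fin k → Ω) × Fin m => r (⇑g ∘ i.1, i.2)) ∈ R) →
      ∀ r, r ∈ R ↔ (fun i : (Fin k → Ω) × Fin m => r (⇑b ∘ i.1, i.2)) ∈ R}
  one_mem' := fun q _ _ m R _ r => Iff.rfl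
  mul_mem' := by
    intro a b ha hb q h1 h2 m R hR r
    rw [ha q h1 h2 m R hR r, hb q h1 h2 m R hR]
    exact Iff.rfl
  inv_mem' := by
    intro a ha q hq1 hq2 m R hR r
    have h1 := ha q hq1 hq2 m R hR (fun i : (Fin k → Ω) × Fin m => r (⇑(a⁻¹) ∘ i.1, i.2))
    have h2 : (fun i : (Fin k → Ω) × Fin m => r (⇑(a⁻¹) ∘ (⇑a ∘ i.1), i.2)) = r := by
      funext i
      rw [inv_comp]
    change r ∈ R ↔ _
    rw [h1]
    change r ∈ R ↔ (fun i : (Fin k → Ω) × Fin m => r (⇑(a⁻¹) ∘ (⇑a ∘ i.1), i.2)) ∈ R
    rw [h2]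

/-- The generators of the group of functions attached to `G`. -/
noncomputable def fG (N : ℕ) (J : Type) (q : Fin N) (g : Perm Ω) :
    IS Ω (Fin N × (J → Ω)) J → Perm (ZN N) :=
  place q (expo (eN N q) (tm (q.val + 1) g))

lemma pull_fG (N : ℕ) (J : Type) (q : Fin N) (g b : Perm Ω) :
    pull b (fG N J q g) = fG N J q (g * b) := by
  rw [fG, pull_place]
  change place q (expo (eN N q) (pull b (tm (q.val + 1) g))) = _
  rw [pull_tm]
  rfl

theorem stab_fG [Fintype Ω] (N k : ℕ) (G : Subgroup (Perm Ω)) (b : Perm Ω) :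
    b ∈ StabOf ((Subgroup.closure {t | ∃ q : Fin N, ∃ g ∈ G, t = fG N (Fin k) q g} : Subgroup _) :
      Set (IS Ω (Fin N × (Fin k → Ω)) (Fin k) → Perm (ZN N))) ↔ b ∈ ccN N k G := by
  have h1 : {t | ∃ q : Fin N, ∃ g ∈ G, t = fG N (Fin k) q g} =
      {t | ∃ q : Fin N, ∃ s ∈ expo (eN N q) '' (tm (J₀ := Fin k) (q.val + 1) '' (G : Set (Perm Ω))),
        t = place q s} := by
    ext t
    constructor
    · rintro ⟨q, g, hg, rfl⟩
      exact ⟨q, _, ⟨_, ⟨g, hg, rfl⟩, rfl⟩, rfl⟩
    · rintro ⟨q, _, ⟨_, ⟨g, hg, rfl⟩, rfl⟩, rfl⟩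
      exact ⟨q, g, hg, rfl⟩
  rw [h1, stab_family]
  have h2 : ∀ q : Fin N, b ∈ StabOf ((Subgroup.closure (expo (eN N q) ''
      (tm (J₀ := Fin k) (q.val + 1) '' (G : Set (Perm Ω)))) : Subgroup _) :
        Set (IS Ω (Fin k → Ω) (Fin k) → Perm (ZN N))) ↔ b ∈ ccq (q.val + 1) k G := by
    intro q
    rw [stab_expo (eN_inj N q)]
    change b ∈ StabOf (span (q.val + 1) (Fin k) G :
      Set (IS Ω (Fin k → Ω) (Fin k) → ZMod (q.val + 1))) ↔ _
    rw [stab_span, mem_ccq_iff]
  simp only [h2]
  constructor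
  · intro h q hq1 hq2
    have h3 := h ⟨q - 1, by omega⟩
    have h4 : q - 1 + 1 = q := by omega
    simp only [h4] at h3
    exact h3
  · intro h q
    exact h (q.val + 1) (by omega) (by omega)

end Closure

end Pool.Agent.Helper175_Enc
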