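import Pool.Agent.Helper175_Enc.Gauge

/-!
Elements of the normaliser of `K p pos rho T` act on the point set.
-/

set_option autoImplicit false

namespace Pool.Agent.Helper175_Enc

open Equiv

lemma inv_app {α : Type*} (π : Perm α) (x : α) : π⁻¹ (π x) = x := π.symm_apply_apply x

lemma app_inv {α : Type*} (π : Perm α) (x : α) : π (π⁻¹ x) = x := π.apply_symm_apply x

lemma perm_pow_prime {Z : Type} [Fintype Z] {q : ℕ} (hq : q.Prime) (hbig : Fintype.card Z < q)
    {s : Perm Z} (h : s ^ q = 1) : s = 1 := by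
  classical
  have h1 : orderOf s ∣ q := orderOf_dvd_of_pow_eq_one h
  have h2 : orderOf s ∣ Nat.factorial (Fintype.card Z) := by
    rw [← Fintype.card_perm]
    exact orderOf_dvd_card
  rcases (Nat.dvd_prime hq).mp h1 with h3 | h3
  · exact orderOf_eq_one_iff.mp h3
  · rw [h3, hq.dvd_factorial] at h2
    omega

lemma zmod_smul {q m : ℕ} (hq : q.Prime) (hm : ¬ q ∣ m) {x : ZMod q} (h : m • x = 0) :
    x = 0 := by
  have := Fact.mk hq
  rw [nsmul_eq_mul, mul_eq_zero] at h
  rcases h with h | h
  · exact absurd ((ZMod.natCast_eq_zero_iff m q).mp h) hm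
  · exact h

lemma not_dvd_fact {Z : Type} [Fintype Z] {q : ℕ} (hq : q.Prime) (hbig : Fintype.card Z < q) :
    ¬ q ∣ Nat.factorial (Fintype.card Z) := by
  rw [hq.dvd_factorial]; omega

section Main

variable {P I J W Z : Type}
variable (p : Option J → ℕ) (pos : I → J → P) (rho : W → P)

lemma gg_mem_K [DecidableEq J] (T : Subgroup (I → Perm Z)) (j : J) (e : P → ZMod (p (some j))) :
    gg (Z := Z) p pos rho j e ∈ K p pos rho T :=
  ⟨1, T.one_mem, _, _, rfl⟩

lemma gg_pow [DecidableEq J] (j : J) (e : P → ZMod (p (some j))) :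
    gg (Z := Z) p pos rho j e ^ (p (some j)) = 1 := by
  rw [gg, act_pow, one_pow, smul_zero]
  have : (p (some j)) • (Pi.single j e : ∀ j : J, P → ZMod (p (some j))) = 0 := by
    rw [← Pi.single_smul]
    have h0 : (p (some j)) • e = 0 := by
      funext x
      rw [Pi.smul_apply, nsmul_eq_mul, ZMod.natCast_self, zero_mul]
      rfl
    rw [h0, Pi.single_zero]
  rw [this, act_one]

lemma sep_pow (a : ZMod (p none)) :
    act (Z := Z) p pos rho 1 0 a ^ (p none) = 1 := by
  rw [act_pow, one_pow, smul_zero]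
  have : (p none) • a = 0 := by rw [nsmul_eq_mul, ZMod.natCast_self, zero_mul]
  rw [this, act_one]

variable [Fintype Z] [Nonempty I] [Nonempty Z]

lemma pow_gauge [DecidableEq J] (hp : ∀ o, (p o).Prime) (hinj : Function.Injective p)
    (hbig : ∀ o, Fintype.card Z < p o) (hrho : Function.Surjective rho)
    {T : Subgroup (I → Perm Z)} {x : Perm (X I J W Z p)} (hx : x ∈ K p pos rho T) {j : J}
    (h : x ^ (p (some j)) = 1) : ∃ e, x = gg p pos rho j e := by
  obtain ⟨t, ht, e, a, rfl⟩ := hx
  rw [act_pow] at h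
  obtain ⟨h1, h2, h3⟩ := act_eq_one p pos rho hrho h
  have ht1 : t = 1 := by
    funext i
    exact perm_pow_prime (hp (some j)) (hbig (some j)) (congrFun h1 i)
  have ha : a = 0 := by
    refine zmod_smul (hp none) ?_ h3
    intro hd
    have := (Nat.prime_dvd_prime_iff_eq (hp none) (hp (some j))).mp hd
    exact absurd (hinj this) (by simp)
  have he : e = Pi.single j (e j) := by
    funext j'
    by_cases hj : j' = j
    · subst hj; simp
    · rw [Pi.single_eq_of_ne hj]
      funext y
      refine zmod_smul (hp (some j')) ?_ (congrFun (congrFun h2 j') y)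
      intro hd
      have := (Nat.prime_dvd_prime_iff_eq (hp (some j')) (hp (some j))).mp hd
      exact hj (Option.some.inj (hinj this))
  refine ⟨e j, ?_⟩
  rw [gg, ← he, ht1, ha]

lemma pow_sep (hp : ∀ o, (p o).Prime) (hinj : Function.Injective p)
    (hbig : ∀ o, Fintype.card Z < p o) (hrho : Function.Surjective rho)
    {T : Subgroup (I → Perm Z)} {x : Perm (X I J W Z p)} (hx : x ∈ K p pos rho T)
    (h : x ^ (p none) = 1) : ∃ a, x = act p pos rho 1 0 a := by
  obtain ⟨t, ht, e, a, rfl⟩ := hx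
  rw [act_pow] at h
  obtain ⟨h1, h2, h3⟩ := act_eq_one p pos rho hrho h
  have ht1 : t = 1 := by
    funext i
    exact perm_pow_prime (hp none) (hbig none) (congrFun h1 i)
  have he : e = 0 := by
    funext j' y
    refine zmod_smul (hp (some j')) ?_ (congrFun (congrFun h2 j') y)
    intro hd
    have := (Nat.prime_dvd_prime_iff_eq (hp (some j')) (hp none)).mp hd
    exact absurd (hinj this) (by simp)
  exact ⟨a, by rw [ht1, he]⟩

variable {p pos rho}

omit [Nonempty I] [Nonempty Z] [Fintype Z] in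
lemma conj_mem {T : Subgroup (I → Perm Z)} {π : Perm (X I J W Z p)}
    (hπ : π ∈ Subgroup.normalizer (K p pos rho T : Set (Perm (X I J W Z p))))
    {x : Perm (X I J W Z p)} (hx : x ∈ K p pos rho T) : π⁻¹ * x * π ∈ K p pos rho T :=
  (Subgroup.mem_normalizer_iff''.mp hπ x).mp hx

omit [Nonempty I] [Nonempty Z] [Fintype Z] in
lemma conj_pow' (π x : Perm (X I J W Z p)) {m : ℕ} (h : x ^ m = 1) :
    (π⁻¹ * x * π) ^ m = 1 := by
  have h1 := conj_pow (i := m) (a := π⁻¹) (b := x)
  rw [inv_inv] at h1
  rw [h1, h, mul_one, inv_mul_cancel]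

/-- Points with equal `j`-position are mapped to points with equal `j`-position. -/
lemma pos_congr [DecidableEq J] (hp : ∀ o, (p o).Prime) (hinj : Function.Injective p)
    (hbig : ∀ o, Fintype.card Z < p o) (hrho : Function.Surjective rho)
    {T : Subgroup (I → Perm Z)} {π : Perm (X I J W Z p)}
    (hπ : π ∈ Subgroup.normalizer (K p pos rho T : Set (Perm (X I J W Z p))))
    (j : J) {y y' : X I J W Z p} (h : posX p pos rho y j = posX p pos rho y' j) :
    posX p pos rho (π y) j = posX p pos rho (π y') j := by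
  classical
  set e : P → ZMod (p (some j)) := Pi.single (posX p pos rho (π y) j) 1 with he
  have := Fact.mk (hp (some j))
  obtain ⟨e', he'⟩ := pow_gauge p pos rho hp hinj hbig hrho
    (conj_mem hπ (gg_mem_K p pos rho T j e)) (conj_pow' π _ (gg_pow p pos rho j e))
  have key : ∀ z : X I J W Z p, e (posX p pos rho (π z) j) = 0 ↔ e' (posX p pos rho z j) = 0 := by
    intro z
    rw [← gg_fix, ← gg_fix, ← he']
    simp only [Perm.mul_apply]
    rw [Perm.inv_eq_iff_eq]
  have h1 : e (posX p pos rho (π y) j) ≠ 0 := by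
    rw [he, Pi.single_eq_same]; exact one_ne_zero
  have h2 : e (posX p pos rho (π y') j) ≠ 0 := by
    rw [Ne, key, ← h, ← key]; exact h1
  by_contra hne
  exact h2 (by rw [he, Pi.single_eq_of_ne (Ne.symm hne)])

/-- The class `inr` is preserved. -/
lemma inr_of_inr (hp : ∀ o, (p o).Prime) (hinj : Function.Injective p)
    (hbig : ∀ o, Fintype.card Z < p o) (hrho : Function.Surjective rho)
    {T : Subgroup (I → Perm Z)} {π : Perm (X I J W Z p)}
    (hπ : π ∈ Subgroup.normalizer (K p pos rho T : Set (Perm (X I J W Z p))))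
    (w : W) (u : U J p) : ∃ w' u', π (Sum.inr (w, u)) = Sum.inr (w', u') := by
  have := Fact.mk (hp none)
  obtain ⟨a, ha⟩ := pow_sep p pos rho hp hinj hbig hrho
    (conj_mem hπ (⟨1, T.one_mem, 0, 1, rfl⟩ : act p pos rho 1 0 1 ∈ K p pos rho T))
    (conj_pow' π _ (sep_pow p pos rho 1))
  have h1 : (π⁻¹ * act (Z := Z) p pos rho 1 0 1 * π : Perm (X I J W Z p)) (Sum.inr (w, u)) =
      Sum.inr (w, u) := by
    rw [ha]; simp
  simp only [Perm.mul_apply] at h1
  rw [Perm.inv_eq_iff_eq] at h1
  rcases hy : π (Sum.inr (w, u)) with ⟨i, z, u', v⟩ | ⟨w', u'⟩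
  · rw [hy] at h1
    simp at h1
  · exact ⟨w', u', rfl⟩

/-- The induced permutation of the point set, as a function. -/
lemma exists_fun [DecidableEq J] [Nonempty J] (hp : ∀ o, (p o).Prime)
    (hinj : Function.Injective p)
    (hbig : ∀ o, Fintype.card Z < p o) (hrho : Function.Surjective rho)
    {T : Subgroup (I → Perm Z)} {π : Perm (X I J W Z p)}
    (hπ : π ∈ Subgroup.normalizer (K p pos rho T : Set (Perm (X I J W Z p)))) :
    ∃ f : P → P, ∀ y j, posX p pos rho (π y) j = f (posX p pos rho y j) := by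
  obtain ⟨j₀⟩ := ‹Nonempty J›
  choose w hw using hrho
  refine ⟨fun x => posX p pos rho (π (Sum.inr (w x, 0))) j₀, fun y j => ?_⟩
  have h1 : posX p pos rho (π y) j =
      posX p pos rho (π (Sum.inr (w (posX p pos rho y j), 0))) j := by
    refine pos_congr hp hinj hbig (fun x => ⟨w x, hw x⟩) hπ j ?_
    simp [hw]
  rw [h1]
  obtain ⟨w', u', h2⟩ := inr_of_inr hp hinj hbig (fun x => ⟨w x, hw x⟩) hπ
    (w (posX p pos rho y j)) 0
  simp only [h2, posX_inr]

lemma exists_perm [DecidableEq J] [Nonempty J] (hp : ∀ o, (p o).Prime)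
    (hinj : Function.Injective p)
    (hbig : ∀ o, Fintype.card Z < p o) (hrho : Function.Surjective rho)
    {T : Subgroup (I → Perm Z)} {π : Perm (X I J W Z p)}
    (hπ : π ∈ Subgroup.normalizer (K p pos rho T : Set (Perm (X I J W Z p)))) :
    ∃ β : Perm P, ∀ y j, posX p pos rho (π y) j = β (posX p pos rho y j) := by
  obtain ⟨f, hf⟩ := exists_fun hp hinj hbig hrho hπ
  obtain ⟨g, hg⟩ := exists_fun hp hinj hbig hrho (Subgroup.inv_mem _ hπ)
  obtain ⟨j₀⟩ := ‹Nonempty J›
  refine ⟨⟨f, g, ?_, ?_⟩, hf⟩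
  · intro x
    obtain ⟨w, rfl⟩ := hrho x
    have h1 := hf (Sum.inr (w, 0)) j₀
    have h2 := hg (π (Sum.inr (w, 0))) j₀
    rw [inv_app, h1] at h2
    simpa using h2.symm
  · intro x
    obtain ⟨w, rfl⟩ := hrho x
    have h1 := hg (Sum.inr (w, 0)) j₀
    have h2 := hf (π⁻¹ (Sum.inr (w, 0))) j₀
    rw [app_inv, h1] at h2
    simpa using h2.symm

/-- The permutation of the point set preserves the number of outer blocks over a point. -/
lemma fibre_card [Fintype P] [Fintype J] [Fintype W] [Fintype I] [DecidableEq P]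
    [DecidableEq J] [Nonempty J]
    (hp : ∀ o, (p o).Prime) (hinj : Function.Injective p)
    (hbig : ∀ o, Fintype.card Z < p o) (hrho : Function.Surjective rho)
    {T : Subgroup (I → Perm Z)} {π : Perm (X I J W Z p)}
    (hπ : π ∈ Subgroup.normalizer (K p pos rho T : Set (Perm (X I J W Z p))))
    {β : Perm P} (hβ : ∀ y j, posX p pos rho (π y) j = β (posX p pos rho y j)) (x : P) :
    Fintype.card {w // rho w = β x} = Fintype.card {w // rho w = x} := by
  classical
  have hne : ∀ o, NeZero (p o) := fun o => ⟨(hp o).ne_zero⟩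
  obtain ⟨j₀⟩ := ‹Nonempty J›
  have hinr : ∀ y : X I J W Z p, (∃ w u, y = Sum.inr (w, u)) ↔ ∃ w u, π y = Sum.inr (w, u) := by
    intro y
    constructor
    · rintro ⟨w, u, rfl⟩
      exact inr_of_inr hp hinj hbig hrho hπ w u
    · rintro ⟨w, u, h⟩
      obtain ⟨w', u', h'⟩ := inr_of_inr hp hinj hbig hrho (Subgroup.inv_mem _ hπ) w u
      rw [← h, inv_app] at h'
      exact ⟨w', u', h'⟩
  have e1 : ∀ x : P, {y : X I J W Z p // (∃ w u, y = Sum.inr (w, u)) ∧ posX p pos rho y j₀ = x} ≃
      {w // rho w = x} × U J p := fun x =>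
    { toFun := fun y => match y with
        | ⟨Sum.inl _, h⟩ => absurd h.1 (by simp)
        | ⟨Sum.inr (w, u), h⟩ => (⟨w, h.2⟩, u)
      invFun := fun q => ⟨Sum.inr (q.1.1, q.2), ⟨⟨_, _, rfl⟩, q.1.2⟩⟩
      left_inv := by
        rintro ⟨⟨i, z, u, v⟩ | ⟨w, u⟩, h⟩
        · exact absurd h.1 (by simp)
        · rfl
      right_inv := by rintro ⟨⟨w, h⟩, u⟩; rfl }
  have e2 : {y : X I J W Z p // (∃ w u, y = Sum.inr (w, u)) ∧ posX p pos rho y j₀ = x} ≃
      {y : X I J W Z p // (∃ w u, y = Sum.inr (w, u)) ∧ posX p pos rho y j₀ = β x} :=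
    π.subtypeEquiv (fun y => by rw [← hinr, hβ, β.apply_eq_iff_eq])
  have h1 := Fintype.card_congr ((e1 (β x)).symm.trans (e2.symm.trans (e1 x)))
  rw [Fintype.card_prod, Fintype.card_prod] at h1
  exact Nat.eq_of_mul_eq_mul_right Fintype.card_pos h1

/-- Inner blocks are mapped to inner blocks, following the positions. -/
lemma inl_of_inl (hp : ∀ o, (p o).Prime) (hinj : Function.Injective p)
    (hbig : ∀ o, Fintype.card Z < p o) (hrho : Function.Surjective rho)
    {T : Subgroup (I → Perm Z)} {π : Perm (X I J W Z p)}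
    (hπ : π ∈ Subgroup.normalizer (K p pos rho T : Set (Perm (X I J W Z p))))
    {β : Perm P} (hβ : ∀ y j, posX p pos rho (π y) j = β (posX p pos rho y j))
    (i : I) (z : Z) (u : U J p) (v : ZMod (p none)) :
    ∃ i' z' u' v', π (Sum.inl (i, z, u, v)) = Sum.inl (i', z', u', v') ∧
      pos i' = fun j => β (pos i j) := by
  rcases hy : π (Sum.inl (i, z, u, v)) with ⟨i', z', u', v'⟩ | ⟨w', u'⟩
  · refine ⟨i', z', u', v', rfl, ?_⟩
    funext j
    have := hβ (Sum.inl (i, z, u, v)) j
    rw [hy] at this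
    simpa using this
  · obtain ⟨w'', u'', h'⟩ := inr_of_inr hp hinj hbig hrho (Subgroup.inv_mem _ hπ) w' u'
    rw [← hy, inv_app] at h'
    exact absurd h' (by simp)

/-- The automorphism of the code induced by an element of the normaliser. -/
lemma exists_theta [Fintype J] [DecidableEq J] [Nonempty J]
    (hp : ∀ o, (p o).Prime) (hinj : Function.Injective p)
    (hbig : ∀ o, Fintype.card Z < p o) (hrho : Function.Surjective rho)
    (hpos : Function.Injective pos)
    {T : Subgroup (I → Perm Z)} {π : Perm (X I J W Z p)}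
    (hπ : π ∈ Subgroup.normalizer (K p pos rho T : Set (Perm (X I J W Z p))))
    {β : Perm P} (hβ : ∀ y j, posX p pos rho (π y) j = β (posX p pos rho y j)) :
    ∃ θ : T →* T, Function.Injective θ ∧
      ∀ (t : T) (i i' : I), (pos i' = fun j => β (pos i j)) → ((t : I → Perm Z) i = 1 ↔
        (θ t : I → Perm Z) i' = 1) := by
  classical
  have hex : ∀ t : T, ∃ t' : T, π * act p pos rho (t : I → Perm Z) 0 0 * π⁻¹ =
      act p pos rho (t' : I → Perm Z) 0 0 := by
    rintro ⟨t, ht⟩
    have h1 : π * act p pos rho t 0 0 * π⁻¹ ∈ K p pos rho T :=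
      (Subgroup.mem_normalizer_iff.mp hπ _).mp ⟨t, ht, 0, 0, rfl⟩
    obtain ⟨t', ht', e, a, h2⟩ := h1
    set M := Nat.factorial (Fintype.card Z) with hM
    have h3 : (π * act p pos rho t 0 0 * π⁻¹) ^ M = 1 := by
      rw [conj_pow, act_pow]
      have : t ^ M = 1 := by
        funext i
        rw [Pi.pow_apply, hM, ← Fintype.card_perm, pow_card_eq_one]
        rfl
      rw [this, smul_zero, smul_zero, act_one, mul_one, mul_inv_cancel]
    rw [h2, act_pow] at h3
    obtain ⟨-, h4, h5⟩ := act_eq_one p pos rho hrho h3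
    have he : e = 0 := by
      funext j y
      exact zmod_smul (hp _) (not_dvd_fact (hp _) (hbig _)) (congrFun (congrFun h4 j) y)
    have ha : a = 0 := zmod_smul (hp _) (not_dvd_fact (hp _) (hbig _)) h5
    exact ⟨⟨t', ht'⟩, by rw [h2, he, ha]⟩
  choose f hf using hex
  have hinjact : ∀ t t' : T, act p pos rho (t : I → Perm Z) 0 0 =
      act p pos rho (t' : I → Perm Z) 0 0 → t = t' := fun t t' h =>
    Subtype.ext (act_inj p pos rho hrho h).1
  have hact : ∀ t t' : I → Perm Z, act p pos rho (t * t') 0 0 =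
      act p pos rho t 0 0 * act p pos rho t' 0 0 := by
    intro t t'
    rw [act_mul, add_zero, add_zero]
  refine ⟨MonoidHom.mk' f ?_, ?_, ?_⟩
  · intro a b
    apply hinjact
    rw [← hf, Subgroup.coe_mul, Subgroup.coe_mul, hact, hact, ← hf, ← hf]
    group
  · intro a b h
    apply hinjact
    have h1 : f a = f b := h
    have h2 := hf a
    rw [h1, ← hf b] at h2
    exact mul_left_cancel (mul_right_cancel h2)
  · intro t i i' hi
    have hfix : ∀ (s : I → Perm Z) (k : I), s k = 1 ↔ ∀ z u v,
        act (W := W) p pos rho s 0 0 (Sum.inl (k, z, u, v)) = Sum.inl (k, z, u, v) := by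
      intro s k
      constructor
      · intro h z u v
        simp [h]
      · intro h
        ext z
        have := h z 0 0
        simp only [act_inl, Sum.inl.injEq, Prod.mk.injEq, true_and] at this
        exact this.1
    change (t : I → Perm Z) i = 1 ↔ (f t : I → Perm Z) i' = 1
    rw [hfix, hfix, ← hf]
    have hcomm : ∀ y : X I J W Z p, (π * act p pos rho (t : I → Perm Z) 0 0 * π⁻¹) (π y) = π y ↔
        act p pos rho (t : I → Perm Z) 0 0 y = y := by
      intro y
      simp only [Perm.mul_apply, inv_app]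
      exact π.apply_eq_iff_eq
    constructor
    · intro h z' u' v'
      have hβ' : ∀ y j, posX p pos rho (π⁻¹ y) j = β⁻¹ (posX p pos rho y j) := by
        intro y j
        have := hβ (π⁻¹ y) j
        rw [app_inv] at this
        rw [this, inv_app]
      obtain ⟨k, z, u, v, h1, h2⟩ := inl_of_inl hp hinj hbig hrho
        (Subgroup.inv_mem _ hπ) hβ' i' z' u' v'
      have hk : k = i := by
        apply hpos
        rw [h2, hi]
        funext j
        exact inv_app β _
      subst hk
      have h3 : (Sum.inl (i', z', u', v') : X I J W Z p) = π (Sum.inl (k, z, u, v)) := by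
        rw [← h1, app_inv]
      rw [h3]
      exact (hcomm _).mpr (h z u v)
    · intro h z u v
      obtain ⟨k, z', u', v', h1, h2⟩ := inl_of_inl hp hinj hbig hrho hπ hβ i z u v
      have hk : k = i' := by
        apply hpos
        rw [h2, hi]
      subst hk
      rw [← hcomm, h1]
      exact h z' u' v'

end Main

end Pool.Agent.Helper175_Enc
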