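import Pool.Agent.Helper175_Enc.Vals

/-!
The normaliser of a code closure as the stabiliser of a group of functions on pairs of tuples.
-/

set_option autoImplicit false

namespace Pool.Agent.Helper175_Enc

open Equiv

section N2

variable {Ω J : Type}

/-- A pair of tuples as one tuple. -/
def pr (γ δ : J → Ω) : J ⊕ J → Ω := Sum.elim γ δ

open Classical in
/-- The graph of `g` on pairs of tuples. -/
noncomputable def tm2 (q : ℕ) (g : Perm Ω) : IS Ω Unit (J ⊕ J) → ZMod q :=
  fun i => if ⇑g ∘ (i.1 ∘ Sum.inl) = i.1 ∘ Sum.inr then 1 else 0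

/-- From labelled tuples to pairs of tuples. -/
def psi (q : ℕ) : (IS Ω (J → Ω) J → ZMod q) →+ (IS Ω Unit (J ⊕ J) → ZMod q) where
  toFun r i := r (i.1 ∘ Sum.inl, i.1 ∘ Sum.inr)
  map_zero' := rfl
  map_add' _ _ := rfl

lemma psi_inj (q : ℕ) : Function.Injective (psi (Ω := Ω) (J := J) q) := by
  intro r r' h
  funext i
  have := congrFun h (pr i.1 i.2, ())
  exact this

lemma psi_tm (q : ℕ) (g : Perm Ω) : psi (J := J) q (tm q g) = tm2 q g := rfl

lemma psi_span (q : ℕ) (G : Subgroup (Perm Ω)) :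
    AddSubgroup.closure (tm2 (J := J) q '' (G : Set (Perm Ω))) = (span q J G).map (psi q) := by
  rw [span, AddMonoidHom.map_closure, Set.image_image]
  rfl

lemma tm2_mem (q : ℕ) (G : Subgroup (Perm Ω)) (x : Perm Ω) :
    tm2 (J := J) q x ∈ AddSubgroup.closure (tm2 (J := J) q '' (G : Set (Perm Ω))) ↔
      tm q x ∈ span q J G := by
  rw [psi_span, ← psi_tm]
  constructor
  · rintro ⟨r, hr, h⟩
    rw [← psi_inj q h]; exact hr
  · intro h
    exact ⟨_, h, rfl⟩

lemma pull_tm2 (q : ℕ) (b g : Perm Ω) :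
    pull b (tm2 (J := J) q g) = tm2 q (b⁻¹ * g * b) := by
  funext i
  simp only [pull, tm2]
  congr 1
  apply propext
  constructor
  · intro h
    have h1 : ⇑g ∘ (⇑b ∘ (i.1 ∘ Sum.inl)) = ⇑b ∘ (i.1 ∘ Sum.inr) := h
    have h2 := congrArg (fun x => ⇑(b⁻¹) ∘ x) h1
    simp only [inv_comp] at h2
    exact h2
  · intro h
    have h1 : ⇑(b⁻¹) ∘ (⇑g ∘ (⇑b ∘ (i.1 ∘ Sum.inl))) = i.1 ∘ Sum.inr := h
    have h2 := congrArg (fun x => ⇑b ∘ x) h1
    simp only [comp_inv] at h2
    exact h2

end N2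

section NN

variable {Ω : Type}

/-- The generators for the normaliser. -/
noncomputable def nG (N : ℕ) (J : Type) (q : Fin N) (g : Perm Ω) :
    IS Ω (Fin N × Unit) (J ⊕ J) → Perm (ZN N) :=
  place q (expo (eN N q) (tm2 (q.val + 1) g))

lemma nG_val {J : Type} (N : ℕ) (q : Fin N) (g : Perm Ω) (i : IS Ω (Fin N × Unit) (J ⊕ J)) :
    ∃ o, nG N J q g i = vN N o := by
  simp only [nG, place, expo, tm2]
  split_ifs
  · exact ⟨some q, rfl⟩
  · exact ⟨none, by simp [vN]⟩
  · exact ⟨none, rfl⟩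

theorem stab_nG [Fintype Ω] (N k : ℕ) (G : Subgroup (Perm Ω)) (b : Perm Ω) :
    b ∈ StabOf ((Subgroup.closure {t | ∃ q : Fin N, ∃ g ∈ G, t = nG N (Fin k) q g} : Subgroup _) :
      Set (IS Ω (Fin N × Unit) (Fin k ⊕ Fin k) → Perm (ZN N))) ↔
      b ∈ Subgroup.normalizer (ccN N k G : Set (Perm Ω)) := by
  have h1 : {t | ∃ q : Fin N, ∃ g ∈ G, t = nG N (Fin k) q g} =
      {t | ∃ q : Fin N, ∃ s ∈ expo (eN N q) ''
        (tm2 (J := Fin k) (q.val + 1) '' (G : Set (Perm Ω))), t = place q s} := by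
    ext t
    constructor
    · rintro ⟨q, g, hg, rfl⟩
      exact ⟨q, _, ⟨_, ⟨g, hg, rfl⟩, rfl⟩, rfl⟩
    · rintro ⟨q, _, ⟨_, ⟨g, hg, rfl⟩, rfl⟩, rfl⟩
      exact ⟨q, g, hg, rfl⟩
  have hcc : ∀ x : Perm Ω, x ∈ ccN N k G ↔ ∀ q : Fin N, tm (q.val + 1) x ∈
      span (q.val + 1) (Fin k) G := by
    intro x
    constructor
    · intro h q
      rw [← mem_ccq_iff]
      exact h (q.val + 1) (by omega) (by omega)
    · intro h q hq1 hq2
      have h3 := h ⟨q - 1, by omega⟩
      rw [← mem_ccq_iff] at h3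
      have h4 : q - 1 + 1 = q := by omega
      simp only [h4] at h3
      exact h3
  rw [h1, stab_family]
  have h2 : ∀ q : Fin N, b ∈ StabOf ((Subgroup.closure (expo (eN N q) ''
      (tm2 (J := Fin k) (q.val + 1) '' (G : Set (Perm Ω)))) : Subgroup _) :
        Set (IS Ω Unit (Fin k ⊕ Fin k) → Perm (ZN N))) ↔
      b ∈ StabOf (AddSubgroup.closure (tm2 (J := Fin k) (q.val + 1) '' (G : Set (Perm Ω))) :
        Set (IS Ω Unit (Fin k ⊕ Fin k) → ZMod (q.val + 1))) := by
    intro q
    rw [stab_expo (eN_inj N q)]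
  simp only [h2]
  constructor
  · intro h
    rw [← inv_mem_iff, Subgroup.mem_normalizer_iff]
    intro x
    rw [hcc, hcc]
    apply forall_congr'
    intro q
    rw [← tm2_mem, ← tm2_mem, inv_inv, ← pull_tm2]
    exact h q _
  · intro h q
    apply stab_of_pull
    intro r hr
    have hr' : r ∈ AddSubgroup.closure (tm2 (J := Fin k) (q.val + 1) '' (G : Set (Perm Ω))) := hr
    change pull b r ∈ AddSubgroup.closure (tm2 (J := Fin k) (q.val + 1) '' (G : Set (Perm Ω)))
    induction hr' using AddSubgroup.closure_induction with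
    | mem x hx =>
      obtain ⟨g, hg, rfl⟩ := hx
      rw [pull_tm2, tm2_mem]
      have h5 : g ∈ ccN N k G := by
        rw [hcc]
        intro q
        exact AddSubgroup.subset_closure ⟨g, hg, rfl⟩
      have h6 := (Subgroup.mem_normalizer_iff''.mp h g).mp h5
      exact (hcc _).mp h6 q
    | zero => exact AddSubgroup.zero_mem _
    | add x y hx' hy' hx hy => exact AddSubgroup.add_mem _ (hx hx') (hy hy')
    | neg x hx' hx => exact AddSubgroup.neg_mem _ (hx hx')

/-- Action on the first tuple of a pair. -/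
def act1 (Λ : Type) (J : Type) : Perm Ω →* Perm (IS Ω Λ (J ⊕ J)) where
  toFun g :=
    { toFun := fun i => (pr (⇑g ∘ (i.1 ∘ Sum.inl)) (i.1 ∘ Sum.inr), i.2)
      invFun := fun i => (pr (⇑(g⁻¹) ∘ (i.1 ∘ Sum.inl)) (i.1 ∘ Sum.inr), i.2)
      left_inv := by
        rintro ⟨ε, l⟩
        refine Prod.ext ?_ rfl
        funext j
        rcases j with j | j
        · exact inv_app g _
        · rfl
      right_inv := by
        rintro ⟨ε, l⟩
        refine Prod.ext ?_ rfl
        funext j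
        rcases j with j | j
        · exact app_inv g _
        · rfl }
  map_one' := by
    ext i
    · rcases i with ⟨ε, l⟩
      rename_i j
      rcases j with j | j <;> rfl
    · rfl
  map_mul' g h := by
    ext i
    · rename_i j
      rcases j with j | j <;> rfl
    · rfl

end NN

end Pool.Agent.Helper175_Enc
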