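import Pool.Agent.Helper175_Enc.Norm

/-!
Specialisation: index set of tuples of points with a label; the labels are rigid.
-/

set_option autoImplicit false

namespace Pool.Agent.Helper175_Enc

open Equiv

section Lift

variable {P I J W Z : Type}
variable (p : Option J → ℕ) {pos : I → J → P} {rho : W → P}

/-- The permutation that moves blocks. -/
def lift (bI : Perm I) (bW : Perm W) : Perm (X I J W Z p) :=
  Equiv.sumCongr (Equiv.prodCongr bI (Equiv.refl _)) (Equiv.prodCongr bW (Equiv.refl _))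

@[simp] lemma lift_inl (bI : Perm I) (bW : Perm W) (i : I) (q : Z × U J p × ZMod (p none)) :
    lift p bI bW (Sum.inl (i, q)) = Sum.inl (bI i, q) := rfl

@[simp] lemma lift_inr (bI : Perm I) (bW : Perm W) (w : W) (u : U J p) :
    lift (Z := Z) p bI bW (Sum.inr (w, u)) = Sum.inr (bW w, u) := rfl

lemma lift_act {β : Perm P} {bI : Perm I} {bW : Perm W}
    (hI : ∀ i, pos (bI i) = fun j => β (pos i j)) (hW : ∀ w, rho (bW w) = β (rho w))
    (t : I → Perm Z) (e : ∀ j : J, P → ZMod (p (some j))) (a : ZMod (p none)) :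
    lift p bI bW * act p pos rho (fun i => t (bI i)) (fun j x => e j (β x)) a * (lift p bI bW)⁻¹
      = act p pos rho t e a := by
  rw [mul_inv_eq_iff_eq_mul]
  ext y
  rcases y with ⟨i, z, u, v⟩ | ⟨w, u⟩
  · simp [hI]
  · simp [hW]

lemma lift_mem {β : Perm P} {bI : Perm I} {bW : Perm W}
    (hI : ∀ i, pos (bI i) = fun j => β (pos i j)) (hW : ∀ w, rho (bW w) = β (rho w))
    {T : Subgroup (I → Perm Z)} (hT : ∀ t : I → Perm Z, t ∈ T ↔ (fun i => t (bI i)) ∈ T) :
    lift p bI bW ∈ Subgroup.normalizer (K p pos rho T : Set (Perm (X I J W Z p))) := by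
  rw [Subgroup.mem_normalizer_iff]
  intro h
  constructor
  · rintro ⟨t, ht, e, a, rfl⟩
    refine ⟨fun i => t (bI⁻¹ i), ?_, fun j x => e j (β⁻¹ x), a, ?_⟩
    · rw [hT]
      simpa only [inv_app] using ht
    · have h2 := lift_act p hI hW (fun i => t (bI⁻¹ i)) (fun j x => e j (β⁻¹ x)) a
      simp only [inv_app] at h2
      exact h2
  · rintro ⟨t, ht, e, a, h1⟩
    rw [← lift_act p hI hW] at h1
    have h2 := mul_left_cancel (mul_right_cancel h1)
    rw [h2]
    exact ⟨_, (hT t).mp ht, _, _, rfl⟩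

end Lift

section Spec

variable (Ω Λ J₀ Z : Type) [Fintype Λ]

/-- Index set of the inner blocks. -/
abbrev IS : Type := (J₀ → Ω) × Λ

/-- Number of extra outer blocks of a label. -/
noncomputable def idx (l : Λ) : ℕ := (Fintype.equivFin Λ l).val

/-- Index set of the outer blocks. -/
abbrev WS : Type := Ω ⊕ (Σ l : Λ, Fin (idx Λ l + 2))

variable {Ω Λ J₀ Z}

lemma idx_inj {l l' : Λ} (h : idx Λ l = idx Λ l') : l = l' :=
  (Fintype.equivFin Λ).injective (Fin.ext h)

/-- Positions of the inner blocks. -/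
def posS (i : IS Ω Λ J₀) : Option J₀ → Ω ⊕ Λ
  | none => Sum.inr i.2
  | some j => Sum.inl (i.1 j)

/-- Positions of the outer blocks. -/
def rhoS : WS Ω Λ → Ω ⊕ Λ
  | Sum.inl x => Sum.inl x
  | Sum.inr l => Sum.inr l.1

omit [Fintype Λ] in
lemma posS_inj : Function.Injective (posS : IS Ω Λ J₀ → Option J₀ → Ω ⊕ Λ) := by
  rintro ⟨γ, l⟩ ⟨γ', l'⟩ h
  have h1 : l = l' := Sum.inr_injective (congrFun h none)
  have h2 : γ = γ' := by
    funext j
    exact Sum.inl_injective (congrFun h (some j))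
  rw [h1, h2]

lemma rhoS_surj : Function.Surjective (rhoS : WS Ω Λ → Ω ⊕ Λ) := by
  rintro (x | l)
  · exact ⟨Sum.inl x, rfl⟩
  · exact ⟨Sum.inr ⟨l, 0⟩, rfl⟩

lemma card_fibre_inl [Fintype Ω] [DecidableEq Ω] [DecidableEq Λ] (x : Ω) :
    Fintype.card {w : WS Ω Λ // rhoS w = Sum.inl x} = 1 := by
  rw [Fintype.card_eq_one_iff]
  refine ⟨⟨Sum.inl x, rfl⟩, ?_⟩
  rintro ⟨y | l, h⟩
  · have : y = x := Sum.inl_injective h
    subst this; rfl
  · exact absurd h (by simp [rhoS])

lemma card_fibre_inr [Fintype Ω] [DecidableEq Ω] [DecidableEq Λ] (l : Λ) :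
    Fintype.card {w : WS Ω Λ // rhoS w = Sum.inr l} = idx Λ l + 2 := by
  have e : {w : WS Ω Λ // rhoS w = Sum.inr l} ≃ Fin (idx Λ l + 2) :=
    { toFun := fun w => match w with
        | ⟨Sum.inl _, h⟩ => absurd h (by simp [rhoS])
        | ⟨Sum.inr ⟨l', a⟩, h⟩ =>
          ⟨a.val, by have h1 : l' = l := Sum.inr_injective h; rw [← h1]; exact a.isLt⟩
      invFun := fun a => ⟨Sum.inr ⟨l, a⟩, rfl⟩
      left_inv := by
        rintro ⟨y | ⟨l', a⟩, h⟩
        · exact absurd h (by simp [rhoS])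
        · have h1 : l' = l := Sum.inr_injective h
          subst h1; rfl
      right_inv := by intro a; rfl }
  rw [Fintype.card_congr e, Fintype.card_fin]

/-- The outer block of a point. -/
def OS (p : Option (Option J₀) → ℕ) (x : Ω) : Set (X (IS Ω Λ J₀) (Option J₀) (WS Ω Λ) Z p) :=
  {y | ∃ u, y = Sum.inr (Sum.inl x, u)}

variable [Fintype Ω] [Fintype J₀] [Fintype Z] [Nonempty Ω] [Nonempty Λ] [Nonempty Z]

theorem spec_nec (p : Option (Option J₀) → ℕ) (hp : ∀ o, (p o).Prime)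
    (hinj : Function.Injective p) (hbig : ∀ o, Fintype.card Z < p o)
    {T : Subgroup (IS Ω Λ J₀ → Perm Z)}
    {π : Perm (X (IS Ω Λ J₀) (Option J₀) (WS Ω Λ) Z p)}
    (hπ : π ∈ Subgroup.normalizer
      (K p posS rhoS T : Set (Perm (X (IS Ω Λ J₀) (Option J₀) (WS Ω Λ) Z p)))) :
    ∃ b : Perm Ω, (∀ x, π '' (OS p x) = OS p (b x)) ∧
      ∃ θ : T →* T, Function.Injective θ ∧ ∀ (t : T) (γ : J₀ → Ω) (l : Λ),
        ((t : IS Ω Λ J₀ → Perm Z) (γ, l) = 1 ↔
          (θ t : IS Ω Λ J₀ → Perm Z) (b ∘ γ, l) = 1) := by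
  classical
  have : Nonempty (IS Ω Λ J₀) := ⟨(fun _ => Classical.arbitrary Ω, Classical.arbitrary Λ)⟩
  obtain ⟨β, hβ⟩ := exists_perm hp hinj hbig rhoS_surj hπ
  have hc := fun x => fibre_card hp hinj hbig rhoS_surj hπ hβ x
  have h1 : ∀ x : Ω, ∃ y : Ω, β (Sum.inl x) = Sum.inl y := by
    intro x
    rcases hy : β (Sum.inl x) with y | l
    · exact ⟨y, rfl⟩
    · have := hc (Sum.inl x)
      rw [hy, card_fibre_inl, card_fibre_inr] at this
      omega
  have h2 : ∀ l : Λ, β (Sum.inr l) = Sum.inr l := by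
    intro l
    rcases hy : β (Sum.inr l) with y | l'
    · have := hc (Sum.inr l)
      rw [hy, card_fibre_inl, card_fibre_inr] at this
      omega
    · have := hc (Sum.inr l)
      rw [hy, card_fibre_inr, card_fibre_inr] at this
      rw [idx_inj (by omega : idx Λ l' = idx Λ l)]
  choose f hf using h1
  have hfinj : Function.Injective f := by
    intro x y h
    have : β (Sum.inl x) = β (Sum.inl y) := by rw [hf, hf, h]
    exact Sum.inl_injective (β.injective this)
  set b : Perm Ω := Equiv.ofBijective f (Finite.injective_iff_bijective.mp hfinj) with hb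
  have hbf : ∀ x, β (Sum.inl x) = Sum.inl (b x) := hf
  refine ⟨b, ?_, ?_⟩
  · intro x
    ext y
    constructor
    · rintro ⟨_, ⟨u, rfl⟩, rfl⟩
      obtain ⟨w', u', h'⟩ := inr_of_inr hp hinj hbig rhoS_surj hπ (Sum.inl x) u
      have h3 := hβ (Sum.inr (Sum.inl x, u)) none
      rw [h'] at h3
      simp only [posX_inr] at h3
      have h4 : rhoS w' = Sum.inl (b x) := by rw [h3, ← hbf]; rfl
      rcases w' with y | l
      · have : y = b x := Sum.inl_injective h4
        subst this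
        exact ⟨u', h'⟩
      · exact absurd h4 (by simp [rhoS])
    · rintro ⟨u, rfl⟩
      obtain ⟨w', u', h'⟩ := inr_of_inr hp hinj hbig rhoS_surj
        (Subgroup.inv_mem _ hπ) (Sum.inl (b x)) u
      have h3 := hβ (π⁻¹ (Sum.inr (Sum.inl (b x), u))) none
      rw [app_inv, h'] at h3
      simp only [posX_inr] at h3
      have h4 : β (rhoS w') = β (Sum.inl x) := by rw [← h3, hbf]; rfl
      have h5 := β.injective h4
      rcases w' with y | l
      · have : y = x := Sum.inl_injective h5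
        subst this
        exact ⟨Sum.inr (Sum.inl y, u'), ⟨u', rfl⟩, by rw [← h', app_inv]⟩
      · exact absurd h5 (by simp [rhoS])
  · obtain ⟨θ, hθ, hθ'⟩ := exists_theta hp hinj hbig rhoS_surj posS_inj hπ hβ
    refine ⟨θ, hθ, fun t γ l => hθ' t (γ, l) (b ∘ γ, l) ?_⟩
    funext j
    rcases j with - | j
    · exact (h2 l).symm
    · exact (hbf (γ j)).symm

omit [Fintype Ω] [Fintype J₀] [Fintype Z] [Nonempty Ω] [Nonempty Λ] [Nonempty Z] in
theorem spec_suf (p : Option (Option J₀) → ℕ)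
    {T : Subgroup (IS Ω Λ J₀ → Perm Z)} {b : Perm Ω}
    (hT : ∀ t : IS Ω Λ J₀ → Perm Z, t ∈ T ↔ (fun i : IS Ω Λ J₀ => t (b ∘ i.1, i.2)) ∈ T) :
    ∃ π ∈ Subgroup.normalizer
      (K p posS rhoS T : Set (Perm (X (IS Ω Λ J₀) (Option J₀) (WS Ω Λ) Z p))),
      ∀ x, π '' (OS p x) = OS p (b x) := by
  classical
  let β : Perm (Ω ⊕ Λ) := Equiv.sumCongr b (Equiv.refl Λ)
  let bI : Perm (IS Ω Λ J₀) := Equiv.prodCongr (Equiv.arrowCongr (Equiv.refl J₀) b) (Equiv.refl Λ)
  let bW : Perm (WS Ω Λ) := Equiv.sumCongr b (Equiv.refl _)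
  refine ⟨lift p bI bW, lift_mem (β := β) p ?_ ?_ ?_, ?_⟩
  · rintro ⟨γ, l⟩
    funext j
    rcases j with - | j
    · rfl
    · rfl
  · rintro (x | l)
    · rfl
    · rfl
  · intro t
    exact hT t
  · intro x
    ext y
    constructor
    · rintro ⟨_, ⟨u, rfl⟩, rfl⟩
      exact ⟨u, rfl⟩
    · rintro ⟨u, rfl⟩
      exact ⟨Sum.inr (Sum.inl x, u), ⟨u, rfl⟩, rfl⟩

end Spec

end Pool.Agent.Helper175_Enc
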