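import Pool.Agent.Helper175_Enc.Engine2

/-!
Tools: sums over labels, transport of groups of functions, relations, codes over `ZMod q`.
-/

set_option autoImplicit false

namespace Pool.Agent.Helper175_Enc

open Equiv

section SumM

variable {Ω Λ₁ Λ₂ J₀ A : Type}

/-- Extension by a trivial value to further labels. -/
def inLm [One A] (r : IS Ω Λ₁ J₀ → A) : IS Ω (Λ₁ ⊕ Λ₂) J₀ → A := fun i => match i with
  | (γ, Sum.inl l) => r (γ, l)
  | (_, Sum.inr _) => 1

/-- Extension by a trivial value to further labels. -/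
def inRm [One A] (r : IS Ω Λ₂ J₀ → A) : IS Ω (Λ₁ ⊕ Λ₂) J₀ → A := fun i => match i with
  | (_, Sum.inl _) => 1
  | (γ, Sum.inr l) => r (γ, l)

lemma pull_inLm [One A] (b : Perm Ω) (r : IS Ω Λ₁ J₀ → A) :
    pull b (inLm (Λ₂ := Λ₂) r) = inLm (pull b r) := by
  funext i
  rcases i with ⟨γ, l | l⟩ <;> rfl

lemma pull_inRm [One A] (b : Perm Ω) (r : IS Ω Λ₂ J₀ → A) :
    pull b (inRm (Λ₁ := Λ₁) r) = inRm (pull b r) := by
  funext i
  rcases i with ⟨γ, l | l⟩ <;> rfl

/-- Product of two groups of functions on disjoint sets of labels. -/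
def prodM [Group A] (R₁ : Subgroup (IS Ω Λ₁ J₀ → A)) (R₂ : Subgroup (IS Ω Λ₂ J₀ → A)) :
    Subgroup (IS Ω (Λ₁ ⊕ Λ₂) J₀ → A) where
  carrier := {r | (fun i : IS Ω Λ₁ J₀ => r (i.1, Sum.inl i.2)) ∈ R₁ ∧
    (fun i : IS Ω Λ₂ J₀ => r (i.1, Sum.inr i.2)) ∈ R₂}
  one_mem' := ⟨R₁.one_mem, R₂.one_mem⟩
  mul_mem' := fun h h' => ⟨R₁.mul_mem h.1 h'.1, R₂.mul_mem h.2 h'.2⟩
  inv_mem' := fun h => ⟨R₁.inv_mem h.1, R₂.inv_mem h.2⟩

lemma stab_prodM [Group A] (R₁ : Subgroup (IS Ω Λ₁ J₀ → A))
    (R₂ : Subgroup (IS Ω Λ₂ J₀ → A)) (b : Perm Ω) :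
    b ∈ StabOf (prodM R₁ R₂ : Set (IS Ω (Λ₁ ⊕ Λ₂) J₀ → A)) ↔
      b ∈ StabOf (R₁ : Set (IS Ω Λ₁ J₀ → A)) ∧ b ∈ StabOf (R₂ : Set (IS Ω Λ₂ J₀ → A)) := by
  have hL : ∀ r : IS Ω Λ₁ J₀ → A, inLm r ∈ prodM R₁ R₂ ↔ r ∈ R₁ := by
    intro r
    exact ⟨fun h => h.1, fun h => ⟨h, R₂.one_mem⟩⟩
  have hR : ∀ r : IS Ω Λ₂ J₀ → A, inRm r ∈ prodM R₁ R₂ ↔ r ∈ R₂ := by
    intro r
    exact ⟨fun h => h.2, fun h => ⟨R₁.one_mem, h⟩⟩
  constructor
  · intro h
    refine ⟨fun r => ?_, fun r => ?_⟩
    · have := h (inLm r)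
      rw [pull_inLm, SetLike.mem_coe, SetLike.mem_coe, hL, hL] at this
      exact this
    · have := h (inRm r)
      rw [pull_inRm, SetLike.mem_coe, SetLike.mem_coe, hR, hR] at this
      exact this
  · rintro ⟨h1, h2⟩ r
    exact and_congr (h1 _) (h2 _)

lemma prodM_closure [Group A] (A₁ : Set (IS Ω Λ₁ J₀ → A)) (A₂ : Set (IS Ω Λ₂ J₀ → A)) :
    prodM (Subgroup.closure A₁) (Subgroup.closure A₂) =
      Subgroup.closure (inLm '' A₁ ∪ inRm '' A₂) := by
  apply le_antisymm
  · rintro r ⟨h1, h2⟩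
    set C := Subgroup.closure (inLm (Λ₂ := Λ₂) '' A₁ ∪ inRm (Λ₁ := Λ₁) '' A₂) with hC
    have h3 : ∀ s ∈ Subgroup.closure A₁, inLm s ∈ C := by
      intro s hs
      induction hs using Subgroup.closure_induction with
      | mem x hx => exact Subgroup.subset_closure (Or.inl ⟨x, hx, rfl⟩)
      | one =>
        have : inLm (Λ₂ := Λ₂) (1 : IS Ω Λ₁ J₀ → A) = 1 := by
          funext i; rcases i with ⟨γ, l | l⟩ <;> rfl
        rw [this]; exact C.one_mem
      | mul x y _ _ hx hy =>
        have : inLm (Λ₂ := Λ₂) (x * y) = inLm x * inLm y := by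
          funext i; rcases i with ⟨γ, l | l⟩ <;> simp [inLm]
        rw [this]; exact C.mul_mem hx hy
      | inv x _ hx =>
        have : inLm (Λ₂ := Λ₂) (x⁻¹) = (inLm x)⁻¹ := by
          funext i; rcases i with ⟨γ, l | l⟩ <;> simp [inLm]
        rw [this]; exact C.inv_mem hx
    have h4 : ∀ s ∈ Subgroup.closure A₂, inRm s ∈ C := by
      intro s hs
      induction hs using Subgroup.closure_induction with
      | mem x hx => exact Subgroup.subset_closure (Or.inr ⟨x, hx, rfl⟩)
      | one =>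
        have : inRm (Λ₁ := Λ₁) (1 : IS Ω Λ₂ J₀ → A) = 1 := by
          funext i; rcases i with ⟨γ, l | l⟩ <;> rfl
        rw [this]; exact C.one_mem
      | mul x y _ _ hx hy =>
        have : inRm (Λ₁ := Λ₁) (x * y) = inRm x * inRm y := by
          funext i; rcases i with ⟨γ, l | l⟩ <;> simp [inRm]
        rw [this]; exact C.mul_mem hx hy
      | inv x _ hx =>
        have : inRm (Λ₁ := Λ₁) (x⁻¹) = (inRm x)⁻¹ := by
          funext i; rcases i with ⟨γ, l | l⟩ <;> simp [inRm]
        rw [this]; exact C.inv_mem hx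
    have h5 : r = inLm (fun i : IS Ω Λ₁ J₀ => r (i.1, Sum.inl i.2)) *
        inRm (fun i : IS Ω Λ₂ J₀ => r (i.1, Sum.inr i.2)) := by
      funext i; rcases i with ⟨γ, l | l⟩ <;> simp [inLm, inRm]
    rw [h5]
    exact C.mul_mem (h3 _ h1) (h4 _ h2)
  · rw [Subgroup.closure_le]
    rintro _ (⟨s, hs, rfl⟩ | ⟨s, hs, rfl⟩)
    · exact ⟨Subgroup.subset_closure hs, Subgroup.one_mem _⟩
    · exact ⟨Subgroup.one_mem _, Subgroup.subset_closure hs⟩

theorem stab_union [Group A] (A₁ : Set (IS Ω Λ₁ J₀ → A)) (A₂ : Set (IS Ω Λ₂ J₀ → A))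
    (b : Perm Ω) :
    b ∈ StabOf ((Subgroup.closure (inLm '' A₁ ∪ inRm '' A₂) : Subgroup _) :
      Set (IS Ω (Λ₁ ⊕ Λ₂) J₀ → A)) ↔
      b ∈ StabOf (Subgroup.closure A₁ : Set (IS Ω Λ₁ J₀ → A)) ∧
      b ∈ StabOf (Subgroup.closure A₂ : Set (IS Ω Λ₂ J₀ → A)) := by
  rw [← prodM_closure, stab_prodM]

end SumM

section Transport

variable {Ω Ω₁ Λ J J₁ A : Type}

/-- Transport of a function along a map from tuples to (optional) tuples. -/
def extf [One A] (φ : (J → Ω) → Option (J₁ → Ω₁)) (s : IS Ω₁ Λ J₁ → A) : IS Ω Λ J → A :=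
  fun i => match φ i.1 with
    | none => 1
    | some γ => s (γ, i.2)

lemma extf_pull [One A] {φ : (J → Ω) → Option (J₁ → Ω₁)} {b : Perm Ω} {b₁ : Perm Ω₁}
    (h : ∀ ε, φ (⇑b ∘ ε) = (φ ε).map (fun γ => ⇑b₁ ∘ γ)) (s : IS Ω₁ Λ J₁ → A) :
    pull b (extf φ s) = extf φ (pull b₁ s) := by
  funext i
  simp only [pull, extf, h]
  rcases φ i.1 with - | γ <;> rfl

lemma extf_inj [One A] {φ : (J → Ω) → Option (J₁ → Ω₁)} (hφ : ∀ γ, ∃ ε, φ ε = some γ)
    {s s' : IS Ω₁ Λ J₁ → A} (h : extf φ s = extf φ s') : s = s' := by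
  funext i
  obtain ⟨ε, hε⟩ := hφ i.1
  have := congrFun h (ε, i.2)
  simp only [extf, hε] at this
  exact this

/-- Transport as a homomorphism. -/
def extHom [Group A] (φ : (J → Ω) → Option (J₁ → Ω₁)) :
    (IS Ω₁ Λ J₁ → A) →* (IS Ω Λ J → A) where
  toFun := extf φ
  map_one' := by
    funext i
    simp only [extf]
    rcases φ i.1 with - | γ <;> rfl
  map_mul' s s' := by
    funext i
    simp only [extf, Pi.mul_apply]
    rcases φ i.1 with - | γ
    · simp
    · rfl

theorem stab_extf [Group A] {φ : (J → Ω) → Option (J₁ → Ω₁)} (hφ : ∀ γ, ∃ ε, φ ε = some γ)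
    {b : Perm Ω} {b₁ : Perm Ω₁}
    (h : ∀ ε, φ (⇑b ∘ ε) = (φ ε).map (fun γ => ⇑b₁ ∘ γ)) (S₀ : Set (IS Ω₁ Λ J₁ → A)) :
    b ∈ StabOf ((Subgroup.closure (extf φ '' S₀) : Subgroup _) : Set (IS Ω Λ J → A)) ↔
      b₁ ∈ StabOf (Subgroup.closure S₀ : Set (IS Ω₁ Λ J₁ → A)) := by
  have h1 : Subgroup.closure (extf φ '' S₀) =
      (Subgroup.closure S₀).map (extHom (Λ := Λ) (A := A) φ) := by
    rw [MonoidHom.map_closure]
    rfl
  rw [h1]
  have hmem : ∀ s : IS Ω₁ Λ J₁ → A, extf φ s ∈ (Subgroup.closure S₀).map (extHom φ) ↔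
      s ∈ Subgroup.closure S₀ := by
    intro s
    constructor
    · rintro ⟨s', hs', h2⟩
      have : s' = s := extf_inj hφ h2
      rw [← this]; exact hs'
    · intro hs
      exact ⟨s, hs, rfl⟩
  have hb' : ∀ s : IS Ω₁ Λ J₁ → A, extf φ (pull b₁ s) = pull b (extf φ s) := fun s =>
    (extf_pull h s).symm
  constructor
  · intro hb s
    have h2 := hb (extf φ s)
    rw [← hb', SetLike.mem_coe, SetLike.mem_coe, hmem, hmem] at h2
    exact h2
  · intro hb t
    constructor
    · rintro ⟨s, hs, rfl⟩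
      change pull b (extf φ s) ∈ _
      rw [← hb']
      exact (hmem _).mpr ((hb s).mp hs)
    · rintro ⟨s, hs, hst⟩
      have h3 : t = extf φ (pull b₁⁻¹ s) := by
        apply pull_inj b
        rw [← hb', pull_pull_inv]
        exact hst.symm
      rw [h3]
      exact (hmem _).mpr ((hb _).mpr (by rw [pull_pull_inv]; exact hs))

end Transport

section Rel

variable {Ω Λ J Z : Type}

open Classical in
/-- The function that takes the value `c` on a labelled relation. -/
noncomputable def relf (c : Perm Z) (rel : Λ → Set (J → Ω)) : IS Ω Λ J → Perm Z :=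
  fun i => if i.1 ∈ rel i.2 then c else 1

theorem stab_relf {c : Perm Z} (hc : c ≠ 1) (hc2 : c * c = 1) {rel : Λ → Set (J → Ω)}
    {b : Perm Ω} :
    b ∈ StabOf ((Subgroup.closure {relf c rel} : Subgroup _) : Set (IS Ω Λ J → Perm Z)) ↔
      ∀ l ε, ε ∈ rel l ↔ ⇑b ∘ ε ∈ rel l := by
  classical
  have hmem : ∀ s : IS Ω Λ J → Perm Z, s ∈ Subgroup.closure {relf c rel} ↔
      s = 1 ∨ s = relf c rel := by
    intro s
    rw [← Subgroup.zpowers_eq_closure, Subgroup.mem_zpowers_iff]
    have h2 : (relf c rel : IS Ω Λ J → Perm Z) * relf c rel = 1 := by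
      funext i
      simp only [Pi.mul_apply, relf]
      split_ifs
      · exact hc2
      · simp
    constructor
    · rintro ⟨k, rfl⟩
      rcases Int.even_or_odd' k with ⟨m, rfl | rfl⟩
      · left
        rw [zpow_mul, zpow_two, h2, one_zpow]
      · right
        rw [zpow_add, zpow_mul, zpow_two, h2, one_zpow, one_mul, zpow_one]
    · rintro (rfl | rfl)
      · exact ⟨0, zpow_zero _⟩
      · exact ⟨1, zpow_one _⟩
  have hval : ∀ l ε, ε ∈ rel l ↔ relf c rel (ε, l) = c := by
    intro l ε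
    simp only [relf]
    split_ifs with h
    · simp [h]
    · simp only [h, false_iff]
      exact fun h' => hc h'.symm
  constructor
  · intro hb l ε
    have h1 := (hb (relf c rel)).mp ((hmem _).mpr (Or.inr rfl))
    rw [SetLike.mem_coe, hmem] at h1
    rcases h1 with h1 | h1
    · have h3 : relf c rel = 1 := pull_inj b (h1.trans rfl)
      have h4 : ∀ l ε, ε ∉ rel l := by
        intro l ε h
        have := (hval l ε).mp h
        rw [h3] at this
        exact hc this.symm
      simp [h4]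
    · rw [hval, hval]
      have := congrFun h1 (ε, l)
      simp only [pull] at this
      rw [this]
  · intro h s
    have h1 : pull b (relf c rel) = (relf c rel : IS Ω Λ J → Perm Z) := by
      funext i
      simp only [pull, relf]
      simp only [← h]
    rw [SetLike.mem_coe, SetLike.mem_coe, hmem, hmem]
    constructor
    · rintro (rfl | rfl)
      · left; rfl
      · right; exact h1
    · rintro (h2 | h2)
      · left; exact pull_inj b (h2.trans rfl)
      · right; exact pull_inj b (h2.trans h1.symm)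

end Rel

section Expo

variable {Ω Λ J Z : Type} {q : ℕ}

/-- A code over `ZMod q` as a group of functions with values in permutations. -/
def expo (e : Multiplicative (ZMod q) →* Perm Z) (r : IS Ω Λ J → ZMod q) : IS Ω Λ J → Perm Z :=
  fun i => e (Multiplicative.ofAdd (r i))

theorem stab_expo {e : Multiplicative (ZMod q) →* Perm Z} (he : Function.Injective e)
    (R₀ : Set (IS Ω Λ J → ZMod q)) (b : Perm Ω) :
    b ∈ StabOf ((Subgroup.closure (expo e '' R₀) : Subgroup _) : Set (IS Ω Λ J → Perm Z)) ↔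
      b ∈ StabOf (AddSubgroup.closure R₀ : Set (IS Ω Λ J → ZMod q)) := by
  have hinj : ∀ {r r' : IS Ω Λ J → ZMod q}, expo e r = expo e r' → r = r' := by
    intro r r' h
    funext i
    exact Multiplicative.ofAdd.injective (he (congrFun h i))
  have hmem : ∀ s : IS Ω Λ J → Perm Z, s ∈ Subgroup.closure (expo e '' R₀) ↔
      ∃ r ∈ AddSubgroup.closure R₀, s = expo e r := by
    intro s
    constructor
    · intro hs
      induction hs using Subgroup.closure_induction with
      | mem x hx =>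
        obtain ⟨r, hr, rfl⟩ := hx
        exact ⟨r, AddSubgroup.subset_closure hr, rfl⟩
      | one =>
        refine ⟨0, AddSubgroup.zero_mem _, ?_⟩
        funext i
        simp [expo]
      | mul x y _ _ hx hy =>
        obtain ⟨r, hr, rfl⟩ := hx
        obtain ⟨r', hr', rfl⟩ := hy
        refine ⟨r + r', AddSubgroup.add_mem _ hr hr', ?_⟩
        funext i
        simp [expo, ofAdd_add, map_mul]
      | inv x _ hx =>
        obtain ⟨r, hr, rfl⟩ := hx
        refine ⟨-r, AddSubgroup.neg_mem _ hr, ?_⟩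
        funext i
        simp [expo, ofAdd_neg, map_inv]
    · rintro ⟨r, hr, rfl⟩
      induction hr using AddSubgroup.closure_induction with
      | mem x hx => exact Subgroup.subset_closure ⟨x, hx, rfl⟩
      | zero =>
        have : expo e (0 : IS Ω Λ J → ZMod q) = 1 := by
          funext i; simp [expo]
        rw [this]; exact Subgroup.one_mem _
      | add x y _ _ hx hy =>
        have : expo e (x + y) = expo e x * expo e y := by
          funext i; simp [expo, ofAdd_add, map_mul]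
        rw [this]; exact Subgroup.mul_mem _ hx hy
      | neg x _ hx =>
        have : expo e (-x) = (expo e x)⁻¹ := by
          funext i; simp [expo, ofAdd_neg, map_inv]
        rw [this]; exact Subgroup.inv_mem _ hx
  have hmem2 : ∀ r : IS Ω Λ J → ZMod q, expo e r ∈ Subgroup.closure (expo e '' R₀) ↔
      r ∈ AddSubgroup.closure R₀ := by
    intro r
    rw [hmem]
    constructor
    · rintro ⟨r', hr', h⟩
      rw [hinj h]; exact hr'
    · intro hr
      exact ⟨r, hr, rfl⟩
  constructor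
  · intro hb r
    have h1 := hb (expo e r)
    have h2 : pull b (expo e r) = expo e (pull b r) := rfl
    rw [h2, SetLike.mem_coe, SetLike.mem_coe, hmem2, hmem2] at h1
    exact h1
  · intro hb s
    constructor
    · intro hs
      obtain ⟨r, hr, rfl⟩ := (hmem s).mp hs
      exact (hmem2 _).mpr ((hb r).mp hr)
    · intro hs
      obtain ⟨r, hr, h⟩ := (hmem _).mp hs
      have h3 : s = expo e (pull b⁻¹ r) := by
        apply pull_inj b
        rw [h]
        change expo e r = expo e (pull b (pull b⁻¹ r))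
        rw [pull_pull_inv]
      rw [h3]
      exact (hmem2 _).mpr ((hb _).mpr (by rw [pull_pull_inv]; exact hr))

end Expo

end Pool.Agent.Helper175_Enc
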