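import Pool.Agent.Helper175_Enc.Moduli

/-!
Values of the functions attached to groups, and conjugation formulas.
-/

set_option autoImplicit false

namespace Pool.Agent.Helper175_Enc

open Equiv

/-- The values that occur. -/
def vN (N : ℕ) : Option (Fin N) → Perm (ZN N)
  | none => 1
  | some q => eN N q (Multiplicative.ofAdd 1)

lemma vN_comm (N : ℕ) (o o' : Option (Fin N)) : vN N o * vN N o' = vN N o' * vN N o := by
  rcases o with - | q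
  · simp [vN]
  · rcases o' with - | q'
    · simp [vN]
    · exact eN_comm N q q' _ _

lemma fG_val {Ω J : Type} (N : ℕ) (q : Fin N) (g : Perm Ω) (i : IS Ω (Fin N × (J → Ω)) J) :
    ∃ o, fG N J q g i = vN N o := by
  simp only [fG, place, expo, tm]
  split_ifs
  · exact ⟨some q, rfl⟩
  · exact ⟨none, by simp [vN]⟩
  · exact ⟨none, rfl⟩

lemma inLm_val {Ω Λ₁ Λ₂ J Z Sg : Type} (ς : Sg → Perm Z) (o₁ : Sg) (ho : ς o₁ = 1)
    {s : IS Ω Λ₁ J → Perm Z} (hs : ∀ i, ∃ o, s i = ς o) :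
    ∀ i, ∃ o, inLm (Λ₂ := Λ₂) s i = ς o := by
  rintro ⟨γ, l | l⟩
  · exact hs (γ, l)
  · exact ⟨o₁, ho.symm⟩

lemma inRm_val {Ω Λ₁ Λ₂ J Z Sg : Type} (ς : Sg → Perm Z) (o₁ : Sg) (ho : ς o₁ = 1)
    {s : IS Ω Λ₂ J → Perm Z} (hs : ∀ i, ∃ o, s i = ς o) :
    ∀ i, ∃ o, inRm (Λ₁ := Λ₁) s i = ς o := by
  rintro ⟨γ, l | l⟩
  · exact ⟨o₁, ho.symm⟩
  · exact hs (γ, l)

lemma extf_val {Ω Ω₁ Λ J J₁ Z Sg : Type} (ς : Sg → Perm Z) (o₁ : Sg) (ho : ς o₁ = 1)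
    (φ : (J → Ω) → Option (J₁ → Ω₁))
    {s : IS Ω₁ Λ J₁ → Perm Z} (hs : ∀ i, ∃ o, s i = ς o) :
    ∀ i, ∃ o, extf φ s i = ς o := by
  intro i
  simp only [extf]
  rcases φ i.1 with - | γ
  · exact ⟨o₁, ho.symm⟩
  · exact hs (γ, i.2)

/-- Conjugates of the elements attached to the identity. -/
lemma conj_family {Ω Ω' Λ J A X Q : Type} (α : Perm Ω →* Perm X)
    (iS : (IS Ω Λ J → A) → Perm X)
    (hα : ∀ b r, α b * iS r * (α b)⁻¹ = iS (pull b⁻¹ r))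
    (ρ : Perm Ω' →* Perm Ω)
    (F : Q → Perm Ω' → IS Ω Λ J → A) (hF : ∀ q g b, pull (ρ b) (F q g) = F q (g * b))
    (G : Subgroup (Perm Ω')) :
    {x | ∃ q, ∃ g ∈ G, x = α (ρ g) * iS (F q 1) * (α (ρ g))⁻¹} =
      iS '' {t | ∃ q, ∃ g ∈ G, t = F q g} := by
  ext x
  constructor
  · rintro ⟨q, g, hg, rfl⟩
    refine ⟨F q g⁻¹, ⟨q, g⁻¹, G.inv_mem hg, rfl⟩, ?_⟩
    rw [hα, ← map_inv, hF, one_mul]
  · rintro ⟨_, ⟨q, g, hg, rfl⟩, rfl⟩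
    refine ⟨q, g⁻¹, G.inv_mem hg, ?_⟩
    rw [hα, ← map_inv, hF, one_mul, inv_inv]

end Pool.Agent.Helper175_Enc
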