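import Pool.Agent.Helper175_Enc.Vals

/-!
Codes for groups of functions acting on a product set.
-/

set_option autoImplicit false

namespace Pool.Agent.Helper175_Enc

open Equiv

section ValHom

variable {Ω Λ J A B : Type}

theorem stab_val [Group A] [Group B] (e : A →* B) (he : Function.Injective e)
    (S₀ : Set (IS Ω Λ J → A)) (b : Perm Ω) :
    b ∈ StabOf ((Subgroup.closure ((fun s i => e (s i)) '' S₀) : Subgroup _) :
      Set (IS Ω Λ J → B)) ↔
      b ∈ StabOf (Subgroup.closure S₀ : Set (IS Ω Λ J → A)) := by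
  let E : (IS Ω Λ J → A) →* (IS Ω Λ J → B) :=
    { toFun := fun s i => e (s i)
      map_one' := by funext i; simp
      map_mul' := fun s t => by funext i; simp }
  have hinj : Function.Injective E := by
    intro s t h
    funext i
    exact he (congrFun h i)
  have h1 : Subgroup.closure ((fun s i => e (s i)) '' S₀) = (Subgroup.closure S₀).map E := by
    rw [MonoidHom.map_closure]
    rfl
  rw [h1]
  have hmem : ∀ s : IS Ω Λ J → A, E s ∈ (Subgroup.closure S₀).map E ↔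
      s ∈ Subgroup.closure S₀ := by
    intro s
    constructor
    · rintro ⟨s', hs', h2⟩
      rw [← hinj h2]; exact hs'
    · intro hs
      exact ⟨s, hs, rfl⟩
  constructor
  · intro hb s
    have h2 := hb (E s)
    change E s ∈ _ ↔ E (pull b s) ∈ _ at h2
    rw [SetLike.mem_coe, SetLike.mem_coe, hmem, hmem] at h2
    exact h2
  · intro hb t
    constructor
    · rintro ⟨s, hs, rfl⟩
      change E (pull b s) ∈ _
      exact (hmem _).mpr ((hb s).mp hs)
    · rintro ⟨s, hs, hst⟩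
      have h3 : t = E (pull b⁻¹ s) := by
        apply pull_inj b
        change pull b t = E (pull b (pull b⁻¹ s))
        rw [pull_pull_inv]
        exact hst.symm
      rw [h3]
      exact (hmem _).mpr ((hb _).mpr (by rw [pull_pull_inv]; exact hs))

end ValHom

section W

variable {l d : ℕ} (V : Subgroup (Fin l → Perm (Fin d)))

/-- Hidden points: an index together with a value of the group at that index. -/
abbrev YV : Type := {x : Fin l × Perm (Fin d) // ∃ v ∈ V, v x.1 = x.2}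

/-- All points. -/
abbrev Pt : Type := (Fin l × Fin d) ⊕ YV V

variable {V}

/-- The hidden point over `i` with value `1`. -/
def y1 (i : Fin l) : YV V := ⟨(i, 1), 1, V.one_mem, rfl⟩

lemma YV_mul {i : Fin l} {p q : Perm (Fin d)} (hp : ∃ v ∈ V, v i = p) (hq : ∃ v ∈ V, v i = q) :
    ∃ v ∈ V, v i = p * q := by
  obtain ⟨v, hv, rfl⟩ := hp
  obtain ⟨w, hw, rfl⟩ := hq
  exact ⟨v * w, V.mul_mem hv hw, rfl⟩

lemma YV_inv {i : Fin l} {p : Perm (Fin d)} (hp : ∃ v ∈ V, v i = p) :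
    ∃ v ∈ V, v i = p⁻¹ := by
  obtain ⟨v, hv, rfl⟩ := hp
  exact ⟨v⁻¹, V.inv_mem hv, rfl⟩

variable (V)

/-- The relations that fix the structure of the set of points. -/
def relW : YV V ⊕ Fin d → Set (Fin 2 → Pt V)
  | Sum.inl y => {ε | ∃ z z' : YV V, ε 0 = Sum.inr z ∧ ε 1 = Sum.inr z' ∧ z'.1.1 = z.1.1 ∧
      z'.1.2 = z.1.2 * y.1.2}
  | Sum.inr δ => {ε | ∃ z : YV V, ε 0 = Sum.inr z ∧ ε 1 = Sum.inl (z.1.1, z.1.2 δ)}

variable {V}

theorem structW {β : Perm (Pt V)} (hβ : ∀ c ε, ε ∈ relW V c ↔ ⇑β ∘ ε ∈ relW V c) :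
    ∃ (σ : Perm (Fin l)) (v : Fin l → Perm (Fin d)),
      (∀ z : YV V, ∃ z' : YV V, β (Sum.inr z) = Sum.inr z' ∧ z'.1.1 = σ z.1.1 ∧
        z'.1.2 = v z.1.1 * z.1.2) ∧
      (∀ i δ, β (Sum.inl (i, δ)) = Sum.inl (σ i, v i δ)) := by
  have h1 : ∀ z : YV V, ∃ z' : YV V, β (Sum.inr z) = Sum.inr z' := by
    intro z
    have h2 : (fun _ => Sum.inr z : Fin 2 → Pt V) ∈ relW V (Sum.inl (y1 z.1.1)) :=
      ⟨z, z, rfl, rfl, rfl, by simp [y1]⟩
    obtain ⟨z₁, -, h3, -⟩ := (hβ _ _).mp h2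
    exact ⟨z₁, h3⟩
  choose g hg using h1
  have h2 : ∀ z z' : YV V, z'.1.1 = z.1.1 → (g z').1.1 = (g z).1.1 ∧
      (g z').1.2 = (g z).1.2 * (z.1.2⁻¹ * z'.1.2) := by
    rintro ⟨⟨i, q⟩, hq⟩ ⟨⟨i', q'⟩, hq'⟩ h
    simp only at h
    subst h
    have h3 : (![Sum.inr ⟨(i', q), hq⟩, Sum.inr ⟨(i', q'), hq'⟩] : Fin 2 → Pt V) ∈
        relW V (Sum.inl ⟨(i', q⁻¹ * q'), YV_mul (YV_inv hq) hq'⟩) :=
      ⟨⟨(i', q), hq⟩, ⟨(i', q'), hq'⟩, rfl, rfl, rfl, by simp⟩
    obtain ⟨z₁, z₂, h4, h5, h6, h7⟩ := (hβ _ _).mp h3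
    have h4' : β (Sum.inr ⟨(i', q), hq⟩) = Sum.inr z₁ := h4
    have h5' : β (Sum.inr ⟨(i', q'), hq'⟩) = Sum.inr z₂ := h5
    rw [hg] at h4' h5'
    rw [Sum.inr_injective h4', Sum.inr_injective h5']
    exact ⟨h6, h7⟩
  have hgσ : Function.Injective (fun i : Fin l => (g (y1 i)).1.1) := by
    intro i i' h
    simp only at h
    rcases hgi : g (y1 i) with ⟨⟨s, p⟩, hp⟩
    rcases hgi' : g (y1 i') with ⟨⟨s', p'⟩, hp'⟩
    rw [hgi, hgi'] at h
    simp only at h
    subst h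
    have h3 : ⇑β ∘ (![Sum.inr (y1 i), Sum.inr (y1 i')] : Fin 2 → Pt V) ∈
        relW V (Sum.inl ⟨(s, p⁻¹ * p'), YV_mul (YV_inv hp) hp'⟩) := by
      refine ⟨⟨(s, p), hp⟩, ⟨(s, p'), hp'⟩, ?_, ?_, rfl, by simp⟩
      · change β (Sum.inr (y1 i)) = _
        rw [hg, hgi]
      · change β (Sum.inr (y1 i')) = _
        rw [hg, hgi']
    obtain ⟨z₁, z₂, h4, h5, h6, -⟩ := (hβ _ _).mpr h3
    have h4' : (Sum.inr (y1 i) : Pt V) = Sum.inr z₁ := h4
    have h5' : (Sum.inr (y1 i') : Pt V) = Sum.inr z₂ := h5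
    rw [← Sum.inr_injective h4', ← Sum.inr_injective h5'] at h6
    exact h6.symm
  refine ⟨Equiv.ofBijective _ (Finite.injective_iff_bijective.mp hgσ),
    fun i => (g (y1 i)).1.2, ?_, ?_⟩
  · intro z
    obtain ⟨h3, h4⟩ := h2 (y1 z.1.1) z rfl
    refine ⟨g z, hg z, h3, ?_⟩
    rw [h4]
    simp [y1]
  · intro i δ
    have h3 : (![Sum.inr (y1 i), Sum.inl (i, δ)] : Fin 2 → Pt V) ∈ relW V (Sum.inr δ) :=
      ⟨y1 i, rfl, by simp [y1]⟩
    obtain ⟨z₁, h4, h5⟩ := (hβ _ _).mp h3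
    have h4' : β (Sum.inr (y1 i)) = Sum.inr z₁ := h4
    have h5' : β (Sum.inl (i, δ)) = Sum.inl (z₁.1.1, z₁.1.2 δ) := h5
    rw [hg] at h4'
    rw [h5', ← Sum.inr_injective h4']
    rfl

/-- The value of a point. -/
def valT : Pt V → Perm (Fin d)
  | Sum.inl _ => 1
  | Sum.inr z => z.1.2

/-- The value of an element of the group at a point. -/
def valD (w : Fin l → Perm (Fin d)) : Pt V → Perm (Fin d)
  | Sum.inl _ => 1
  | Sum.inr z => w z.1.1

/-- The value of a hidden point as a function. -/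
def fT : IS (Pt V) Unit Unit → Perm (Fin d) := fun i => valT (i.1 ())

/-- The function attached to an element of the group. -/
def fD (w : Fin l → Perm (Fin d)) : IS (Pt V) Unit Unit → Perm (Fin d) :=
  fun i => valD w (i.1 ())

lemma pull_fT {β : Perm (Pt V)} {σ : Perm (Fin l)} {v : Fin l → Perm (Fin d)}
    (h1 : ∀ z : YV V, ∃ z' : YV V, β (Sum.inr z) = Sum.inr z' ∧ z'.1.1 = σ z.1.1 ∧
        z'.1.2 = v z.1.1 * z.1.2)
    (h2 : ∀ i δ, β (Sum.inl (i, δ)) = Sum.inl (σ i, v i δ)) :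
    pull β (fT (V := V)) = fD v * fT := by
  funext i
  change valT (β (i.1 ())) = valD v (i.1 ()) * valT (i.1 ())
  rcases i.1 () with ⟨j, δ⟩ | z
  · rw [h2]
    simp [valT, valD]
  · obtain ⟨z', h3, h4, h5⟩ := h1 z
    rw [h3]
    exact h5

lemma pull_fD {β : Perm (Pt V)} {σ : Perm (Fin l)} {v : Fin l → Perm (Fin d)}
    (h1 : ∀ z : YV V, ∃ z' : YV V, β (Sum.inr z) = Sum.inr z' ∧ z'.1.1 = σ z.1.1 ∧
        z'.1.2 = v z.1.1 * z.1.2)
    (h2 : ∀ i δ, β (Sum.inl (i, δ)) = Sum.inl (σ i, v i δ)) (w : Fin l → Perm (Fin d)) :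
    pull β (fD (V := V) w) = fD (fun i => w (σ i)) := by
  funext i
  change valD w (β (i.1 ())) = valD (fun i => w (σ i)) (i.1 ())
  rcases i.1 () with ⟨j, δ⟩ | z
  · rw [h2]
    rfl
  · obtain ⟨z', h3, h4, h5⟩ := h1 z
    rw [h3]
    simp only [valD, h4]

variable (V) in
/-- The generators of the function group attached to `V`. -/
def sV : Set (IS (Pt V) Unit Unit → Perm (Fin d)) := {fT} ∪ fD '' (V : Set _)

theorem stab_sV [Finite (YV V)] {β : Perm (Pt V)} {σ : Perm (Fin l)} {v : Fin l → Perm (Fin d)}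
    (h1 : ∀ z : YV V, ∃ z' : YV V, β (Sum.inr z) = Sum.inr z' ∧ z'.1.1 = σ z.1.1 ∧
        z'.1.2 = v z.1.1 * z.1.2)
    (h2 : ∀ i δ, β (Sum.inl (i, δ)) = Sum.inl (σ i, v i δ)) :
    β ∈ StabOf ((Subgroup.closure (sV V) : Subgroup _) :
      Set (IS (Pt V) Unit Unit → Perm (Fin d))) ↔
      v ∈ V ∧ ∀ w : Fin l → Perm (Fin d), w ∈ V ↔ (fun i => w (σ i)) ∈ V := by
  constructor
  · intro h
    let res : (IS (Pt V) Unit Unit → Perm (Fin d)) →* (Fin l → Perm (Fin d)) :=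
      { toFun := fun s i => s (fun _ => Sum.inr (y1 i), ())
        map_one' := rfl
        map_mul' := fun _ _ => rfl }
    have hres : ∀ s ∈ Subgroup.closure (sV V), res s ∈ V := by
      intro s hs
      induction hs using Subgroup.closure_induction with
      | mem x hx =>
        rcases hx with hx | ⟨w, hw, rfl⟩
        · rw [Set.mem_singleton_iff] at hx
          subst hx
          exact V.one_mem
        · exact hw
      | one => exact V.one_mem
      | mul x y _ _ hx hy => rw [map_mul]; exact V.mul_mem hx hy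
      | inv x _ hx => rw [map_inv]; exact V.inv_mem hx
    have hv : v ∈ V := by
      have h3 := hres _ ((h fT).mp (Subgroup.subset_closure (Or.inl rfl)))
      rw [pull_fT h1 h2, map_mul] at h3
      have h4 : res fT = 1 := rfl
      rw [h4, mul_one] at h3
      exact h3
    have hw : ∀ w ∈ V, (fun i => w (σ i)) ∈ V := by
      intro w hw
      have h3 := hres _ ((h (fD w)).mp (Subgroup.subset_closure (Or.inr ⟨w, hw, rfl⟩)))
      rw [pull_fD h1 h2] at h3
      exact h3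
    refine ⟨hv, fun w => ⟨hw w, fun hw' => ?_⟩⟩
    have hinj : Function.Injective (fun w : V => (⟨fun i => w.1 (σ i), hw w w.2⟩ : V)) := by
      intro a b hab
      apply Subtype.ext
      funext i
      have := congrFun (congrArg Subtype.val hab) (σ⁻¹ i)
      simpa [app_inv] using this
    obtain ⟨w', h5⟩ := (Finite.injective_iff_surjective.mp hinj) ⟨_, hw'⟩
    have h6 : w = w'.1 := by
      funext i
      have := congrFun (congrArg Subtype.val h5) (σ⁻¹ i)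
      simpa [app_inv] using this.symm
    rw [h6]
    exact w'.2
  · rintro ⟨hv, hw⟩
    apply stab_of_pull
    apply pull_closure
    rintro s (hs | ⟨w, hw', rfl⟩)
    · rw [Set.mem_singleton_iff] at hs
      subst hs
      rw [pull_fT h1 h2]
      exact Subgroup.mul_mem _ (Subgroup.subset_closure (Or.inr ⟨v, hv, rfl⟩))
        (Subgroup.subset_closure (Or.inl rfl))
    · rw [pull_fD h1 h2]
      exact Subgroup.subset_closure (Or.inr ⟨_, (hw w).mp hw', rfl⟩)

/-- Extension of a wreath element to the hidden points. -/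
theorem exists_beta [Finite (YV V)] {σ : Perm (Fin l)} {v : Fin l → Perm (Fin d)} (hv : v ∈ V)
    (hw : ∀ w : Fin l → Perm (Fin d), w ∈ V ↔ (fun i => w (σ i)) ∈ V) :
    ∃ β : Perm (Pt V), (∀ z : YV V, ∃ z' : YV V, β (Sum.inr z) = Sum.inr z' ∧ z'.1.1 = σ z.1.1 ∧
        z'.1.2 = v z.1.1 * z.1.2) ∧
      (∀ i δ, β (Sum.inl (i, δ)) = Sum.inl (σ i, v i δ)) ∧
      (∀ c ε, ε ∈ relW V c ↔ ⇑β ∘ ε ∈ relW V c) := by
  have hmem : ∀ z : YV V, ∃ w ∈ V, w (σ z.1.1) = v z.1.1 * z.1.2 := by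
    rintro ⟨⟨i, q⟩, w₀, hw₀, h⟩
    refine ⟨fun j => (v * w₀) (σ⁻¹ j), ?_, ?_⟩
    · rw [hw]
      simp only [inv_app]
      exact V.mul_mem hv hw₀
    · simp only [inv_app, Pi.mul_apply]
      rw [h]
  let f : Pt V → Pt V := fun x => match x with
    | Sum.inl (i, δ) => Sum.inl (σ i, v i δ)
    | Sum.inr z => Sum.inr ⟨(σ z.1.1, v z.1.1 * z.1.2), hmem z⟩
  have hf : Function.Injective f := by
    rintro (⟨i, δ⟩ | ⟨⟨i, q⟩, hq⟩) (⟨i', δ'⟩ | ⟨⟨i', q'⟩, hq'⟩) h
    · have h1 := Sum.inl_injective h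
      have h2 : i = i' := σ.injective (congrArg Prod.fst h1)
      subst h2
      have h3 : δ = δ' := (v i).injective (congrArg Prod.snd h1)
      rw [h3]
    · exact absurd h (by simp [f])
    · exact absurd h (by simp [f])
    · have h1 := congrArg Subtype.val (Sum.inr_injective h)
      have h2 : i = i' := σ.injective (congrArg Prod.fst h1)
      subst h2
      have h3 : q = q' := mul_left_cancel (congrArg Prod.snd h1)
      subst h3
      rfl
  let β : Perm (Pt V) := Equiv.ofBijective f (Finite.injective_iff_bijective.mp hf)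
  have hβr : ∀ z : YV V, β (Sum.inr z) = Sum.inr ⟨(σ z.1.1, v z.1.1 * z.1.2), hmem z⟩ :=
    fun z => rfl
  have hβl : ∀ i δ, β (Sum.inl (i, δ)) = Sum.inl (σ i, v i δ) := fun i δ => rfl
  refine ⟨β, fun z => ⟨_, hβr z, rfl, rfl⟩, hβl, ?_⟩
  have hinr : ∀ (x : Pt V) (z' : YV V), β x = Sum.inr z' → ∃ z : YV V, x = Sum.inr z ∧
      z'.1.1 = σ z.1.1 ∧ z'.1.2 = v z.1.1 * z.1.2 := by
    rintro (⟨i, δ⟩ | z) z' h
    · exact absurd h (by rw [hβl]; simp)
    · rw [hβr] at h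
      have h1 := Sum.inr_injective h
      refine ⟨z, rfl, ?_, ?_⟩ <;> rw [← h1]
  have hinl : ∀ (x : Pt V) (i : Fin l) (δ : Fin d), β x = Sum.inl (i, δ) →
      ∃ i₀ δ₀, x = Sum.inl (i₀, δ₀) ∧ i = σ i₀ ∧ δ = v i₀ δ₀ := by
    rintro (⟨i₀, δ₀⟩ | z) i δ h
    · rw [hβl] at h
      have h1 := Sum.inl_injective h
      exact ⟨i₀, δ₀, rfl, (congrArg Prod.fst h1).symm, (congrArg Prod.snd h1).symm⟩
    · exact absurd h (by rw [hβr]; simp)
  rintro (y | δ) ε
  · constructor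
    · rintro ⟨z, z', h1, h2, h3, h4⟩
      refine ⟨⟨(σ z.1.1, v z.1.1 * z.1.2), hmem z⟩, ⟨(σ z'.1.1, v z'.1.1 * z'.1.2), hmem z'⟩,
        ?_, ?_, ?_, ?_⟩
      · rw [Function.comp_apply, h1, hβr]
      · rw [Function.comp_apply, h2, hβr]
      · simp [h3]
      · simp [h3, h4, mul_assoc]
    · rintro ⟨z, z', h1, h2, h3, h4⟩
      obtain ⟨z₀, h5, h6, h7⟩ := hinr _ _ h1
      obtain ⟨z₁, h8, h9, h10⟩ := hinr _ _ h2
      rw [h6, h9] at h3
      have h11 := σ.injective h3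
      refine ⟨z₀, z₁, h5, h8, h11, ?_⟩
      rw [h7, h10, h11, mul_assoc] at h4
      exact mul_left_cancel h4
  · constructor
    · rintro ⟨z, h1, h2⟩
      refine ⟨⟨(σ z.1.1, v z.1.1 * z.1.2), hmem z⟩, ?_, ?_⟩
      · rw [Function.comp_apply, h1, hβr]
      · rw [Function.comp_apply, h2, hβl]
        rfl
    · rintro ⟨z, h1, h2⟩
      obtain ⟨z₀, h5, h6, h7⟩ := hinr _ _ h1
      obtain ⟨i₀, δ₀, h8, h9, h10⟩ := hinl _ _ _ h2
      refine ⟨z₀, h5, ?_⟩
      rw [h8]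
      rw [h6] at h9
      have h11 := σ.injective h9
      subst h11
      rw [h7, Perm.mul_apply] at h10
      rw [(v z₀.1.1).injective h10]

end W

end Pool.Agent.Helper175_Enc
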